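import Mathlib

set_option autoImplicit false
set_option linter.unusedVariables false

open Matrix

namespace TH71

/-- `P A = 1 - (1 + AᵀA)⁻¹` -/
noncomputable def P {m n : Type*} [Fintype m] [Fintype n] [DecidableEq n]
    (A : Matrix m n ℝ) : Matrix n n ℝ := 1 - (1 + Aᵀ * A)⁻¹

/-- log-determinant of `1 + X` -/
noncomputable def ld {n : Type*} [Fintype n] [DecidableEq n] (X : Matrix n n ℝ) : ℝ :=
  Real.log (1 + X).det

/-- `Psi A = tr AᵀA - log det (1 + AᵀA)` -/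
noncomputable def Psi {m n : Type*} [Fintype m] [Fintype n] [DecidableEq n]
    (A : Matrix m n ℝ) : ℝ := (Aᵀ * A).trace - ld (Aᵀ * A)

/-- concavity defect of `ld` -/
noncomputable def LD {n : Type*} [Fintype n] [DecidableEq n] (X0 X1 : Matrix n n ℝ) : ℝ :=
  ld ((1/2 : ℝ) • (X0 + X1)) - (1/2) * ld X0 - (1/2) * ld X1

/-- parent matrix `(1/2) [f_ab]` -/
noncomputable def par {ι : Type*} (f : Bool → Bool → Matrix ι ι ℝ) :
    Matrix (Bool × ι) (Bool × ι) ℝ := fun p q => (1/2) * f p.1 q.1 p.2 q.2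

/-- signature -/
def sg (ι : Type*) [DecidableEq ι] : Matrix (Bool × ι) (Bool × ι) ℝ :=
  Matrix.diagonal fun p => if p.1 then -1 else 1

/-- `(1/√2) [f_0, f_1]` (a row of blocks) -/
noncomputable def row {ι : Type*} (f : Bool → Matrix ι ι ℝ) : Matrix ι (Bool × ι) ℝ :=
  fun i q => (Real.sqrt 2)⁻¹ * f q.1 i q.2

/-- `(1/√2) (f_0 ; f_1)` (a column of blocks) -/
noncomputable def col {ι : Type*} (f : Bool → Matrix ι ι ℝ) : Matrix (Bool × ι) ι ℝ :=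
  fun p j => (Real.sqrt 2)⁻¹ * f p.1 p.2 j

/-- `E A B = tr P(A) σ Q(B) σ`, `Q B = P Bᵀ` -/
noncomputable def E {κ : Type*} [Fintype κ] [DecidableEq κ] (s : Matrix κ κ ℝ)
    (A B : Matrix κ κ ℝ) : ℝ := (P A * s * P Bᵀ * s).trace

/-- scale `2^k` -/
noncomputable def lam (k : ℤ) : ℝ := (2:ℝ) ^ k

/-- index types of the tree -/
def Idx : ℕ → Type
  | 0 => Unit
  | n + 1 => Bool × Idx n

instance instFintypeIdx : ∀ n, Fintype (Idx n)
  | 0 => inferInstanceAs (Fintype Unit)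
  | n + 1 => by
      haveI := instFintypeIdx n
      exact inferInstanceAs (Fintype (Bool × Idx n))

instance instDecIdx : ∀ n, DecidableEq (Idx n)
  | 0 => inferInstanceAs (DecidableEq Unit)
  | n + 1 => by
      haveI := instDecIdx n
      exact inferInstanceAs (DecidableEq (Bool × Idx n))

/-- shift of a grid function to the child `(a,b)` (`true` = upper half) -/
def sub (n : ℕ) (a b : Bool) (f : ℕ → ℕ → ℝ) : ℕ → ℕ → ℝ :=
  fun i j => f ((if a then 2^n else 0) + i) ((if b then 2^n else 0) + j)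

/-- normalised matrix of a grid function -/
noncomputable def Mx : ∀ (n : ℕ), (ℕ → ℕ → ℝ) → Matrix (Idx n) (Idx n) ℝ
  | 0, f => fun _ _ => f 0 0
  | n + 1, f => par (fun a b => Mx n (sub n a b f))

/-- node quantity `T₁ - T₀` -/
noncomputable def Dn (n : ℕ) (f g h : ℕ → ℕ → ℝ) : ℝ :=
  (sg (Idx n) * par (fun a b => Mx n (sub n a b f)) * sg (Idx n) *
    par (fun a b => Mx n (sub n a b g)) * sg (Idx n) *
    par (fun a b => Mx n (sub n a b h))).trace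

/-- sum over the whole tree -/
noncomputable def Ssum : ℕ → (ℕ → ℕ → ℝ) → (ℕ → ℕ → ℝ) → (ℕ → ℕ → ℝ) → ℝ
  | 0, _, _, _ => 0
  | n + 1, f, g, h => |Dn n f g h| + (1/4) * ∑ a : Bool, ∑ b : Bool,
      Ssum n (sub n a b f) (sub n b (xor a b) g) (sub n (xor a b) a h)

/-- normalised third moment on the grid -/
noncomputable def a3 (n : ℕ) (f : ℕ → ℕ → ℝ) : ℝ :=
  (1/4 ^ n) * ∑ i ∈ Finset.range (2^n), ∑ j ∈ Finset.range (2^n), |f i j| ^ 3

/-- sign of the top bit -/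
def sgn (M i : ℕ) : ℝ := if i < M / 2 then 1 else -1

/-- flat form of level `s` -/
noncomputable def Lam (n s : ℕ) (f g h : ℕ → ℕ → ℝ) : ℝ :=
  (1/4 ^ s) * (1/8 ^ (n - s)) * ∑ p ∈ Finset.range (2^s), ∑ q ∈ Finset.range (2^s),
    ∑ i ∈ Finset.range (2^(n-s)), ∑ j ∈ Finset.range (2^(n-s)), ∑ k ∈ Finset.range (2^(n-s)),
      sgn (2^(n-s)) i * sgn (2^(n-s)) j * sgn (2^(n-s)) k *
      f (p * 2^(n-s) + i) (q * 2^(n-s) + j) * g (q * 2^(n-s) + j) ((p ^^^ q) * 2^(n-s) + k) *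
      h ((p ^^^ q) * 2^(n-s) + k) (p * 2^(n-s) + i)

/-- `b₁ A = A (1 + AᵀA)⁻¹` -/
noncomputable def b1 {κ : Type*} [Fintype κ] [DecidableEq κ] (A : Matrix κ κ ℝ) : Matrix κ κ ℝ :=
  A * (1 + Aᵀ * A)⁻¹

/-- `b₂ A = A (1 + AᵀA/4)⁻¹` -/
noncomputable def b2 {κ : Type*} [Fintype κ] [DecidableEq κ] (A : Matrix κ κ ℝ) : Matrix κ κ ℝ :=
  A * (1 + (1/4 : ℝ) • (Aᵀ * A))⁻¹

/-- node potential -/
noncomputable def phi {κ : Type*} [Fintype κ] [DecidableEq κ] (A B C : Matrix κ κ ℝ) : ℝ :=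
  (P A * P Bᵀ).trace + (P B * P Cᵀ).trace + (P C * P Aᵀ).trace +
    200 * (Psi A + Psi B + Psi C)

/-- truncated sum of the potentials over scales -/
noncomputable def PhiK {κ : Type*} [Fintype κ] [DecidableEq κ] (K : ℕ) (A B C : Matrix κ κ ℝ) : ℝ :=
  ∑ k ∈ Finset.Ico (-(K : ℤ)) (K : ℤ), (lam k) ^ 3 *
    phi ((lam k)⁻¹ • A) ((lam k)⁻¹ • B) ((lam k)⁻¹ • C)

/-- leaf average of the potential -/
noncomputable def Leaf (K : ℕ) : ℕ → (ℕ → ℕ → ℝ) → (ℕ → ℕ → ℝ) → (ℕ → ℕ → ℝ) → ℝ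
  | 0, f, g, h => PhiK K (Mx 0 f) (Mx 0 g) (Mx 0 h)
  | n + 1, f, g, h => (1/4) * ∑ a : Bool, ∑ b : Bool,
      Leaf K n (sub n a b f) (sub n b (xor a b) g) (sub n (xor a b) a h)

end TH71
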