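import Pool.Agent.Helper71.TH.Defs

set_option autoImplicit false
set_option linter.unusedVariables false

open Matrix

namespace TH71



theorem aux_sum_half (s : ℕ) (G : ℕ → ℝ) : ∑ p ∈ Finset.range (2^(s+1)), G p
    = ∑ a : Bool, ∑ p ∈ Finset.range (2^s), G ((if a then 2^s else 0) + p) := by
  rw [Fintype.sum_bool, pow_succ, mul_two, Finset.sum_range_add, add_comm]
  simp

theorem aux_sum_half2 (s : ℕ) (T : ℕ → ℕ → ℝ) :
    ∑ p ∈ Finset.range (2^(s+1)), ∑ q ∈ Finset.range (2^(s+1)), T p q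
    = ∑ a : Bool, ∑ b : Bool, ∑ p ∈ Finset.range (2^s), ∑ q ∈ Finset.range (2^s),
      T ((if a then 2^s else 0) + p) ((if b then 2^s else 0) + q) := by
  rw [aux_sum_half]
  apply Finset.sum_congr rfl
  intro a _
  rw [Finset.sum_comm, aux_sum_half]
  apply Finset.sum_congr rfl
  intro b _
  rw [Finset.sum_comm]

theorem aux_xor (s p q : ℕ) (a b : Bool) (hp : p < 2^s) (hq : q < 2^s) :
    ((if a then 2^s else 0) + p) ^^^ ((if b then 2^s else 0) + q)
      = (if xor a b then 2^s else 0) + (p ^^^ q) := by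
  have hpos : 0 < 2^s := by positivity
  have key : ∀ (c : Bool) (x : ℕ), x < 2^s → ((if c then 2^s else 0) + x) / 2^s
      = (if c then 1 else 0) ∧ ((if c then 2^s else 0) + x) % 2^s = x := by
    intro c x hx
    cases c
    · simp [Nat.div_eq_of_lt hx, Nat.mod_eq_of_lt hx]
    · simp only [if_true]
      constructor
      · rw [Nat.add_div_left _ hpos, Nat.div_eq_of_lt hx]
      · rw [Nat.add_mod_left, Nat.mod_eq_of_lt hx]
  have hxy : p ^^^ q < 2^s := Nat.xor_lt_two_pow hp hq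
  obtain ⟨ha1, ha2⟩ := key a p hp
  obtain ⟨hb1, hb2⟩ := key b q hq
  obtain ⟨hc1, hc2⟩ := key (xor a b) (p ^^^ q) hxy
  rw [← Nat.div_add_mod (((if a then 2^s else 0) + p) ^^^ ((if b then 2^s else 0) + q)) (2^s),
    ← Nat.div_add_mod ((if xor a b then 2^s else 0) + (p ^^^ q)) (2^s)]
  rw [hc1, hc2, Nat.xor_div_two_pow, Nat.xor_mod_two_pow, ha1, ha2, hb1, hb2]
  congr 2
  cases a <;> cases b <;> rfl

theorem aux_idx (n s : ℕ) (hs : s < n) (a : Bool) (p i : ℕ) :
    ((if a then 2^s else 0) + p) * 2^(n-s) + i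
      = (if a then 2^n else 0) + (p * 2^(n-s) + i) := by
  cases a
  · simp
  · simp only [if_true]
    have h : 2^s * 2^(n-s) = 2^n := by
      rw [← pow_add]
      congr 1
      omega
    rw [add_mul, h, add_assoc]

theorem Lam_succ (n s : ℕ) (hs : s < n) (f g h : ℕ → ℕ → ℝ) :
    Lam (n+1) (s+1) f g h = (1/4) * ∑ a : Bool, ∑ b : Bool,
      Lam n s (sub n a b f) (sub n b (xor a b) g) (sub n (xor a b) a h) := by
  unfold Lam
  rw [Nat.add_sub_add_right, aux_sum_half2]
  have h4 : (1/4^(s+1) : ℝ) * (1/8^(n-s)) = (1/4) * ((1/4^s) * (1/8^(n-s))) := by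
    rw [pow_succ]
    field_simp
  rw [h4, mul_assoc, Finset.mul_sum]
  congr 1
  apply Finset.sum_congr rfl
  intro a _
  rw [Finset.mul_sum]
  apply Finset.sum_congr rfl
  intro b _
  congr 1
  apply Finset.sum_congr rfl
  intro p hp
  apply Finset.sum_congr rfl
  intro q hq
  apply Finset.sum_congr rfl
  intro i _
  apply Finset.sum_congr rfl
  intro j _
  apply Finset.sum_congr rfl
  intro k _
  rw [aux_xor s p q a b (Finset.mem_range.mp hp) (Finset.mem_range.mp hq),
    aux_idx n s hs a, aux_idx n s hs b, aux_idx n s hs (xor a b)]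
  rfl

end TH71
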