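import Pool.Agent.Helper71.TH.Defs

set_option autoImplicit false
set_option linter.unusedVariables false

open Matrix

namespace TH71



theorem Mx_entry (n : ℕ) : ∃ e : Idx n ≃ Fin (2^n), ∀ (f : ℕ → ℕ → ℝ) (x y : Idx n),
    Mx n f x y = (1/2^n) * f (e x) (e y) := by
  induction n with
  | zero =>
    refine ⟨Equiv.ofBijective (fun _ : Idx 0 => (0 : Fin (2^0))) ⟨?_, ?_⟩, ?_⟩
    · intro x y _
      exact Subsingleton.elim (α := Unit) x y
    · intro k
      refine ⟨(() : Unit), ?_⟩
      have : k.1 < 1 := k.2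
      apply Fin.ext
      show 0 = k.1
      omega
    · intro f x y
      show f 0 0 = (1 / 2 ^ 0) * f ((0 : Fin (2^0)) : ℕ) ((0 : Fin (2^0)) : ℕ)
      simp
  | succ n ih =>
    obtain ⟨e, he⟩ := ih
    have hlt : ∀ p : Bool × Idx n, (if p.1 then 2^n else 0) + (e p.2 : ℕ) < 2^(n+1) := by
      intro p
      have h1 := (e p.2).2
      rw [pow_succ]
      split_ifs <;> omega
    refine ⟨Equiv.ofBijective
      (fun p : Bool × Idx n => (⟨(if p.1 then 2^n else 0) + (e p.2 : ℕ), hlt p⟩ : Fin (2^(n+1))))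
      ⟨?_, ?_⟩, ?_⟩
    · rintro ⟨b, x⟩ ⟨b', x'⟩ h
      have h1 : (if b then 2^n else 0) + (e x : ℕ) = (if b' then 2^n else 0) + (e x' : ℕ) :=
        congrArg Fin.val h
      have h2 := (e x).2
      have h3 := (e x').2
      have hb : b = b' := by
        cases b <;> cases b' <;> simp at h1 ⊢ <;> omega
      subst hb
      have h4 : (e x : ℕ) = e x' := by omega
      have h5 : x = x' := e.injective (Fin.ext h4)
      rw [h5]
    · intro k
      have hk : k.1 < 2^n * 2 := k.2.trans_eq (pow_succ 2 n)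
      by_cases h : k.1 < 2^n
      · refine ⟨(false, e.symm ⟨k.1, h⟩), ?_⟩
        apply Fin.ext
        show (if (false : Bool) = true then 2^n else 0) + (e (e.symm ⟨k.1, h⟩) : ℕ) = k.1
        rw [Equiv.apply_symm_apply]
        simp
      · have h' : k.1 - 2^n < 2^n := by omega
        refine ⟨(true, e.symm ⟨k.1 - 2^n, h'⟩), ?_⟩
        apply Fin.ext
        show (if (true : Bool) = true then 2^n else 0) + (e (e.symm ⟨k.1 - 2^n, h'⟩) : ℕ) = k.1
        rw [Equiv.apply_symm_apply]
        simp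
        omega
    · intro f x y
      obtain ⟨a, x⟩ := x
      obtain ⟨b, y⟩ := y
      show (1/2) * Mx n (sub n a b f) x y =
        (1 / 2^(n+1)) * f ((if a then 2^n else 0) + (e x : ℕ)) ((if b then 2^n else 0) + (e y : ℕ))
      rw [he]
      unfold sub
      rw [pow_succ]
      ring

end TH71
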