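import Pool.Agent.Helper71.TH.Defs
import Pool.Agent.Helper71.TH.P_Mx_entry

set_option autoImplicit false
set_option linter.unusedVariables false

open Matrix

namespace TH71



theorem Lam_zero_idx (n : ℕ) (e : Idx n ≃ Fin (2^n)) (φ : ℕ → ℝ) :
    ∑ p : Bool × Idx n, φ ((if p.1 then 2^n else 0) + e p.2) =
      ∑ i ∈ Finset.range (2^(n+1)), φ i := by
  rw [Fintype.sum_prod_type, Fintype.sum_bool]
  simp only [if_true, Bool.false_eq_true, if_false, zero_add]
  rw [Equiv.sum_comp e (fun x : Fin (2^n) => φ (2^n + x)),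
    Equiv.sum_comp e (fun x : Fin (2^n) => φ x),
    Fin.sum_univ_eq_sum_range (fun x => φ (2^n + x)), Fin.sum_univ_eq_sum_range (fun x => φ x),
    pow_succ, mul_two, Finset.sum_range_add, add_comm]

theorem Lam_zero_sgn (n : ℕ) (e : Idx n ≃ Fin (2^n)) (p : Bool × Idx n) :
    (if p.1 then (-1 : ℝ) else 1) = sgn (2^(n+1)) ((if p.1 then 2^n else 0) + e p.2) := by
  unfold sgn
  have h1 : 2^(n+1) / 2 = 2^n := by rw [pow_succ]; simp
  rw [h1]
  have h2 := (e p.2).2
  rcases p with ⟨b, x⟩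
  cases b
  · simp only [Bool.false_eq_true, if_false, zero_add]
    rw [if_pos h2]
  · simp

theorem Lam_zero (n : ℕ) (f g h : ℕ → ℕ → ℝ) : Lam (n+1) 0 f g h = Dn n f g h := by
  obtain ⟨e, he⟩ := Mx_entry n
  unfold Dn Lam
  simp only [pow_zero, Nat.sub_zero, Finset.range_one, Finset.sum_singleton, zero_mul, zero_add,
    Nat.xor_self, div_one, one_mul]
  rw [Matrix.trace]
  have hent : ∀ p : Bool × Idx n, Matrix.diag (sg (Idx n) * par (fun a b => Mx n (sub n a b f)) *
      sg (Idx n) * par (fun a b => Mx n (sub n a b g)) * sg (Idx n) *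
      par (fun a b => Mx n (sub n a b h))) p = ∑ r : Bool × Idx n, ∑ q : Bool × Idx n,
        (1/8^(n+1)) * (sgn (2^(n+1)) ((if p.1 then 2^n else 0) + e p.2) *
          sgn (2^(n+1)) ((if q.1 then 2^n else 0) + e q.2) *
          sgn (2^(n+1)) ((if r.1 then 2^n else 0) + e r.2) *
          f ((if p.1 then 2^n else 0) + e p.2) ((if q.1 then 2^n else 0) + e q.2) *
          g ((if q.1 then 2^n else 0) + e q.2) ((if r.1 then 2^n else 0) + e r.2) *
          h ((if r.1 then 2^n else 0) + e r.2) ((if p.1 then 2^n else 0) + e p.2)) := by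
    intro p
    rw [Matrix.diag_apply, Matrix.mul_apply]
    refine Finset.sum_congr rfl fun r _ => ?_
    unfold sg
    rw [Matrix.mul_diagonal, Matrix.mul_apply, Finset.sum_mul, Finset.sum_mul]
    refine Finset.sum_congr rfl fun q _ => ?_
    rw [Matrix.mul_diagonal, Matrix.diagonal_mul]
    simp only [par, he, sub]
    rw [Lam_zero_sgn n e p, Lam_zero_sgn n e q, Lam_zero_sgn n e r]
    have h8 : (1 / 8^(n+1) : ℝ) = (1/2 * (1/2^n))^3 := by
      have e1 : (1/2 * (1/2^n) : ℝ) = 1/2^(n+1) := by rw [pow_succ]; field_simp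
      have e2 : (8:ℝ)^(n+1) = (2^(n+1))^3 := by rw [← pow_mul, mul_comm, pow_mul]; norm_num
      rw [e1, e2, div_pow, one_pow]
    rw [h8]
    ring
  rw [Finset.sum_congr rfl fun p _ => hent p]
  have h1 : ∀ p r : Bool × Idx n, ∑ q : Bool × Idx n,
        (1/8^(n+1)) * (sgn (2^(n+1)) ((if p.1 then 2^n else 0) + e p.2) *
          sgn (2^(n+1)) ((if q.1 then 2^n else 0) + e q.2) *
          sgn (2^(n+1)) ((if r.1 then 2^n else 0) + e r.2) *
          f ((if p.1 then 2^n else 0) + e p.2) ((if q.1 then 2^n else 0) + e q.2) *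
          g ((if q.1 then 2^n else 0) + e q.2) ((if r.1 then 2^n else 0) + e r.2) *
          h ((if r.1 then 2^n else 0) + e r.2) ((if p.1 then 2^n else 0) + e p.2)) =
      ∑ j ∈ Finset.range (2^(n+1)), (1/8^(n+1)) *
        (sgn (2^(n+1)) ((if p.1 then 2^n else 0) + e p.2) * sgn (2^(n+1)) j *
          sgn (2^(n+1)) ((if r.1 then 2^n else 0) + e r.2) *
          f ((if p.1 then 2^n else 0) + e p.2) j *
          g j ((if r.1 then 2^n else 0) + e r.2) *
          h ((if r.1 then 2^n else 0) + e r.2) ((if p.1 then 2^n else 0) + e p.2)) := by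
    intro p r
    exact Lam_zero_idx n e (fun j => (1/8^(n+1)) *
        (sgn (2^(n+1)) ((if p.1 then 2^n else 0) + e p.2) * sgn (2^(n+1)) j *
          sgn (2^(n+1)) ((if r.1 then 2^n else 0) + e r.2) *
          f ((if p.1 then 2^n else 0) + e p.2) j *
          g j ((if r.1 then 2^n else 0) + e r.2) *
          h ((if r.1 then 2^n else 0) + e r.2) ((if p.1 then 2^n else 0) + e p.2)))
  have h2 : ∀ p : Bool × Idx n, ∑ r : Bool × Idx n, ∑ j ∈ Finset.range (2^(n+1)), (1/8^(n+1)) *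
        (sgn (2^(n+1)) ((if p.1 then 2^n else 0) + e p.2) * sgn (2^(n+1)) j *
          sgn (2^(n+1)) ((if r.1 then 2^n else 0) + e r.2) *
          f ((if p.1 then 2^n else 0) + e p.2) j *
          g j ((if r.1 then 2^n else 0) + e r.2) *
          h ((if r.1 then 2^n else 0) + e r.2) ((if p.1 then 2^n else 0) + e p.2)) =
      ∑ k ∈ Finset.range (2^(n+1)), ∑ j ∈ Finset.range (2^(n+1)), (1/8^(n+1)) *
        (sgn (2^(n+1)) ((if p.1 then 2^n else 0) + e p.2) * sgn (2^(n+1)) j *
          sgn (2^(n+1)) k *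
          f ((if p.1 then 2^n else 0) + e p.2) j * g j k *
          h k ((if p.1 then 2^n else 0) + e p.2)) := by
    intro p
    exact Lam_zero_idx n e (fun k => ∑ j ∈ Finset.range (2^(n+1)), (1/8^(n+1)) *
        (sgn (2^(n+1)) ((if p.1 then 2^n else 0) + e p.2) * sgn (2^(n+1)) j *
          sgn (2^(n+1)) k *
          f ((if p.1 then 2^n else 0) + e p.2) j * g j k *
          h k ((if p.1 then 2^n else 0) + e p.2)))
  have h3 : ∑ p : Bool × Idx n, ∑ k ∈ Finset.range (2^(n+1)), ∑ j ∈ Finset.range (2^(n+1)),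
      (1/8^(n+1)) *
        (sgn (2^(n+1)) ((if p.1 then 2^n else 0) + e p.2) * sgn (2^(n+1)) j *
          sgn (2^(n+1)) k *
          f ((if p.1 then 2^n else 0) + e p.2) j * g j k *
          h k ((if p.1 then 2^n else 0) + e p.2)) =
      ∑ i ∈ Finset.range (2^(n+1)), ∑ k ∈ Finset.range (2^(n+1)), ∑ j ∈ Finset.range (2^(n+1)),
        (1/8^(n+1)) * (sgn (2^(n+1)) i * sgn (2^(n+1)) j * sgn (2^(n+1)) k *
          f i j * g j k * h k i) :=
    Lam_zero_idx n e (fun i => ∑ k ∈ Finset.range (2^(n+1)), ∑ j ∈ Finset.range (2^(n+1)),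
        (1/8^(n+1)) * (sgn (2^(n+1)) i * sgn (2^(n+1)) j * sgn (2^(n+1)) k *
          f i j * g j k * h k i))
  rw [Finset.sum_congr rfl fun p _ => Finset.sum_congr rfl fun r _ => h1 p r,
    Finset.sum_congr rfl fun p _ => h2 p, h3, Finset.mul_sum]
  refine Finset.sum_congr rfl fun i _ => ?_
  rw [Finset.sum_comm, Finset.mul_sum]
  refine Finset.sum_congr rfl fun j _ => ?_
  rw [Finset.mul_sum]

end TH71
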