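import Pool.Agent.Helper71.TH.Defs
import Pool.Agent.Helper71.TH.P_Lam_zero
import Pool.Agent.Helper71.TH.P_Lam_succ

set_option autoImplicit false
set_option linter.unusedVariables false

open Matrix

namespace TH71



theorem flat (n : ℕ) (f g h : ℕ → ℕ → ℝ) :
    ∑ s ∈ Finset.range n, |Lam n s f g h| ≤ Ssum n f g h := by
  induction n generalizing f g h with
  | zero => simp [Ssum]
  | succ n ih =>
    rw [Finset.sum_range_succ']
    have hU : Ssum (n+1) f g h = |Dn n f g h| + (1/4) * ∑ a : Bool, ∑ b : Bool,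
      Ssum n (sub n a b f) (sub n b (xor a b) g) (sub n (xor a b) a h) := rfl
    rw [hU, Lam_zero, add_comm]
    apply add_le_add le_rfl
    have h1 : ∀ s ∈ Finset.range n, |Lam (n+1) (s+1) f g h| ≤ (1/4) * ∑ a : Bool, ∑ b : Bool,
        |Lam n s (sub n a b f) (sub n b (xor a b) g) (sub n (xor a b) a h)| := by
      intro s hs
      rw [Lam_succ n s (Finset.mem_range.1 hs), abs_mul, abs_of_pos (by norm_num : (0:ℝ) < 1/4)]
      apply mul_le_mul_of_nonneg_left _ (by norm_num)
      refine (Finset.abs_sum_le_sum_abs _ _).trans ?_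
      exact Finset.sum_le_sum (fun a _ => Finset.abs_sum_le_sum_abs _ _)
    refine (Finset.sum_le_sum h1).trans ?_
    rw [← Finset.mul_sum]
    apply mul_le_mul_of_nonneg_left _ (by norm_num)
    rw [Finset.sum_comm]
    refine Finset.sum_le_sum (fun a _ => ?_)
    rw [Finset.sum_comm]
    exact Finset.sum_le_sum (fun b _ => ih _ _ _)

end TH71
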