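import Pool.Agent.Helper71.TH.Defs

set_option autoImplicit false
set_option linter.unusedVariables false

open Matrix

namespace TH71



theorem a3_succ (n : ℕ) (f : ℕ → ℕ → ℝ) :
    a3 (n+1) f = (1/4) * ∑ a : Bool, ∑ b : Bool, a3 n (sub n a b f) := by
  have h2 : 2 ^ (n + 1) = 2 ^ n + 2 ^ n := by ring
  have hsp : ∀ g : ℕ → ℝ, ∑ i ∈ Finset.range (2 ^ (n + 1)), g i =
      ∑ i ∈ Finset.range (2 ^ n), g i + ∑ i ∈ Finset.range (2 ^ n), g (2 ^ n + i) := by
    intro g
    rw [h2, Finset.sum_range_add]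
  unfold a3
  rw [hsp]
  simp only [hsp, Fintype.sum_bool, sub]
  simp only [if_true, Bool.false_eq_true, if_false, zero_add, Finset.sum_add_distrib]
  have h4 : (4 : ℝ) ^ (n + 1) = 4 * 4 ^ n := by ring
  rw [h4]
  field_simp
  ring

end TH71
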