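import Pool.Agent.Helper71.TH.Defs

set_option autoImplicit false
set_option linter.unusedVariables false

open Matrix

namespace TH71



theorem scal_tele (g : ℤ → ℝ) (a : ℤ) (n : ℕ) :
    ∑ k ∈ Finset.Ico a (a + (n:ℤ)), (g (k+1) - g k) = g (a + n) - g a := by
  induction n with
  | zero => simp
  | succ n ih =>
    have h : Finset.Ico a (a + ((n+1 : ℕ):ℤ)) = insert (a + (n:ℤ)) (Finset.Ico a (a + (n:ℤ))) := by
      ext x
      simp only [Finset.mem_Ico, Finset.mem_insert]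
      push_cast
      omega
    rw [h, Finset.sum_insert (by simp), ih]
    push_cast
    rw [← add_assoc]
    ring

theorem scal_pt (t l : ℝ) (hl : 0 < l) :
    l^3 * (((t / l)^2 / (1 + (t / l)^2))^2 + ((t / l)^2 - Real.log (1 + (t / l)^2))) ≤
      12 * |t|^3 * ((2*l) / (2*l + |t|)) - 12 * |t|^3 * (l / (l + |t|)) := by
  set x : ℝ := |t| / l with hx
  have hx0 : 0 ≤ x := by positivity
  have hxt : (t / l)^2 = x^2 := by
    rw [hx, div_pow, div_pow, sq_abs]
  have ht : |t| = x * l := by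
    rw [hx]; field_simp
  rw [hxt, ht]
  have hlog := Real.le_log_one_add_of_nonneg (x := x^2) (by positivity)
  have h1 : (2 * l) / (2 * l + x * l) = 2 / (2 + x) := by
    rw [div_eq_div_iff (by positivity) (by positivity)]; ring
  have h2 : l / (l + x * l) = 1 / (1 + x) := by
    rw [div_eq_div_iff (by positivity) (by positivity)]; ring
  rw [h1, h2]
  have h3 : 12 * (x * l) ^ 3 * (2 / (2 + x)) - 12 * (x * l) ^ 3 * (1 / (1 + x)) =
      l^3 * (12 * x^4 / ((2 + x) * (1 + x))) := by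
    have a1 : (2 + x) ≠ 0 := by positivity
    have a2 : (1 + x) ≠ 0 := by positivity
    field_simp
    ring
  rw [h3]
  apply mul_le_mul_of_nonneg_left _ (by positivity)
  have h4 : (x^2 / (1 + x^2))^2 + (x^2 - 2 * x^2 / (x^2 + 2)) ≤ 12 * x^4 / ((2 + x) * (1 + x)) := by
    have e1 : (x^2 / (1 + x^2))^2 = x^4 * (1 / (1 + x^2)^2) := by
      field_simp
    have e2 : x^2 - 2 * x^2 / (x^2 + 2) = x^4 * (1 / (x^2 + 2)) := by
      have : x^2 + 2 ≠ 0 := by positivity
      field_simp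
      ring
    have e3 : 12 * x^4 / ((2 + x) * (1 + x)) = x^4 * (12 / ((2 + x) * (1 + x))) := by
      have a1 : (2 + x) ≠ 0 := by positivity
      have a2 : (1 + x) ≠ 0 := by positivity
      field_simp
    rw [e1, e2, e3, ← mul_add]
    apply mul_le_mul_of_nonneg_left _ (by positivity)
    have b1 : 1 / (1 + x^2)^2 ≤ 1 / (1 + x^2) := by
      apply one_div_le_one_div_of_le (by positivity)
      nlinarith [sq_nonneg x, sq_nonneg (x^2)]
    have b2 : 1 / (x^2 + 2) ≤ 1 / (1 + x^2) := by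
      apply one_div_le_one_div_of_le (by positivity)
      linarith
    have b3 : 2 * (1 / (1 + x^2)) ≤ 12 / ((2 + x) * (1 + x)) := by
      rw [mul_one_div, div_le_div_iff₀ (by positivity) (by positivity)]
      nlinarith [sq_nonneg (x - 1)]
    linarith
  linarith

theorem scal (t : ℝ) (K : ℕ) :
    ∑ k ∈ Finset.Ico (-(K:ℤ)) (K:ℤ), (lam k)^3 *
      (((t / lam k)^2 / (1 + (t / lam k)^2))^2 +
        ((t / lam k)^2 - Real.log (1 + (t / lam k)^2))) ≤ 20 * |t|^3 := by
  have hlam : ∀ k, 0 < lam k := fun k => by unfold lam; positivity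
  have hlam1 : ∀ k, lam (k+1) = 2 * lam k := fun k => by
    unfold lam; rw [zpow_add_one₀ (by norm_num)]; ring
  have hstep : ∀ k ∈ Finset.Ico (-(K:ℤ)) (K:ℤ), (lam k)^3 *
      (((t / lam k)^2 / (1 + (t / lam k)^2))^2 +
        ((t / lam k)^2 - Real.log (1 + (t / lam k)^2))) ≤
      (fun k : ℤ => 12 * |t|^3 * (lam k / (lam k + |t|))) (k+1) -
        (fun k : ℤ => 12 * |t|^3 * (lam k / (lam k + |t|))) k := by
    intro k _
    have := scal_pt t (lam k) (hlam k)
    simp only [hlam1]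
    exact this
  refine (Finset.sum_le_sum hstep).trans ?_
  have htel := scal_tele (fun k : ℤ => 12 * |t|^3 * (lam k / (lam k + |t|))) (-(K:ℤ)) (2*K)
  have hK : -(K:ℤ) + ((2 * K : ℕ):ℤ) = (K:ℤ) := by push_cast; ring
  rw [hK] at htel
  rw [htel]
  have p3 : 0 ≤ |t|^3 := by positivity
  have g1 : lam (K:ℤ) / (lam (K:ℤ) + |t|) ≤ 1 := by
    rw [div_le_one (by have := hlam (K:ℤ); positivity)]
    linarith [abs_nonneg t]
  have g2 : 0 ≤ lam (-(K:ℤ)) / (lam (-(K:ℤ)) + |t|) := by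
    have := hlam (-(K:ℤ)); positivity
  have g3 : |t|^3 * (lam (K:ℤ) / (lam (K:ℤ) + |t|)) ≤ |t|^3 * 1 := mul_le_mul_of_nonneg_left g1 p3
  have g4 : 0 ≤ |t|^3 * (lam (-(K:ℤ)) / (lam (-(K:ℤ)) + |t|)) := mul_nonneg p3 g2
  nlinarith

end TH71
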