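import Pool.Agent.Helper71.TH.Defs
import Pool.Agent.Helper71.TH.P_scal

set_option autoImplicit false
set_option linter.unusedVariables false

open Matrix

namespace TH71



section One
variable {κ : Type*} [Fintype κ] [DecidableEq κ] [Unique κ]

theorem AtA_one (A : Matrix κ κ ℝ) (u : ℝ) (hA : ∀ i j, A i j = u) (i j : κ) :
    (Aᵀ * A) i j = u ^ 2 := by
  rw [Matrix.mul_apply, Fintype.sum_unique, Matrix.transpose_apply, hA, hA, sq]

theorem one_add_one (A : Matrix κ κ ℝ) (u : ℝ) (hA : ∀ i j, A i j = u) (i j : κ) :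
    (1 + Aᵀ * A) i j = 1 + u ^ 2 := by
  rw [Matrix.add_apply, AtA_one A u hA, Subsingleton.elim i j, Matrix.one_apply_eq]

theorem P_one (A : Matrix κ κ ℝ) (u : ℝ) (hA : ∀ i j, A i j = u) (i j : κ) :
    P A i j = u ^ 2 / (1 + u ^ 2) := by
  have hpos : (1 + u ^ 2 : ℝ) ≠ 0 := by positivity
  have hinv : (1 + Aᵀ * A)⁻¹ = Matrix.of (fun _ _ => (1 + u ^ 2)⁻¹) := by
    apply Matrix.inv_eq_right_inv
    ext a b
    rw [Matrix.mul_apply, Fintype.sum_unique, one_add_one A u hA, Subsingleton.elim a b,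
      Matrix.one_apply_eq, Matrix.of_apply]
    exact mul_inv_cancel₀ hpos
  unfold P
  rw [hinv, Matrix.sub_apply, Subsingleton.elim i j, Matrix.one_apply_eq, Matrix.of_apply]
  field_simp
  ring

theorem Psi_one (A : Matrix κ κ ℝ) (u : ℝ) (hA : ∀ i j, A i j = u) :
    Psi A = u ^ 2 - Real.log (1 + u ^ 2) := by
  unfold Psi ld
  rw [Matrix.det_unique, one_add_one A u hA, Matrix.trace, Fintype.sum_unique]
  rw [Matrix.diag_apply, AtA_one A u hA]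

theorem phi_one (A B C : Matrix κ κ ℝ) (u v w : ℝ) (hA : ∀ i j, A i j = u) (hB : ∀ i j, B i j = v)
    (hC : ∀ i j, C i j = w) :
    phi A B C = (u ^ 2 / (1 + u ^ 2)) * (v ^ 2 / (1 + v ^ 2)) + (v ^ 2 / (1 + v ^ 2)) * (w ^ 2 / (1 + w ^ 2)) +
      (w ^ 2 / (1 + w ^ 2)) * (u ^ 2 / (1 + u ^ 2)) +
      200 * ((u ^ 2 - Real.log (1 + u ^ 2)) + (v ^ 2 - Real.log (1 + v ^ 2)) + (w ^ 2 - Real.log (1 + w ^ 2))) := by
  have hAt : ∀ i j, Aᵀ i j = u := fun i j => hA j i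
  have hBt : ∀ i j, Bᵀ i j = v := fun i j => hB j i
  have hCt : ∀ i j, Cᵀ i j = w := fun i j => hC j i
  unfold phi
  rw [Psi_one A u hA, Psi_one B v hB, Psi_one C w hC]
  simp only [Matrix.trace, Fintype.sum_unique, Matrix.diag_apply, Matrix.mul_apply]
  rw [P_one A u hA, P_one B v hB, P_one C w hC, P_one _ v hBt, P_one _ w hCt, P_one _ u hAt]

end One

theorem psi_nonneg (x : ℝ) : 0 ≤ x ^ 2 - Real.log (1 + x ^ 2) := by
  have h := Real.log_le_sub_one_of_pos (show 0 < 1 + x ^ 2 by positivity)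
  linarith

theorem phi_le (u v w : ℝ) :
    (u ^ 2 / (1 + u ^ 2)) * (v ^ 2 / (1 + v ^ 2)) + (v ^ 2 / (1 + v ^ 2)) * (w ^ 2 / (1 + w ^ 2)) +
      (w ^ 2 / (1 + w ^ 2)) * (u ^ 2 / (1 + u ^ 2)) +
      200 * ((u ^ 2 - Real.log (1 + u ^ 2)) + (v ^ 2 - Real.log (1 + v ^ 2)) + (w ^ 2 - Real.log (1 + w ^ 2))) ≤
    200 * (((u ^ 2 / (1 + u ^ 2)) ^ 2 + (u ^ 2 - Real.log (1 + u ^ 2))) +
      ((v ^ 2 / (1 + v ^ 2)) ^ 2 + (v ^ 2 - Real.log (1 + v ^ 2))) +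
      ((w ^ 2 / (1 + w ^ 2)) ^ 2 + (w ^ 2 - Real.log (1 + w ^ 2)))) := by
  generalize u ^ 2 / (1 + u ^ 2) = p
  generalize v ^ 2 / (1 + v ^ 2) = q
  generalize w ^ 2 / (1 + w ^ 2) = r
  nlinarith [sq_nonneg (p - q), sq_nonneg (q - r), sq_nonneg (r - p), sq_nonneg p, sq_nonneg q, sq_nonneg r]

theorem leaf0 (K : ℕ) (f g h : ℕ → ℕ → ℝ) :
    PhiK K (Mx 0 f) (Mx 0 g) (Mx 0 h) ≤ 10000 * (|f 0 0|^3 + |g 0 0|^3 + |h 0 0|^3) := by
  letI : Unique (Idx 0) := inferInstanceAs (Unique Unit)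
  have hlam : ∀ k : ℤ, 0 < lam k := fun k => by unfold lam; positivity
  have hent : ∀ (f : ℕ → ℕ → ℝ) (k : ℤ) (i j : Idx 0), ((lam k)⁻¹ • Mx 0 f) i j = f 0 0 / lam k := by
    intro f k i j
    rw [Matrix.smul_apply, smul_eq_mul, div_eq_inv_mul]
    rfl
  have step : ∀ k : ℤ, (lam k) ^ 3 *
      phi ((lam k)⁻¹ • Mx 0 f) ((lam k)⁻¹ • Mx 0 g) ((lam k)⁻¹ • Mx 0 h) ≤
      200 * ((lam k)^3 * (((f 0 0 / lam k)^2 / (1 + (f 0 0 / lam k)^2))^2 +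
        ((f 0 0 / lam k)^2 - Real.log (1 + (f 0 0 / lam k)^2)))) +
      200 * ((lam k)^3 * (((g 0 0 / lam k)^2 / (1 + (g 0 0 / lam k)^2))^2 +
        ((g 0 0 / lam k)^2 - Real.log (1 + (g 0 0 / lam k)^2)))) +
      200 * ((lam k)^3 * (((h 0 0 / lam k)^2 / (1 + (h 0 0 / lam k)^2))^2 +
        ((h 0 0 / lam k)^2 - Real.log (1 + (h 0 0 / lam k)^2)))) := by
    intro k
    rw [phi_one _ _ _ _ _ _ (hent f k) (hent g k) (hent h k)]
    have h1 := mul_le_mul_of_nonneg_left (phi_le (f 0 0 / lam k) (g 0 0 / lam k) (h 0 0 / lam k))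
      (pow_nonneg (hlam k).le 3)
    refine h1.trans (le_of_eq ?_)
    ring
  unfold PhiK
  refine (Finset.sum_le_sum (fun k _ => step k)).trans ?_
  rw [Finset.sum_add_distrib, Finset.sum_add_distrib, ← Finset.mul_sum, ← Finset.mul_sum, ← Finset.mul_sum]
  have s1 := scal (f 0 0) K
  have s2 := scal (g 0 0) K
  have s3 := scal (h 0 0) K
  have p1 : 0 ≤ |f 0 0| ^ 3 := by positivity
  have p2 : 0 ≤ |g 0 0| ^ 3 := by positivity
  have p3 : 0 ≤ |h 0 0| ^ 3 := by positivity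
  linarith

end TH71
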