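import Pool.Agent.Helper71.TH.Defs
import Pool.Agent.Helper71.TH.P_leaf0
import Pool.Agent.Helper71.TH.P_a3_succ

set_option autoImplicit false
set_option linter.unusedVariables false

open Matrix

namespace TH71



theorem leaf_bound (K n : ℕ) (f g h : ℕ → ℕ → ℝ) :
    Leaf K n f g h ≤ 10000 * (a3 n f + a3 n g + a3 n h) := by
  induction n generalizing f g h with
  | zero =>
    have h0 := leaf0 K f g h
    simp only [a3, Leaf]
    simpa using h0
  | succ n ih =>
    have i1 := ih (sub n true true f) (sub n true (xor true true) g) (sub n (xor true true) true h)
    have i2 := ih (sub n true false f) (sub n false (xor true false) g)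
      (sub n (xor true false) true h)
    have i3 := ih (sub n false true f) (sub n true (xor false true) g)
      (sub n (xor false true) false h)
    have i4 := ih (sub n false false f) (sub n false (xor false false) g)
      (sub n (xor false false) false h)
    simp only [Leaf, a3_succ, Fintype.sum_bool]
    simp only [Bool.xor_true, Bool.xor_false, Bool.true_xor, Bool.false_xor, Bool.not_true,
      Bool.not_false] at i1 i2 i3 i4 ⊢
    linarith

end TH71
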