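import Pool.Agent.Helper71.TH.Defs

set_option autoImplicit false
set_option linter.unusedVariables false

open Matrix

namespace TH71



theorem P_bounds {m n : Type*} [Fintype m] [Fintype n] [DecidableEq n]
    (A : Matrix m n ℝ) : (P A).PosSemidef ∧ (1 - P A).PosSemidef := by
  classical
  set G : Matrix n n ℝ := Aᵀ * A with hG
  have hGp : G.PosSemidef := by
    have h := Matrix.posSemidef_conjTranspose_mul_self A
    rwa [Matrix.conjTranspose_eq_transpose_of_trivial] at h
  have hH : (1 + G).PosDef := Matrix.PosDef.one.add_posSemidef hGp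
  have hI : ((1 + G)⁻¹).PosDef := hH.inv
  have hdet : IsUnit (1 + G).det := (Matrix.isUnit_iff_isUnit_det _).1 hH.isUnit
  have hGG : (G + G * G).PosSemidef := by
    refine hGp.add ?_
    have h := Matrix.posSemidef_conjTranspose_mul_self G
    rwa [hGp.1.eq] at h
  have e1 : (1 + G)⁻¹ * (1 + G) = 1 := Matrix.nonsing_inv_mul _ hdet
  have e2 : (1 + G) * (1 + G)⁻¹ = 1 := Matrix.mul_nonsing_inv _ hdet
  have key : P A = (1 + G)⁻¹ * (G + G * G) * ((1 + G)⁻¹)ᴴ := by
    rw [hI.1.eq]
    have h1 : G + G * G = G * (1 + G) := by rw [mul_add, mul_one]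
    rw [h1, mul_assoc, mul_assoc, e2, mul_one]
    have h2 : (1 + G)⁻¹ * G = (1 + G)⁻¹ * ((1 + G) - 1) := by
      congr 1; abel
    rw [h2, mul_sub, e1, mul_one]
    rfl
  refine ⟨?_, ?_⟩
  · rw [key]
    exact hGG.mul_mul_conjTranspose_same _
  · have h3 : 1 - P A = (1 + G)⁻¹ := by
      show 1 - (1 - (1 + G)⁻¹) = (1 + G)⁻¹
      abel
    rw [h3]
    exact hI.posSemidef

end TH71
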