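import Pool.Agent.Helper71.TH.Defs
import Pool.Agent.Helper71.TH.P_ld_le

set_option autoImplicit false
set_option linter.unusedVariables false

open Matrix

namespace TH71



theorem Psi_nonneg {m n : Type*} [Fintype m] [Fintype n] [DecidableEq n]
    (A : Matrix m n ℝ) : 0 ≤ Psi A := by
  have h1 : (Aᵀ * A).PosSemidef := by
    have h := Matrix.posSemidef_conjTranspose_mul_self A
    rwa [Matrix.conjTranspose_eq_transpose_of_trivial] at h
  have h2 : (1 + Aᵀ * A).PosDef := Matrix.PosDef.one.add_posSemidef h1
  have h3 := ld_le (1 + Aᵀ * A) h2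
  rw [Matrix.trace_add, Matrix.trace_one] at h3
  unfold Psi ld
  linarith

end TH71
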