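import Pool.Agent.Helper71.TH.Defs
import Pool.Agent.Helper71.TH.P_trace_mul_nonneg
import Pool.Agent.Helper71.TH.P_P_bounds
import Pool.Agent.Helper71.TH.P_Psi_nonneg

set_option autoImplicit false
set_option linter.unusedVariables false

open Matrix

namespace TH71



theorem phi_nonneg {κ : Type*} [Fintype κ] [DecidableEq κ] (A B C : Matrix κ κ ℝ) :
    0 ≤ phi A B C := by
  unfold phi
  have h1 := trace_mul_nonneg _ _ (P_bounds A).1 (P_bounds Bᵀ).1
  have h2 := trace_mul_nonneg _ _ (P_bounds B).1 (P_bounds Cᵀ).1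
  have h3 := trace_mul_nonneg _ _ (P_bounds C).1 (P_bounds Aᵀ).1
  have h4 := Psi_nonneg A
  have h5 := Psi_nonneg B
  have h6 := Psi_nonneg C
  linarith

end TH71
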