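import Pool.Agent.Helper71.TH.Defs

set_option autoImplicit false
set_option linter.unusedVariables false

open Matrix

namespace TH71



theorem aux_inv {κ : Type*} [Fintype κ] [DecidableEq κ] (X : Matrix κ κ ℝ) (hX : X.PosSemidef) :
    (1 + X) * (1 + X)⁻¹ = 1 ∧ (1 + X)⁻¹ * (1 + X) = 1 ∧ ((1 + X)⁻¹)ᵀ = (1 + X)⁻¹ := by
  have hpd : (1 + X).PosDef := Matrix.PosDef.one.add_posSemidef hX
  have hdet : IsUnit (1 + X).det := hpd.det_pos.ne'.isUnit
  refine ⟨Matrix.mul_nonsing_inv _ hdet, Matrix.nonsing_inv_mul _ hdet, ?_⟩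
  rw [Matrix.transpose_nonsing_inv]
  have : (1 + X)ᵀ = 1 + X := by
    have := hpd.isHermitian
    rw [Matrix.IsHermitian, Matrix.conjTranspose_eq_transpose_of_trivial] at this
    exact this
  rw [this]

theorem aux_fact1 {κ : Type*} [Fintype κ] [DecidableEq κ] (X : Matrix κ κ ℝ)
    (hX : X.PosSemidef) :
    (1 - (1 + X)⁻¹ - (1 + X)⁻¹ * X * (1 + X)⁻¹).PosSemidef := by
  obtain ⟨h1, h2, h3⟩ := aux_inv X hX
  set R := (1 + X)⁻¹ with hR
  have hXt : Xᵀ = X := by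
    have := hX.isHermitian
    rw [Matrix.IsHermitian, Matrix.conjTranspose_eq_transpose_of_trivial] at this
    exact this
  have e1 : X * R = 1 - R := by
    have : R + X * R = 1 := by rw [← h1]; noncomm_ring
    rw [← this]; noncomm_ring
  have e2 : R * X = 1 - R := by
    have : R + R * X = 1 := by rw [← h2]; noncomm_ring
    rw [← this]; noncomm_ring
  have key : 1 - R - R * X * R = (X * R)ᵀ * (X * R) := by
    rw [Matrix.transpose_mul, h3, hXt, e1, e2]
    noncomm_ring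
  rw [key]
  have := Matrix.posSemidef_conjTranspose_mul_self (X * R)
  rwa [Matrix.conjTranspose_eq_transpose_of_trivial] at this

theorem aux_fact2 {κ : Type*} [Fintype κ] [DecidableEq κ] (X : Matrix κ κ ℝ)
    (hX : X.PosSemidef) :
    ((4:ℝ) • (1 - (1 + X)⁻¹) -
      (1 + (1/4 : ℝ) • X)⁻¹ * X * (1 + (1/4 : ℝ) • X)⁻¹).PosSemidef := by
  have hZ : ((1/4 : ℝ) • X).PosSemidef := hX.smul (by norm_num)
  obtain ⟨h1, h2, h3⟩ := aux_inv X hX
  obtain ⟨g1, g2, g3⟩ := aux_inv _ hZ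
  have hXZ : X = 4 * ((1/4 : ℝ) • X) := by
    have : (4 : Matrix κ κ ℝ) = (4 : ℝ) • 1 := by
      ext i j
      simp [Matrix.smul_apply, Matrix.ofNat_apply, Matrix.one_apply]
    rw [this, smul_mul_smul_comm, one_mul]
    norm_num
  have h44 : ∀ V : Matrix κ κ ℝ, (4 : ℝ) • V = 4 * V := by
    intro V
    have : (4 : Matrix κ κ ℝ) = (4 : ℝ) • 1 := by
      ext i j
      simp [Matrix.smul_apply, Matrix.ofNat_apply, Matrix.one_apply]
    rw [this, smul_mul_assoc, one_mul]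
  rw [h44]
  set Z := (1/4 : ℝ) • X with hZd
  have hZt : Zᵀ = Z := by
    have := hZ.isHermitian
    rw [Matrix.IsHermitian, Matrix.conjTranspose_eq_transpose_of_trivial] at this
    exact this
  set R := (1 + X)⁻¹ with hR
  set T := (1 + Z)⁻¹ with hT
  -- commutation of `1 + Z` and `R`
  have hc : R * (1 + Z) = (1 + Z) * R := by
    have hYW : (1 + X) * (1 + Z) = (1 + Z) * (1 + X) := by
      rw [hXZ]; noncomm_ring
    calc R * (1 + Z) = R * ((1 + Z) * (1 + X)) * R := by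
          rw [mul_assoc, mul_assoc, h1, mul_one]
      _ = R * ((1 + X) * (1 + Z)) * R := by rw [hYW]
      _ = (1 + Z) * R := by rw [← mul_assoc, h2, one_mul]
  -- the middle polynomial
  have hM : (1 + X) * (1 + Z) * (4 * (1 - R) - T * X * T) * ((1 + Z) * (1 + X))
      = (12 : ℝ) • Z + (64 : ℝ) • (Zᵀ * Z) + (80 : ℝ) • (Zᵀ * Z * Z) +
        (64 : ℝ) • ((Z * Z)ᵀ * (Z * Z)) := by
    have s1 : (1 + X) * (1 + Z) * (4 * (1 - R) - T * X * T) * ((1 + Z) * (1 + X))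
        = 4 * ((1 + X) * (1 + Z) * ((1 + Z) * (1 + X)))
          - 4 * ((1 + X) * ((1 + Z) * R) * ((1 + Z) * (1 + X)))
          - (1 + X) * ((1 + Z) * T) * X * (T * (1 + Z)) * (1 + X) := by
      noncomm_ring
    have s2 : (1 + X) * (R * (1 + Z)) * ((1 + Z) * (1 + X))
        = ((1 + X) * R) * ((1 + Z) * ((1 + Z) * (1 + X))) := by
      noncomm_ring
    rw [s1, ← hc, s2, h1, g1, g2]
    rw [Matrix.transpose_mul, hZt]
    have c12 : ∀ V : Matrix κ κ ℝ, (12 : ℝ) • V = 12 * V := by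
      intro V
      have : (12 : Matrix κ κ ℝ) = (12 : ℝ) • 1 := by
        ext i j
        simp [Matrix.smul_apply, Matrix.ofNat_apply, Matrix.one_apply]
      rw [this, smul_mul_assoc, one_mul]
    have c64 : ∀ V : Matrix κ κ ℝ, (64 : ℝ) • V = 64 * V := by
      intro V
      have : (64 : Matrix κ κ ℝ) = (64 : ℝ) • 1 := by
        ext i j
        simp [Matrix.smul_apply, Matrix.ofNat_apply, Matrix.one_apply]
      rw [this, smul_mul_assoc, one_mul]
    have c80 : ∀ V : Matrix κ κ ℝ, (80 : ℝ) • V = 80 * V := by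
      intro V
      have : (80 : Matrix κ κ ℝ) = (80 : ℝ) • 1 := by
        ext i j
        simp [Matrix.smul_apply, Matrix.ofNat_apply, Matrix.one_apply]
      rw [this, smul_mul_assoc, one_mul]
    rw [c12, c64, c64, c80, hXZ]
    noncomm_ring
  have hMp : ((12 : ℝ) • Z + (64 : ℝ) • (Zᵀ * Z) + (80 : ℝ) • (Zᵀ * Z * Z) +
        (64 : ℝ) • ((Z * Z)ᵀ * (Z * Z))).PosSemidef := by
    have p2 : (Zᵀ * Z).PosSemidef := by
      have := Matrix.posSemidef_conjTranspose_mul_self Z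
      rwa [Matrix.conjTranspose_eq_transpose_of_trivial] at this
    have p3 : (Zᵀ * Z * Z).PosSemidef := by
      have := hZ.conjTranspose_mul_mul_same Z
      rwa [Matrix.conjTranspose_eq_transpose_of_trivial] at this
    have p4 : ((Z * Z)ᵀ * (Z * Z)).PosSemidef := by
      have := Matrix.posSemidef_conjTranspose_mul_self (Z * Z)
      rwa [Matrix.conjTranspose_eq_transpose_of_trivial] at this
    exact (((hZ.smul (by norm_num)).add (p2.smul (by norm_num))).add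
      (p3.smul (by norm_num))).add (p4.smul (by norm_num))
  rw [← hM] at hMp
  have hfin := hMp.conjTranspose_mul_mul_same (R * T)
  rw [Matrix.conjTranspose_eq_transpose_of_trivial, Matrix.transpose_mul, h3, g3] at hfin
  have e : T * R * ((1 + X) * (1 + Z) * (4 * (1 - R) - T * X * T) * ((1 + Z) * (1 + X))) * (R * T)
      = 4 * (1 - R) - T * X * T := by
    calc T * R * ((1 + X) * (1 + Z) * (4 * (1 - R) - T * X * T) * ((1 + Z) * (1 + X))) * (R * T)
        = T * (R * (1 + X)) * (1 + Z) * (4 * (1 - R) - T * X * T) * ((1 + Z) * ((1 + X) * R) * T) := by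
          simp only [mul_assoc]
      _ = 4 * (1 - R) - T * X * T := by
          rw [h2, h1, mul_one, mul_one, g2, g1, one_mul, mul_one]
  rwa [e] at hfin

theorem aux_push {κ : Type*} [Fintype κ] [DecidableEq κ] (A : Matrix κ κ ℝ) (c : ℝ) (hc : 0 ≤ c) :
    A * (1 + c • (Aᵀ * A))⁻¹ = (1 + c • (A * Aᵀ))⁻¹ * A := by
  have hp1 : (c • (Aᵀ * A)).PosSemidef := by
    have := Matrix.posSemidef_conjTranspose_mul_self A
    rw [Matrix.conjTranspose_eq_transpose_of_trivial] at this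
    exact this.smul hc
  have hp2 : (c • (A * Aᵀ)).PosSemidef := by
    have := Matrix.posSemidef_self_mul_conjTranspose A
    rw [Matrix.conjTranspose_eq_transpose_of_trivial] at this
    exact this.smul hc
  obtain ⟨h1, h2, h3⟩ := aux_inv _ hp1
  obtain ⟨g1, g2, g3⟩ := aux_inv _ hp2
  have hcom : (1 + c • (A * Aᵀ)) * A = A * (1 + c • (Aᵀ * A)) := by
    rw [add_mul, mul_add, one_mul, mul_one, smul_mul_assoc, mul_smul_comm, mul_assoc]
  calc A * (1 + c • (Aᵀ * A))⁻¹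
      = ((1 + c • (A * Aᵀ))⁻¹ * (1 + c • (A * Aᵀ))) * (A * (1 + c • (Aᵀ * A))⁻¹) := by
        rw [g2, one_mul]
    _ = (1 + c • (A * Aᵀ))⁻¹ * ((1 + c • (A * Aᵀ)) * A) * (1 + c • (Aᵀ * A))⁻¹ := by
        simp only [mul_assoc]
    _ = (1 + c • (A * Aᵀ))⁻¹ * A * ((1 + c • (Aᵀ * A)) * (1 + c • (Aᵀ * A))⁻¹) := by
        rw [hcom]; simp only [mul_assoc]
    _ = (1 + c • (A * Aᵀ))⁻¹ * A := by rw [h1, mul_one]

theorem b_bounds {κ : Type*} [Fintype κ] [DecidableEq κ] (A : Matrix κ κ ℝ) :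
    (P Aᵀ - b1 A * (b1 A)ᵀ).PosSemidef ∧ (P A - (b1 A)ᵀ * b1 A).PosSemidef ∧
    ((4:ℝ) • P Aᵀ - b2 A * (b2 A)ᵀ).PosSemidef ∧ ((4:ℝ) • P A - (b2 A)ᵀ * b2 A).PosSemidef := by
  have hp1 : (Aᵀ * A).PosSemidef := by
    have := Matrix.posSemidef_conjTranspose_mul_self A
    rwa [Matrix.conjTranspose_eq_transpose_of_trivial] at this
  have hp2 : (A * Aᵀ).PosSemidef := by
    have := Matrix.posSemidef_self_mul_conjTranspose A
    rwa [Matrix.conjTranspose_eq_transpose_of_trivial] at this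
  obtain ⟨-, -, t1⟩ := aux_inv _ hp1
  obtain ⟨-, -, t2⟩ := aux_inv _ hp2
  obtain ⟨-, -, t3⟩ := aux_inv _ (hp1.smul (show (0:ℝ) ≤ 1/4 by norm_num))
  obtain ⟨-, -, t4⟩ := aux_inv _ (hp2.smul (show (0:ℝ) ≤ 1/4 by norm_num))
  have push1 : A * (1 + Aᵀ * A)⁻¹ = (1 + A * Aᵀ)⁻¹ * A := by
    have := aux_push A 1 (by norm_num)
    simpa only [one_smul] using this
  have push2 : A * (1 + (1/4 : ℝ) • (Aᵀ * A))⁻¹ = (1 + (1/4 : ℝ) • (A * Aᵀ))⁻¹ * A :=
    aux_push A (1/4) (by norm_num)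
  refine ⟨?_, ?_, ?_, ?_⟩
  · have h := aux_fact1 _ hp2
    have e : b1 A * (b1 A)ᵀ = (1 + A * Aᵀ)⁻¹ * (A * Aᵀ) * (1 + A * Aᵀ)⁻¹ := by
      unfold b1
      rw [push1, Matrix.transpose_mul, t2]
      simp only [mul_assoc]
    unfold P
    rw [e, Matrix.transpose_transpose]
    exact h
  · have h := aux_fact1 _ hp1
    have e : (b1 A)ᵀ * b1 A = (1 + Aᵀ * A)⁻¹ * (Aᵀ * A) * (1 + Aᵀ * A)⁻¹ := by
      unfold b1
      rw [Matrix.transpose_mul, t1]
      simp only [mul_assoc]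
    unfold P
    rw [e]
    exact h
  · have h := aux_fact2 _ hp2
    have e : b2 A * (b2 A)ᵀ
        = (1 + (1/4 : ℝ) • (A * Aᵀ))⁻¹ * (A * Aᵀ) * (1 + (1/4 : ℝ) • (A * Aᵀ))⁻¹ := by
      unfold b2
      rw [push2, Matrix.transpose_mul, t4]
      simp only [mul_assoc]
    unfold P
    rw [e, Matrix.transpose_transpose]
    exact h
  · have h := aux_fact2 _ hp1
    have e : (b2 A)ᵀ * b2 A
        = (1 + (1/4 : ℝ) • (Aᵀ * A))⁻¹ * (Aᵀ * A) * (1 + (1/4 : ℝ) • (Aᵀ * A))⁻¹ := by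
      unfold b2
      rw [Matrix.transpose_mul, t3]
      simp only [mul_assoc]
    unfold P
    rw [e]
    exact h

end TH71
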