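import Pool.Agent.Helper71.TH.Defs

set_option autoImplicit false
set_option linter.unusedVariables false

open Matrix

namespace TH71



theorem unit_one_add {m n : Type*} [Fintype m] [Fintype n] [DecidableEq n]
    (A : Matrix m n ℝ) : IsUnit (1 + Aᵀ * A).det := by
  have h1 : (Aᵀ * A).PosSemidef := by
    have := Matrix.posSemidef_conjTranspose_mul_self A
    rwa [Matrix.conjTranspose_eq_transpose_of_trivial] at this
  have h2 : (1 + Aᵀ * A).PosDef := Matrix.PosDef.one.add_posSemidef h1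
  exact (Matrix.isUnit_iff_isUnit_det _).1 h2.isUnit

theorem P_eq {m n : Type*} [Fintype m] [Fintype n] [DecidableEq m] [DecidableEq n]
    (A : Matrix m n ℝ) : P A = Aᵀ * (1 + A * Aᵀ)⁻¹ * A := by
  have hN := unit_one_add A
  have hM : IsUnit (1 + A * Aᵀ).det := by
    have := unit_one_add Aᵀ
    rwa [Matrix.transpose_transpose] at this
  have h1 : (1 + Aᵀ * A) * Aᵀ = Aᵀ * (1 + A * Aᵀ) := by
    rw [Matrix.add_mul, Matrix.mul_add, Matrix.one_mul, Matrix.mul_one, Matrix.mul_assoc]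
  have h2 : Aᵀ * (1 + A * Aᵀ)⁻¹ = (1 + Aᵀ * A)⁻¹ * Aᵀ := by
    calc Aᵀ * (1 + A * Aᵀ)⁻¹
        = ((1 + Aᵀ * A)⁻¹ * (1 + Aᵀ * A)) * Aᵀ * (1 + A * Aᵀ)⁻¹ := by
          rw [Matrix.nonsing_inv_mul _ hN, Matrix.one_mul]
      _ = (1 + Aᵀ * A)⁻¹ * ((1 + Aᵀ * A) * Aᵀ) * (1 + A * Aᵀ)⁻¹ := by
          rw [Matrix.mul_assoc (1 + Aᵀ * A)⁻¹]
      _ = (1 + Aᵀ * A)⁻¹ * Aᵀ * ((1 + A * Aᵀ) * (1 + A * Aᵀ)⁻¹) := by
          rw [h1]
          simp only [Matrix.mul_assoc]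
      _ = (1 + Aᵀ * A)⁻¹ * Aᵀ := by
          rw [Matrix.mul_nonsing_inv _ hM, Matrix.mul_one]
  have h3 : Aᵀ * A = (1 + Aᵀ * A) - 1 := by abel
  rw [h2, Matrix.mul_assoc, P]
  conv_rhs => rw [h3]
  rw [Matrix.mul_sub, Matrix.mul_one]
  have h4 : (1 + ((1 + Aᵀ * A) - 1)) = 1 + Aᵀ * A := by abel
  rw [h4, Matrix.nonsing_inv_mul _ hN]

end TH71
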