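import Pool.Agent.Helper71.TH.Defs
import Pool.Agent.Helper71.TH.P_P_bounds
import Pool.Agent.Helper71.TH.P_P_eq

set_option autoImplicit false
set_option linter.unusedVariables false

open Matrix

namespace TH71



theorem b_diff_aux_pd {κ : Type*} [Fintype κ] [DecidableEq κ] (Y : Matrix κ κ ℝ)
    (hY : Y.PosSemidef) (c : ℝ) (hc : 0 ≤ c) : (1 + c • Y).PosDef :=
  Matrix.PosDef.one.add_posSemidef (hY.smul hc)

theorem b_diff_aux_inv {κ : Type*} [Fintype κ] [DecidableEq κ] (Y : Matrix κ κ ℝ)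
    (hY : Y.PosDef) : Y * Y⁻¹ = 1 ∧ Y⁻¹ * Y = 1 := by
  have h : IsUnit Y.det := isUnit_iff_ne_zero.mpr hY.det_pos.ne'
  exact ⟨Matrix.mul_nonsing_inv _ h, Matrix.nonsing_inv_mul _ h⟩

theorem b_diff_aux_push {κ : Type*} [Fintype κ] [DecidableEq κ] (A : Matrix κ κ ℝ)
    (c : ℝ) (hc : 0 ≤ c) :
    A * (1 + c • (Aᵀ * A))⁻¹ = (1 + c • (A * Aᵀ))⁻¹ * A := by
  have hX : (Aᵀ * A).PosSemidef := by
    have := Matrix.posSemidef_conjTranspose_mul_self A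
    rwa [Matrix.conjTranspose_eq_transpose_of_trivial] at this
  have hY : (A * Aᵀ).PosSemidef := by
    have := Matrix.posSemidef_self_mul_conjTranspose A
    rwa [Matrix.conjTranspose_eq_transpose_of_trivial] at this
  obtain ⟨h1, h2⟩ := b_diff_aux_inv _ (b_diff_aux_pd _ hX c hc)
  obtain ⟨h3, h4⟩ := b_diff_aux_inv _ (b_diff_aux_pd _ hY c hc)
  have e : (1 + c • (A * Aᵀ)) * A = A * (1 + c • (Aᵀ * A)) := by
    rw [Matrix.add_mul, Matrix.mul_add, Matrix.one_mul, Matrix.mul_one, Matrix.smul_mul,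
      Matrix.mul_smul, Matrix.mul_assoc]
  calc A * (1 + c • (Aᵀ * A))⁻¹
      = ((1 + c • (A * Aᵀ))⁻¹ * (1 + c • (A * Aᵀ))) * A * (1 + c • (Aᵀ * A))⁻¹ := by
        rw [h4, Matrix.one_mul]
    _ = (1 + c • (A * Aᵀ))⁻¹ * ((1 + c • (A * Aᵀ)) * A) * (1 + c • (Aᵀ * A))⁻¹ := by
        simp only [Matrix.mul_assoc]
    _ = (1 + c • (A * Aᵀ))⁻¹ * A * ((1 + c • (Aᵀ * A)) * (1 + c • (Aᵀ * A))⁻¹) := by
        rw [e]; simp only [Matrix.mul_assoc]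
    _ = _ := by rw [h1, Matrix.mul_one]

theorem b_diff {κ : Type*} [Fintype κ] [DecidableEq κ] (A : Matrix κ κ ℝ) :
    ∃ H C : Matrix κ κ ℝ, Hᵀ = H ∧ C.PosDef ∧ b2 A - b1 A = (3/4 : ℝ) • (H * C * A) ∧
      P A = Aᵀ * C * A ∧ (P Aᵀ - H * C * H).PosSemidef := by
  have hY : (A * Aᵀ).PosSemidef := by
    have := Matrix.posSemidef_self_mul_conjTranspose A
    rwa [Matrix.conjTranspose_eq_transpose_of_trivial] at this
  have hYt : (A * Aᵀ)ᵀ = A * Aᵀ := by simp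
  have hD1 : (1 + A * Aᵀ).PosDef := by
    have := b_diff_aux_pd _ hY 1 zero_le_one
    rwa [one_smul] at this
  have hD4 := b_diff_aux_pd _ hY (1/4) (by norm_num)
  obtain ⟨c1, c2⟩ := b_diff_aux_inv _ hD1
  obtain ⟨w1, w2⟩ := b_diff_aux_inv _ hD4
  have hb1 : b1 A = (1 + A * Aᵀ)⁻¹ * A := by
    have := b_diff_aux_push A 1 zero_le_one
    rwa [one_smul, one_smul] at this
  have hb2 : b2 A = (1 + (1/4:ℝ) • (A * Aᵀ))⁻¹ * A := b_diff_aux_push A (1/4) (by norm_num)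
  have hPt : P Aᵀ = 1 - (1 + A * Aᵀ)⁻¹ := by unfold P; rw [Matrix.transpose_transpose]
  have hPsd : (1 - (1 + A * Aᵀ)⁻¹).PosSemidef := hPt ▸ (P_bounds Aᵀ).1
  have hWt : ((1 + (1/4:ℝ) • (A * Aᵀ))⁻¹)ᵀ = (1 + (1/4:ℝ) • (A * Aᵀ))⁻¹ := by
    rw [Matrix.transpose_nonsing_inv]; simp
  have hcomm : (1 + (1/4:ℝ) • (A * Aᵀ))⁻¹ * (1 + A * Aᵀ)⁻¹
      = (1 + A * Aᵀ)⁻¹ * (1 + (1/4:ℝ) • (A * Aᵀ))⁻¹ := by
    rw [← Matrix.mul_inv_rev, ← Matrix.mul_inv_rev]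
    congr 1
    simp only [Matrix.mul_add, Matrix.add_mul, Matrix.one_mul, Matrix.mul_one, Matrix.smul_mul,
      Matrix.mul_smul, smul_add]
    abel
  have hrel : (1 + (1/4:ℝ) • (A * Aᵀ))⁻¹ + (3:ℝ) • ((1 + (1/4:ℝ) • (A * Aᵀ))⁻¹ * (1 + A * Aᵀ)⁻¹)
      = (4:ℝ) • (1 + A * Aᵀ)⁻¹ := by
    have e1 : (4:ℝ) • (1 + (1/4:ℝ) • (A * Aᵀ)) = (3:ℝ) • (1 : Matrix κ κ ℝ) + (1 + A * Aᵀ) := by
      module
    have e2 : (1 + (1/4:ℝ) • (A * Aᵀ))⁻¹ * ((4:ℝ) • (1 + (1/4:ℝ) • (A * Aᵀ))) * (1 + A * Aᵀ)⁻¹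
        = (4:ℝ) • (1 + A * Aᵀ)⁻¹ := by
      rw [Matrix.mul_smul, w2, Matrix.smul_mul, Matrix.one_mul]
    rw [← e2, e1, Matrix.mul_add, Matrix.add_mul, Matrix.mul_assoc _ (1 + A * Aᵀ), c1,
      Matrix.mul_one, Matrix.mul_smul, Matrix.mul_one, Matrix.smul_mul]
    abel
  have hCpd : ((1 + A * Aᵀ)⁻¹).PosDef := hD1.inv
  have hPeq := P_eq A
  generalize hC : (1 + A * Aᵀ)⁻¹ = C at *
  generalize hW : (1 + (1/4:ℝ) • (A * Aᵀ))⁻¹ = W at *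
  refine ⟨(4:ℝ) • (1 - W), C, ?_, hCpd, ?_, hPeq, ?_⟩
  · rw [Matrix.transpose_smul, Matrix.transpose_sub, Matrix.transpose_one, hWt]
  · rw [hb1, hb2, ← Matrix.sub_mul]
    have : W - C = (3/4:ℝ) • ((4:ℝ) • (1 - W) * C) := by
      rw [Matrix.smul_mul, Matrix.sub_mul, Matrix.one_mul]
      linear_combination (norm := module) hrel
    rw [this, Matrix.smul_mul]
  · have hid : P Aᵀ - (4:ℝ) • (1 - W) * C * ((4:ℝ) • (1 - W))
        = ((2:ℝ) • W - 1) * (1 - C) * ((2:ℝ) • W - 1) := by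
      have h2 : W * W + (3:ℝ) • (W * C * W) = (4:ℝ) • (C * W) := by
        have := congrArg (fun M => M * W) hrel
        simpa only [Matrix.add_mul, Matrix.smul_mul] using this
      rw [hPt]
      simp only [Matrix.mul_sub, Matrix.sub_mul, Matrix.one_mul, Matrix.mul_one, Matrix.smul_mul,
        Matrix.mul_smul, smul_sub, smul_smul]
      rw [← hcomm] at h2 ⊢
      linear_combination (norm := module) (4:ℝ) • hrel - (4:ℝ) • h2
    rw [hid]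
    have hR : (((2:ℝ) • W - 1) : Matrix κ κ ℝ)ᴴ = (2:ℝ) • W - 1 := by
      rw [Matrix.conjTranspose_eq_transpose_of_trivial, Matrix.transpose_sub,
        Matrix.transpose_smul, Matrix.transpose_one, hWt]
    have := hPsd.mul_mul_conjTranspose_same ((2:ℝ) • W - 1)
    rwa [hR] at this

end TH71
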