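import Pool.Agent.Helper71.TH.Defs
import Pool.Agent.Helper71.TH.P_trace_mul_nonneg
import Pool.Agent.Helper71.TH.P_P_bounds
import Pool.Agent.Helper71.TH.P_b_diff

set_option autoImplicit false
set_option linter.unusedVariables false

open Matrix

namespace TH71



theorem psd_conj {κ : Type*} [Fintype κ] [DecidableEq κ] (M X : Matrix κ κ ℝ) (hM : M.PosSemidef) :
    (Xᵀ * M * X).PosSemidef := by
  have h := hM.conjTranspose_mul_mul_same X
  rwa [Matrix.conjTranspose_eq_transpose_of_trivial] at h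

theorem psd_s {κ : Type*} [Fintype κ] [DecidableEq κ] (M s : Matrix κ κ ℝ) (hs : sᵀ = s)
    (hM : M.PosSemidef) : (s * M * s).PosSemidef := by
  have h := psd_conj M s hM
  rwa [hs] at h

theorem wcs {κ : Type*} [Fintype κ] [DecidableEq κ] (L R D : Matrix κ κ ℝ) (hD : D.PosSemidef) :
    2 * |(L * D * R).trace| ≤ (L * D * Lᵀ).trace + (Rᵀ * D * R).trace := by
  have hDt : Dᵀ = D := by
    have h := hD.1.eq
    rwa [Matrix.conjTranspose_eq_transpose_of_trivial] at h
  have hcross : (Rᵀ * D * Lᵀ).trace = (L * D * R).trace := by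
    rw [← Matrix.trace_transpose (L * D * R), Matrix.transpose_mul, Matrix.transpose_mul, hDt,
      Matrix.mul_assoc]
  have h1 := (psd_conj D (Lᵀ + R) hD).trace_nonneg
  have h2 := (psd_conj D (Lᵀ - R) hD).trace_nonneg
  rw [Matrix.transpose_add, Matrix.transpose_transpose, Matrix.add_mul, Matrix.add_mul,
    Matrix.mul_add, Matrix.mul_add, Matrix.trace_add, Matrix.trace_add, Matrix.trace_add,
    hcross] at h1
  rw [Matrix.transpose_sub, Matrix.transpose_transpose, Matrix.sub_mul, Matrix.sub_mul,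
    Matrix.mul_sub, Matrix.mul_sub, Matrix.trace_sub, Matrix.trace_sub, Matrix.trace_sub,
    hcross] at h2
  rcases abs_cases (L * D * R).trace with ⟨h, _⟩ | ⟨h, _⟩ <;> rw [h] <;> linarith

theorem db_term {κ : Type*} [Fintype κ] [DecidableEq κ] (s A B C U V : Matrix κ κ ℝ)
    (hs : sᵀ = s) (hs1 : s * s = 1)
    (hU : ((4:ℝ) • P Bᵀ - U * Uᵀ).PosSemidef) (hV : ((4:ℝ) • P C - Vᵀ * V).PosSemidef) :
    |(s * (b2 A - b1 A) * s * U * s * V).trace| ≤ (3/2) * (E s A B + E s C A) := by
  obtain ⟨H, D, hH, hD, hdiff, hPA, hHDH⟩ := b_diff A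
  have hDs : D.PosSemidef := hD.posSemidef
  have htr : (s * (b2 A - b1 A) * s * U * s * V).trace =
      (3/4 : ℝ) * ((V * s * H) * D * (A * s * U * s)).trace := by
    rw [hdiff]
    have e1 : s * ((3/4 : ℝ) • (H * D * A)) * s * U * s * V =
        (3/4 : ℝ) • ((s * H * D * (A * s * U * s)) * V) := by
      simp only [Matrix.mul_smul, Matrix.smul_mul, Matrix.mul_assoc]
    rw [e1, Matrix.trace_smul, Matrix.trace_mul_comm, smul_eq_mul]
    congr 2
    simp only [Matrix.mul_assoc]
  have hcs := wcs (V * s * H) (A * s * U * s) D hDs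
  -- the left term
  have hX : (s * (H * D * H) * s).PosSemidef := by
    have h := psd_conj D H hDs
    rw [hH] at h
    exact psd_s _ s hs h
  have hL1 : ((V * s * H) * D * (V * s * H)ᵀ).trace = (Vᵀ * V * (s * (H * D * H) * s)).trace := by
    have e : (V * s * H) * D * (V * s * H)ᵀ = (V * (s * (H * D * H) * s)) * Vᵀ := by
      rw [Matrix.transpose_mul, Matrix.transpose_mul, hs, hH]
      simp only [Matrix.mul_assoc]
    rw [e, Matrix.trace_mul_comm]
    simp only [Matrix.mul_assoc]
  have hL2 : (Vᵀ * V * (s * (H * D * H) * s)).trace ≤ 4 * (P C * (s * (H * D * H) * s)).trace := by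
    have h := trace_mul_nonneg _ _ hV hX
    rw [Matrix.sub_mul, Matrix.smul_mul, Matrix.trace_sub, Matrix.trace_smul, smul_eq_mul] at h
    linarith
  have hL3 : (P C * (s * (H * D * H) * s)).trace ≤ E s C A := by
    have h := trace_mul_nonneg _ _ (P_bounds C).1 (psd_s _ s hs hHDH)
    have e : P C * (s * (P Aᵀ - H * D * H) * s) =
        P C * s * P Aᵀ * s - P C * (s * (H * D * H) * s) := by
      rw [Matrix.mul_sub, Matrix.sub_mul, Matrix.mul_sub]
      simp only [Matrix.mul_assoc]
    rw [e, Matrix.trace_sub] at h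
    unfold E
    linarith
  -- the right term
  have hR1 : ((A * s * U * s)ᵀ * D * (A * s * U * s)).trace = (P A * (s * (U * Uᵀ) * s)).trace := by
    have e : (A * s * U * s)ᵀ * D * (A * s * U * s) = (s * Uᵀ * s) * (Aᵀ * D * A * (s * U * s)) := by
      rw [Matrix.transpose_mul, Matrix.transpose_mul, Matrix.transpose_mul, hs]
      simp only [Matrix.mul_assoc]
    rw [e, Matrix.trace_mul_comm, ← hPA]
    congr 1
    calc P A * (s * U * s) * (s * Uᵀ * s) = P A * (s * (U * (s * s) * Uᵀ) * s) := by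
          simp only [Matrix.mul_assoc]
      _ = P A * (s * (U * Uᵀ) * s) := by rw [hs1, Matrix.mul_one]
  have hR2 : (P A * (s * (U * Uᵀ) * s)).trace ≤ 4 * E s A B := by
    have h := trace_mul_nonneg _ _ (P_bounds A).1 (psd_s _ s hs hU)
    have e : P A * (s * ((4:ℝ) • P Bᵀ - U * Uᵀ) * s) =
        (4:ℝ) • (P A * s * P Bᵀ * s) - P A * (s * (U * Uᵀ) * s) := by
      rw [Matrix.mul_sub, Matrix.sub_mul, Matrix.mul_sub]
      simp only [Matrix.mul_assoc, Matrix.mul_smul, Matrix.smul_mul]
    rw [e, Matrix.trace_sub, Matrix.trace_smul, smul_eq_mul] at h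
    unfold E
    linarith
  rw [htr, abs_mul, abs_of_pos (by norm_num : (0:ℝ) < 3/4)]
  rw [hL1, hR1] at hcs
  linarith

end TH71
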