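import Pool.Agent.Helper71.TH.Defs
import Pool.Agent.Helper71.TH.P_trace_mul_nonneg
import Pool.Agent.Helper71.TH.P_P_bounds
import Pool.Agent.Helper71.TH.P_b_bounds
import Pool.Agent.Helper71.TH.P_db_term

set_option autoImplicit false
set_option linter.unusedVariables false

open Matrix

namespace TH71



theorem db1 {κ : Type*} [Fintype κ] [DecidableEq κ] (s A B C : Matrix κ κ ℝ)
    (hs : sᵀ = s) (hs1 : s * s = 1) :
    |(s * b2 A * s * b2 B * s * b2 C).trace - (s * b1 A * s * b1 B * s * b1 C).trace| ≤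
      12 * (E s A B + E s B C + E s C A) := by
  have hE : ∀ A B : Matrix κ κ ℝ, 0 ≤ E s A B := by
    intro A B
    unfold E
    have h1 : (s * P Bᵀ * s).PosSemidef := by
      have h2 := (P_bounds Bᵀ).1.conjTranspose_mul_mul_same s
      rwa [Matrix.conjTranspose_eq_transpose_of_trivial, hs] at h2
    have h3 := trace_mul_nonneg (P A) (s * P Bᵀ * s) (P_bounds A).1 h1
    have h4 : P A * s * P Bᵀ * s = P A * (s * P Bᵀ * s) := by
      simp only [Matrix.mul_assoc]
    rw [h4]
    exact h3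
  have h3P : ∀ M : Matrix κ κ ℝ, M.PosSemidef → ((3:ℝ) • M).PosSemidef := by
    intro M hM
    exact hM.smul (by norm_num)
  have hadd : ∀ M N : Matrix κ κ ℝ, (M - N).PosSemidef → M.PosSemidef → ((4:ℝ) • M - N).PosSemidef := by
    intro M N h1 h2
    have h4 : (4:ℝ) • M - N = (M - N) + (3:ℝ) • M := by
      have : (4:ℝ) • M = M + (3:ℝ) • M := by
        rw [show (4:ℝ) = 1 + 3 by norm_num, add_smul, one_smul]
      rw [this]
      abel
    rw [h4]
    exact h1.add (h3P M h2)
  have t1 := db_term s A B C (b2 B) (b2 C) hs hs1 (b_bounds B).2.2.1 (b_bounds C).2.2.2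
  have t2 := db_term s B C A (b2 C) (b1 A) hs hs1 (b_bounds C).2.2.1
    (hadd _ _ (b_bounds A).2.1 (P_bounds A).1)
  have t3 := db_term s C A B (b1 A) (b1 B) hs hs1
    (hadd _ _ (b_bounds A).1 (P_bounds Aᵀ).1) (hadd _ _ (b_bounds B).2.1 (P_bounds B).1)
  have c2 : (s * (b2 B - b1 B) * s * b2 C * s * b1 A).trace =
      (s * b1 A * s * (b2 B - b1 B) * s * b2 C).trace := by
    have h1 : s * (b2 B - b1 B) * s * b2 C * s * b1 A =
        (s * (b2 B - b1 B) * s * b2 C) * (s * b1 A) := by simp only [Matrix.mul_assoc]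
    have h2 : s * b1 A * s * (b2 B - b1 B) * s * b2 C =
        (s * b1 A) * (s * (b2 B - b1 B) * s * b2 C) := by simp only [Matrix.mul_assoc]
    rw [h1, h2, Matrix.trace_mul_comm]
  have c3 : (s * (b2 C - b1 C) * s * b1 A * s * b1 B).trace =
      (s * b1 A * s * b1 B * s * (b2 C - b1 C)).trace := by
    have h1 : s * (b2 C - b1 C) * s * b1 A * s * b1 B =
        (s * (b2 C - b1 C)) * (s * b1 A * s * b1 B) := by simp only [Matrix.mul_assoc]
    have h2 : s * b1 A * s * b1 B * s * (b2 C - b1 C) =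
        (s * b1 A * s * b1 B) * (s * (b2 C - b1 C)) := by simp only [Matrix.mul_assoc]
    rw [h1, h2, Matrix.trace_mul_comm]
  rw [c2] at t2
  rw [c3] at t3
  have hsum : (s * b2 A * s * b2 B * s * b2 C).trace - (s * b1 A * s * b1 B * s * b1 C).trace =
      (s * (b2 A - b1 A) * s * b2 B * s * b2 C).trace +
      (s * b1 A * s * (b2 B - b1 B) * s * b2 C).trace +
      (s * b1 A * s * b1 B * s * (b2 C - b1 C)).trace := by
    simp only [Matrix.mul_sub, Matrix.sub_mul, Matrix.trace_sub]
    ring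
  rw [hsum]
  have hab := hE A B
  have hbc := hE B C
  have hca := hE C A
  have habs := abs_add_three ((s * (b2 A - b1 A) * s * b2 B * s * b2 C).trace)
    ((s * b1 A * s * (b2 B - b1 B) * s * b2 C).trace)
    ((s * b1 A * s * b1 B * s * (b2 C - b1 C)).trace)
  linarith
end TH71
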