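import Pool.Agent.Helper71.TH.Defs
import Pool.Agent.Helper71.TH.P_db1

set_option autoImplicit false
set_option linter.unusedVariables false

open Matrix

namespace TH71



theorem db_scaled_b {κ : Type*} [Fintype κ] [DecidableEq κ] (X : Matrix κ κ ℝ) :
    b1 ((1/2 : ℝ) • X) = (1/2 : ℝ) • b2 X := by
  unfold b1 b2
  have h : (((1/2 : ℝ) • X)ᵀ * ((1/2 : ℝ) • X)) = (1/4 : ℝ) • (Xᵀ * X) := by
    rw [Matrix.transpose_smul, Matrix.smul_mul, Matrix.mul_smul, smul_smul]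
    norm_num
  rw [h, Matrix.smul_mul]

theorem db_scaled {κ : Type*} [Fintype κ] [DecidableEq κ] (s A B C : Matrix κ κ ℝ)
    (hs : sᵀ = s) (hs1 : s * s = 1) (k : ℤ) :
    |(lam (k+1))^3 * (s * b1 ((lam (k+1))⁻¹ • A) * s * b1 ((lam (k+1))⁻¹ • B) * s *
        b1 ((lam (k+1))⁻¹ • C)).trace -
      (lam k)^3 * (s * b1 ((lam k)⁻¹ • A) * s * b1 ((lam k)⁻¹ • B) * s *
        b1 ((lam k)⁻¹ • C)).trace| ≤
      (lam k)^3 * (12 * (E s ((lam k)⁻¹ • A) ((lam k)⁻¹ • B) + E s ((lam k)⁻¹ • B) ((lam k)⁻¹ • C)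
        + E s ((lam k)⁻¹ • C) ((lam k)⁻¹ • A))) := by
  have hl : lam (k + 1) = 2 * lam k := by
    unfold lam
    rw [zpow_add_one₀ (by norm_num)]
    ring
  have hpos : 0 < lam k := by
    unfold lam
    positivity
  have hX : ∀ X : Matrix κ κ ℝ, (lam (k + 1))⁻¹ • X = (1/2 : ℝ) • ((lam k)⁻¹ • X) := by
    intro X
    rw [hl, mul_inv, smul_smul]
    norm_num
  rw [hX A, hX B, hX C, db_scaled_b, db_scaled_b, db_scaled_b]
  have h1 := db1 s ((lam k)⁻¹ • A) ((lam k)⁻¹ • B) ((lam k)⁻¹ • C) hs hs1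
  have h2 : (s * ((1/2 : ℝ) • b2 ((lam k)⁻¹ • A)) * s * ((1/2 : ℝ) • b2 ((lam k)⁻¹ • B)) * s *
      ((1/2 : ℝ) • b2 ((lam k)⁻¹ • C))).trace =
      (1/8 : ℝ) * (s * b2 ((lam k)⁻¹ • A) * s * b2 ((lam k)⁻¹ • B) * s * b2 ((lam k)⁻¹ • C)).trace := by
    simp only [Matrix.mul_smul, Matrix.smul_mul, Matrix.trace_smul, smul_smul, smul_eq_mul]
    ring
  rw [h2, hl]
  have h3 : (2 * lam k) ^ 3 * ((1/8 : ℝ) * (s * b2 ((lam k)⁻¹ • A) * s * b2 ((lam k)⁻¹ • B) * s *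
      b2 ((lam k)⁻¹ • C)).trace) - (lam k) ^ 3 * (s * b1 ((lam k)⁻¹ • A) * s * b1 ((lam k)⁻¹ • B) * s *
      b1 ((lam k)⁻¹ • C)).trace =
      (lam k) ^ 3 * ((s * b2 ((lam k)⁻¹ • A) * s * b2 ((lam k)⁻¹ • B) * s * b2 ((lam k)⁻¹ • C)).trace -
        (s * b1 ((lam k)⁻¹ • A) * s * b1 ((lam k)⁻¹ • B) * s * b1 ((lam k)⁻¹ • C)).trace) := by
    ring
  rw [h3, abs_mul, abs_of_pos (pow_pos hpos 3)]
  exact mul_le_mul_of_nonneg_left h1 (pow_pos hpos 3).le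

end TH71
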