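import Pool.Agent.Helper71.TH.Defs
import Pool.Agent.Helper71.TH.P_P_bounds
import Pool.Agent.Helper71.TH.P_b_bounds

set_option autoImplicit false
set_option linter.unusedVariables false

open Matrix

namespace TH71



theorem b1_entry {κ : Type*} [Fintype κ] [DecidableEq κ] (A : Matrix κ κ ℝ) (i j : κ) :
    |b1 A i j| ≤ 1 := by
  have h1 := (P_bounds Aᵀ).2
  have h2 := (b_bounds A).1
  have h3 : (1 - b1 A * (b1 A)ᵀ).PosSemidef := by
    have h4 := h1.add h2
    have h5 : (1 - P Aᵀ) + (P Aᵀ - b1 A * (b1 A)ᵀ) = 1 - b1 A * (b1 A)ᵀ := by abel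
    rw [h5] at h4
    exact h4
  have h6 : 0 ≤ (1 - b1 A * (b1 A)ᵀ) i i := h3.diag_nonneg
  rw [Matrix.sub_apply, Matrix.one_apply_eq, Matrix.mul_apply] at h6
  have h7 : b1 A i j * b1 A i j ≤ ∑ l, b1 A i l * (b1 A)ᵀ l i := by
    have := Finset.single_le_sum (f := fun l => b1 A i l * (b1 A)ᵀ l i)
      (fun l _ => mul_self_nonneg (b1 A i l)) (Finset.mem_univ j)
    exact this
  rw [abs_le]
  constructor <;> nlinarith

end TH71
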