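import Pool.Agent.Helper71.TH.Defs
import Pool.Agent.Helper71.TH.P_b1_entry

set_option autoImplicit false
set_option linter.unusedVariables false

open Matrix

namespace TH71



theorem lb_mul {κ : Type*} [Fintype κ] [DecidableEq κ] (X Y : Matrix κ κ ℝ) (c d : ℝ)
    (hX : ∀ i j, |X i j| ≤ c) (hY : ∀ i j, |Y i j| ≤ d) (i j : κ) :
    |(X * Y) i j| ≤ (Fintype.card κ : ℝ) * (c * d) := by
  have hc : 0 ≤ c := (abs_nonneg _).trans (hX i j)
  rw [Matrix.mul_apply]
  calc |∑ k, X i k * Y k j| ≤ ∑ k, |X i k * Y k j| := Finset.abs_sum_le_sum_abs _ _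
    _ ≤ ∑ _k : κ, c * d := by
        apply Finset.sum_le_sum
        intro k _
        rw [abs_mul]
        exact mul_le_mul (hX i k) (hY k j) (abs_nonneg _) hc
    _ = (Fintype.card κ : ℝ) * (c * d) := by
        rw [Finset.sum_const, Finset.card_univ, nsmul_eq_mul]

theorem lb_bound {κ : Type*} [Fintype κ] [DecidableEq κ] (s : Matrix κ κ ℝ) :
    ∃ M : ℝ, ∀ X Y Z : Matrix κ κ ℝ, (∀ i j, |X i j| ≤ 1) → (∀ i j, |Y i j| ≤ 1) →
      (∀ i j, |Z i j| ≤ 1) → |(s * X * s * Y * s * Z).trace| ≤ M := by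
  have hs : ∀ i j, |s i j| ≤ ∑ i, ∑ j, |s i j| := by
    intro i j
    refine (Finset.single_le_sum (f := fun j => |s i j|) (fun j _ => abs_nonneg _)
      (Finset.mem_univ j)).trans ?_
    exact Finset.single_le_sum (f := fun i => ∑ j, |s i j|)
      (fun i _ => Finset.sum_nonneg (fun j _ => abs_nonneg _)) (Finset.mem_univ i)
  generalize ∑ i, ∑ j, |s i j| = S at hs
  generalize hN : (Fintype.card κ : ℝ) = N
  refine ⟨N * (N * (N * (N * (N * (N * (S * 1) * S) * 1) * S) * 1)), fun X Y Z hX hY hZ => ?_⟩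
  have h1 := lb_mul s X S 1 hs hX
  have h2 := lb_mul (s * X) s _ S h1 hs
  have h3 := lb_mul (s * X * s) Y _ 1 h2 hY
  have h4 := lb_mul (s * X * s * Y) s _ S h3 hs
  have h5 := lb_mul (s * X * s * Y * s) Z _ 1 h4 hZ
  rw [hN] at h5
  unfold Matrix.trace
  refine (Finset.abs_sum_le_sum_abs _ _).trans ?_
  refine (Finset.sum_le_sum (fun i _ => h5 i i)).trans ?_
  rw [Finset.sum_const, Finset.card_univ, nsmul_eq_mul, hN]

theorem lim_bot {κ : Type*} [Fintype κ] [DecidableEq κ] (s A B C : Matrix κ κ ℝ) :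
    Filter.Tendsto (fun K : ℕ => (lam (-(K:ℤ)))^3 * (s * b1 ((lam (-(K:ℤ)))⁻¹ • A) * s *
      b1 ((lam (-(K:ℤ)))⁻¹ • B) * s * b1 ((lam (-(K:ℤ)))⁻¹ • C)).trace) Filter.atTop
      (nhds 0) := by
  obtain ⟨M, hM⟩ := lb_bound s
  have h0 : Filter.Tendsto (fun K : ℕ => (lam (-(K:ℤ)))^3 * M) Filter.atTop (nhds 0) := by
    have h1 : (fun K : ℕ => lam (-(K:ℤ))) = fun K : ℕ => ((1:ℝ) / 2) ^ K := by
      funext K
      unfold lam
      rw [_root_.zpow_neg, _root_.zpow_natCast, one_div, inv_pow]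
    have h2 : Filter.Tendsto (fun K : ℕ => lam (-(K:ℤ))) Filter.atTop (nhds 0) := by
      rw [h1]
      exact tendsto_pow_atTop_nhds_zero_of_lt_one (by norm_num) (by norm_num)
    have h3 := (h2.pow 3).mul_const M
    rw [zero_pow (by norm_num), zero_mul] at h3
    exact h3
  refine squeeze_zero_norm (fun K => ?_) h0
  rw [Real.norm_eq_abs, abs_mul, abs_pow]
  have hl : 0 ≤ lam (-(K:ℤ)) := by unfold lam; positivity
  rw [abs_of_nonneg hl]
  exact mul_le_mul_of_nonneg_left (hM _ _ _ (b1_entry _) (b1_entry _) (b1_entry _))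
    (by positivity)

end TH71
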