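import Pool.Agent.Helper71.TH.Defs

set_option autoImplicit false
set_option linter.unusedVariables false

open Matrix

namespace TH71



theorem lim_top_G {κ : Type*} [Fintype κ] [DecidableEq κ] (A : Matrix κ κ ℝ) :
    Filter.Tendsto (fun t : ℝ => A * (1 + t ^ 2 • (Aᵀ * A))⁻¹) (nhds 0) (nhds A) := by
  have hc : Continuous (fun t : ℝ => (1 : Matrix κ κ ℝ) + t ^ 2 • (Aᵀ * A)) := by
    fun_prop
  have h : ContinuousAt (fun t : ℝ => A * (1 + t ^ 2 • (Aᵀ * A))⁻¹) 0 := by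
    simp only [Matrix.inv_def, Ring.inverse_eq_inv']
    have hd : ContinuousAt (fun t : ℝ => ((1 + t ^ 2 • (Aᵀ * A) : Matrix κ κ ℝ).det)⁻¹) 0 := by
      refine ContinuousAt.inv₀ ?_ ?_
      · exact (Continuous.matrix_det hc).continuousAt
      · simp
    have hadj : ContinuousAt (fun t : ℝ => (1 + t ^ 2 • (Aᵀ * A) : Matrix κ κ ℝ).adjugate) 0 :=
      (Continuous.matrix_adjugate hc).continuousAt
    exact continuousAt_const.mul (hd.smul hadj)
  have h2 := h.tendsto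
  simp only [ne_eq, OfNat.ofNat_ne_zero, not_false_eq_true, zero_pow, zero_smul, add_zero,
    inv_one, mul_one] at h2
  exact h2

theorem lim_top_b1 {κ : Type*} [Fintype κ] [DecidableEq κ] (A : Matrix κ κ ℝ) (t : ℝ) :
    b1 (t • A) = t • (A * (1 + t ^ 2 • (Aᵀ * A))⁻¹) := by
  unfold b1
  rw [Matrix.transpose_smul, Matrix.smul_mul, Matrix.mul_smul, Matrix.smul_mul, smul_smul, ← sq]

theorem lim_top {κ : Type*} [Fintype κ] [DecidableEq κ] (s A B C : Matrix κ κ ℝ) :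
    Filter.Tendsto (fun K : ℕ => (lam (K:ℤ))^3 * (s * b1 ((lam (K:ℤ))⁻¹ • A) * s *
      b1 ((lam (K:ℤ))⁻¹ • B) * s * b1 ((lam (K:ℤ))⁻¹ • C)).trace) Filter.atTop
      (nhds (s * A * s * B * s * C).trace) := by
  have hl : ∀ K : ℕ, lam (K : ℤ) = 2 ^ K := fun K => by
    unfold lam; exact zpow_natCast _ _
  have ht : Filter.Tendsto (fun K : ℕ => (lam (K:ℤ))⁻¹) Filter.atTop (nhds 0) := by
    have : (fun K : ℕ => (lam (K:ℤ))⁻¹) = fun K : ℕ => (2⁻¹ : ℝ) ^ K := by
      funext K; rw [hl, inv_pow]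
    rw [this]
    exact tendsto_pow_atTop_nhds_zero_of_lt_one (by norm_num) (by norm_num)
  have hA := (lim_top_G A).comp ht
  have hB := (lim_top_G B).comp ht
  have hC := (lim_top_G C).comp ht
  have hcont : Continuous (fun p : Matrix κ κ ℝ × Matrix κ κ ℝ × Matrix κ κ ℝ =>
      (s * p.1 * s * p.2.1 * s * p.2.2).trace) := by
    refine Continuous.matrix_trace ?_
    fun_prop
  have h1 := (hcont.tendsto (A, B, C)).comp (hA.prodMk_nhds (hB.prodMk_nhds hC))
  refine h1.congr (fun K => ?_)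
  have hne : lam (K : ℤ) ≠ 0 := by rw [hl]; positivity
  simp only [Function.comp_apply]
  rw [lim_top_b1, lim_top_b1, lim_top_b1]
  simp only [Matrix.mul_smul, Matrix.smul_mul, smul_smul, Matrix.trace_smul, smul_eq_mul]
  rw [← mul_assoc]
  have : lam (K : ℤ) ^ 3 * ((lam (K : ℤ))⁻¹ * ((lam (K : ℤ))⁻¹ * (lam (K : ℤ))⁻¹)) = 1 := by
    field_simp
  simp only [mul_assoc] at this ⊢
  rw [← mul_assoc, ← mul_assoc, ← mul_assoc]
  field_simp

end TH71
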