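import Pool.Agent.Helper71.TH.Defs
import Pool.Agent.Helper71.TH.P_db_scaled
import Pool.Agent.Helper71.TH.P_lim_top
import Pool.Agent.Helper71.TH.P_lim_bot

set_option autoImplicit false
set_option linter.unusedVariables false

open Matrix

namespace TH71



theorem tele_aux (g d : ℤ → ℝ) (h : ∀ k, |g (k + 1) - g k| ≤ 12 * d k) (m : ℤ) (n : ℕ) :
    |g (m + n) - g m| ≤ 12 * ∑ k ∈ Finset.Ico m (m + n), d k := by
  induction n with
  | zero => simp
  | succ n ih =>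
    have hI : Finset.Ico m (m + ((n + 1 : ℕ) : ℤ)) = insert (m + (n : ℤ)) (Finset.Ico m (m + n)) := by
      ext x
      simp only [Finset.mem_Ico, Finset.mem_insert, Nat.cast_add, Nat.cast_one]
      omega
    rw [hI, Finset.sum_insert (by simp)]
    have h1 := h (m + n)
    have e : m + ((n + 1 : ℕ) : ℤ) = m + n + 1 := by push_cast; ring
    rw [e]
    have h2 : |g (m + n + 1) - g m| ≤ |g (m + n + 1) - g (m + n)| + |g (m + n) - g m| :=
      abs_sub_le _ _ _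
    linarith

theorem db_final {κ : Type*} [Fintype κ] [DecidableEq κ] (s A B C : Matrix κ κ ℝ)
    (hs : sᵀ = s) (hs1 : s * s = 1) (ε : ℝ) (hε : 0 < ε) :
    ∃ K0 : ℕ, ∀ K : ℕ, K0 ≤ K → |(s * A * s * B * s * C).trace| ≤
      12 * (∑ k ∈ Finset.Ico (-(K:ℤ)) (K:ℤ), (lam k)^3 *
        (E s ((lam k)⁻¹ • A) ((lam k)⁻¹ • B) + E s ((lam k)⁻¹ • B) ((lam k)⁻¹ • C)
        + E s ((lam k)⁻¹ • C) ((lam k)⁻¹ • A))) + ε := by
  obtain ⟨K1, hK1⟩ := Metric.tendsto_atTop.mp (lim_top s A B C) (ε / 2) (by linarith)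
  obtain ⟨K2, hK2⟩ := Metric.tendsto_atTop.mp (lim_bot s A B C) (ε / 2) (by linarith)
  refine ⟨max K1 K2, fun K hK => ?_⟩
  have h1 := hK1 K (le_trans (le_max_left _ _) hK)
  have h2 := hK2 K (le_trans (le_max_right _ _) hK)
  rw [Real.dist_eq] at h1 h2
  have h3 := tele_aux (fun k => (lam k)^3 * (s * b1 ((lam k)⁻¹ • A) * s * b1 ((lam k)⁻¹ • B) * s *
        b1 ((lam k)⁻¹ • C)).trace) (fun k => (lam k)^3 *
        (E s ((lam k)⁻¹ • A) ((lam k)⁻¹ • B) + E s ((lam k)⁻¹ • B) ((lam k)⁻¹ • C)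
        + E s ((lam k)⁻¹ • C) ((lam k)⁻¹ • A))) (fun k => by
          refine (db_scaled s A B C hs hs1 k).trans (le_of_eq ?_)
          ring) (-(K : ℤ)) (2 * K)
  have e : (-(K : ℤ)) + ((2 * K : ℕ) : ℤ) = K := by push_cast; ring
  rw [e] at h3
  rw [abs_lt] at h1 h2
  rw [abs_le] at h3
  rw [abs_le]
  constructor <;> linarith [h1.1, h1.2, h2.1, h2.2, h3.1, h3.2]

end TH71
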