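import Pool.Agent.Helper71.TH.Defs
import Pool.Agent.Helper71.TH.P_ld_le

set_option autoImplicit false
set_option linter.unusedVariables false

open Matrix

namespace TH71



theorem LD_ge {n : Type*} [Fintype n] [DecidableEq n] (X0 X1 S Z : Matrix n n ℝ)
    (hS : IsUnit S.det) (hZ : Zᵀ = Z) (hp : (1 + Z).PosDef) (hm : (1 - Z).PosDef)
    (e : 1 + (1/2 : ℝ) • (X0 + X1) = S * Sᵀ) (e0 : 1 + X0 = S * (1 + Z) * Sᵀ)
    (e1 : 1 + X1 = S * (1 - Z) * Sᵀ) :
    (Z * Z).trace ≤ 2 * LD X0 X1 := by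
  have hZH : Zᴴ = Z := by
    rw [Matrix.conjTranspose_eq_transpose_of_trivial]; exact hZ
  have hpd : 0 < (1 + Z).det := hp.det_pos
  have hmd : 0 < (1 - Z).det := hm.det_pos
  have hSd : S.det ≠ 0 := hS.ne_zero
  have hdet : (1 - Z * Z).det = (1 + Z).det * (1 - Z).det := by
    rw [← Matrix.det_mul]
    congr 1
    noncomm_ring
  have hunit : IsUnit (1 - Z * Z) := by
    rw [Matrix.isUnit_iff_isUnit_det, hdet]
    exact (mul_pos hpd hmd).ne'.isUnit
  have hps : (1 - Z * Z).PosSemidef := by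
    have h1 : ((1 - Z) * (1 + Z) * (1 - Z)ᴴ).PosSemidef :=
      hp.posSemidef.mul_mul_conjTranspose_same (1 - Z)
    have h2 : ((1 + Z) * (1 - Z) * (1 + Z)ᴴ).PosSemidef :=
      hm.posSemidef.mul_mul_conjTranspose_same (1 + Z)
    have h3 := (h1.add h2).smul (show (0:ℝ) ≤ 1/2 by norm_num)
    have h4 : (1/2 : ℝ) • ((1 - Z) * (1 + Z) * (1 - Z)ᴴ + (1 + Z) * (1 - Z) * (1 + Z)ᴴ)
        = 1 - Z * Z := by
      rw [Matrix.conjTranspose_sub, Matrix.conjTranspose_add, Matrix.conjTranspose_one, hZH]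
      have h5 : (1 - Z) * (1 + Z) * (1 - Z) + (1 + Z) * (1 - Z) * (1 + Z)
          = (2:ℝ) • (1 - Z * Z) := by
        rw [two_smul]
        noncomm_ring
      rw [h5, smul_smul]
      norm_num
    rw [h4] at h3
    exact h3
  have hPD : (1 - Z * Z).PosDef := (Matrix.PosSemidef.posDef_iff_isUnit hps).2 hunit
  have key := ld_le _ hPD
  rw [Matrix.trace_sub, Matrix.trace_one, hdet, Real.log_mul hpd.ne' hmd.ne'] at key
  have l : ld ((1/2 : ℝ) • (X0 + X1)) = 2 * Real.log S.det := by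
    unfold ld
    rw [e, Matrix.det_mul, Matrix.det_transpose, Real.log_mul hSd hSd]
    ring
  have l0 : ld X0 = 2 * Real.log S.det + Real.log (1 + Z).det := by
    unfold ld
    rw [e0, Matrix.det_mul, Matrix.det_mul, Matrix.det_transpose,
      Real.log_mul (mul_ne_zero hSd hpd.ne') hSd, Real.log_mul hSd hpd.ne']
    ring
  have l1 : ld X1 = 2 * Real.log S.det + Real.log (1 - Z).det := by
    unfold ld
    rw [e1, Matrix.det_mul, Matrix.det_mul, Matrix.det_transpose,
      Real.log_mul (mul_ne_zero hSd hmd.ne') hSd, Real.log_mul hSd hmd.ne']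
    ring
  unfold LD
  rw [l, l0, l1]
  linarith

end TH71
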