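import Pool.Agent.Helper71.TH.Defs

set_option autoImplicit false
set_option linter.unusedVariables false

open Matrix

namespace TH71



open scoped MatrixOrder in
theorem hx_exists {n : Type*} [Fintype n] [DecidableEq n] (X : Matrix n n ℝ)
    (h : X.PosDef) : ∃ S : Matrix n n ℝ, IsUnit S.det ∧ X = S * Sᵀ := by
  obtain ⟨y, hy⟩ := CStarAlgebra.nonneg_iff_eq_star_mul_self.mp h.posSemidef.nonneg
  have hy' : X = yᵀ * yᵀᵀ := by
    rw [hy, Matrix.transpose_transpose, Matrix.star_eq_conjTranspose,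
      Matrix.conjTranspose_eq_transpose_of_trivial]
  refine ⟨yᵀ, ?_, hy'⟩
  have hd : X.det ≠ 0 := h.det_pos.ne'
  rw [hy', Matrix.det_mul] at hd
  exact isUnit_iff_ne_zero.mpr (left_ne_zero_of_mul hd)

theorem hx_pd {n : Type*} [Fintype n] [DecidableEq n] (S Y : Matrix n n ℝ)
    (hS : IsUnit S.det) (h : (S * Y * Sᵀ).PosDef) : Y.PosDef := by
  have hU : IsUnit S := (Matrix.isUnit_iff_isUnit_det S).mpr hS
  have h2 : (S * Y * star S).PosDef := by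
    rw [Matrix.star_eq_conjTranspose, Matrix.conjTranspose_eq_transpose_of_trivial]
    exact h
  exact (Matrix.IsUnit.posDef_star_right_conjugate_iff hU).mp h2

theorem factor {n : Type*} [Fintype n] [DecidableEq n] (X0 X1 : Matrix n n ℝ)
    (h0 : X0.PosSemidef) (h1 : X1.PosSemidef) :
    ∃ S Z : Matrix n n ℝ, IsUnit S.det ∧ Zᵀ = Z ∧ (1 + Z).PosDef ∧ (1 - Z).PosDef ∧
      1 + (1/2 : ℝ) • (X0 + X1) = S * Sᵀ ∧ 1 + X0 = S * (1 + Z) * Sᵀ ∧
      1 + X1 = S * (1 - Z) * Sᵀ := by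
  have e0 : (1 + X0).PosDef := Matrix.PosDef.one.add_posSemidef h0
  have e1 : (1 + X1).PosDef := Matrix.PosDef.one.add_posSemidef h1
  have t0 : X0ᵀ = X0 := by
    have := h0.1
    rwa [Matrix.IsHermitian, Matrix.conjTranspose_eq_transpose_of_trivial] at this
  have t1 : X1ᵀ = X1 := by
    have := h1.1
    rwa [Matrix.IsHermitian, Matrix.conjTranspose_eq_transpose_of_trivial] at this
  have eb : (1 + (1/2 : ℝ) • (X0 + X1)).PosDef :=
    Matrix.PosDef.one.add_posSemidef ((h0.add h1).smul (by norm_num))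
  obtain ⟨S, hS, hSS⟩ := hx_exists _ eb
  have hSt : IsUnit (Sᵀ).det := by rwa [Matrix.det_transpose]
  have k1 : S * S⁻¹ = 1 := Matrix.mul_nonsing_inv S hS
  have k2 : (Sᵀ)⁻¹ * Sᵀ = 1 := Matrix.nonsing_inv_mul _ hSt
  have key : S * (S⁻¹ * ((1/2 : ℝ) • (X0 - X1)) * (Sᵀ)⁻¹) * Sᵀ = (1/2 : ℝ) • (X0 - X1) := by
    calc S * (S⁻¹ * ((1/2 : ℝ) • (X0 - X1)) * (Sᵀ)⁻¹) * Sᵀ
        = (S * S⁻¹) * ((1/2 : ℝ) • (X0 - X1)) * ((Sᵀ)⁻¹ * Sᵀ) := by
          simp only [Matrix.mul_assoc]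
      _ = _ := by rw [k1, k2, Matrix.one_mul, Matrix.mul_one]
  have f0 : 1 + X0 = S * (1 + S⁻¹ * ((1/2 : ℝ) • (X0 - X1)) * (Sᵀ)⁻¹) * Sᵀ := by
    rw [Matrix.mul_add, Matrix.add_mul, key, Matrix.mul_one, ← hSS]
    ext i j
    simp only [Matrix.add_apply, Matrix.smul_apply, Matrix.sub_apply, smul_eq_mul]
    ring
  have f1 : 1 + X1 = S * (1 - S⁻¹ * ((1/2 : ℝ) • (X0 - X1)) * (Sᵀ)⁻¹) * Sᵀ := by
    rw [Matrix.mul_sub, Matrix.sub_mul, key, Matrix.mul_one, ← hSS]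
    ext i j
    simp only [Matrix.add_apply, Matrix.smul_apply, Matrix.sub_apply, smul_eq_mul]
    ring
  refine ⟨S, S⁻¹ * ((1/2 : ℝ) • (X0 - X1)) * (Sᵀ)⁻¹, hS, ?_, ?_, ?_, hSS, f0, f1⟩
  · rw [Matrix.transpose_mul, Matrix.transpose_mul, Matrix.transpose_smul,
      Matrix.transpose_sub, t0, t1, Matrix.transpose_nonsing_inv, Matrix.transpose_transpose,
      Matrix.transpose_nonsing_inv, Matrix.mul_assoc]
  · exact hx_pd S _ hS (f0 ▸ e0)
  · exact hx_pd S _ hS (f1 ▸ e1)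

end TH71
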