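import Pool.Agent.Helper71.TH.Defs
import Pool.Agent.Helper71.TH.P_factor
import Pool.Agent.Helper71.TH.P_LD_ge

set_option autoImplicit false
set_option linter.unusedVariables false

open Matrix

namespace TH71



theorem LD_nonneg {n : Type*} [Fintype n] [DecidableEq n] (X0 X1 : Matrix n n ℝ)
    (h0 : X0.PosSemidef) (h1 : X1.PosSemidef) : 0 ≤ LD X0 X1 := by
  obtain ⟨S, Z, hS, hZ, hp, hm, e, e0, e1⟩ := factor X0 X1 h0 h1
  have h := LD_ge X0 X1 S Z hS hZ hp hm e e0 e1
  have h2 : 0 ≤ (Z * Z).trace := by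
    have : (Z * Z).trace = ∑ i, ∑ j, Z i j ^ 2 := by
      simp only [Matrix.trace, Matrix.diag, Matrix.mul_apply]
      refine Finset.sum_congr rfl fun i _ => Finset.sum_congr rfl fun j _ => ?_
      have hij : Z j i = Z i j := by
        conv_lhs => rw [← hZ]
        rfl
      rw [hij, sq]
    rw [this]
    positivity
  linarith

end TH71
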