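import Pool.Agent.Helper71.TH.Defs

set_option autoImplicit false
set_option linter.unusedVariables false

open Matrix

namespace TH71



theorem gram_par {ι : Type*} [Fintype ι] [DecidableEq ι] (f : Bool → Bool → Matrix ι ι ℝ) :
    (par f)ᵀ * par f = (1/2 : ℝ) • ((row (f false))ᵀ * row (f false) + (row (f true))ᵀ * row (f true)) := by
  have h2 : (Real.sqrt 2)⁻¹ * (Real.sqrt 2)⁻¹ = 1 / 2 := by
    rw [← mul_inv, Real.mul_self_sqrt (by norm_num)]
    norm_num
  ext p q
  simp only [par, row, Matrix.mul_apply, Matrix.transpose_apply, Matrix.smul_apply,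
    Matrix.add_apply, Fintype.sum_prod_type, Fintype.sum_bool, smul_eq_mul]
  rw [add_comm, mul_add, Finset.mul_sum, Finset.mul_sum]
  congr 1
  · apply Finset.sum_congr rfl
    intro i _
    calc 1 / 2 * f false p.1 i p.2 * (1 / 2 * f false q.1 i q.2)
        = 1 / 2 * (1 / 2) * (f false p.1 i p.2 * f false q.1 i q.2) := by ring
      _ = 1 / 2 * ((Real.sqrt 2)⁻¹ * (Real.sqrt 2)⁻¹) * (f false p.1 i p.2 * f false q.1 i q.2) := by
          rw [h2]
      _ = _ := by ring
  · apply Finset.sum_congr rfl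
    intro i _
    calc 1 / 2 * f true p.1 i p.2 * (1 / 2 * f true q.1 i q.2)
        = 1 / 2 * (1 / 2) * (f true p.1 i p.2 * f true q.1 i q.2) := by ring
      _ = 1 / 2 * ((Real.sqrt 2)⁻¹ * (Real.sqrt 2)⁻¹) * (f true p.1 i p.2 * f true q.1 i q.2) := by
          rw [h2]
      _ = _ := by ring

end TH71
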