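import Pool.Agent.Helper71.TH.Defs

set_option autoImplicit false
set_option linter.unusedVariables false

open Matrix

namespace TH71



theorem gram_row {ι : Type*} [Fintype ι] [DecidableEq ι] (f : Bool → Matrix ι ι ℝ) :
    row f * (row f)ᵀ = (1/2 : ℝ) • (f false * (f false)ᵀ + f true * (f true)ᵀ) := by
  ext i j
  have h2 : (Real.sqrt 2)⁻¹ * (Real.sqrt 2)⁻¹ = (1 / 2 : ℝ) := by
    rw [← mul_inv, Real.mul_self_sqrt (by norm_num)]
    norm_num
  simp only [Matrix.mul_apply, Matrix.transpose_apply, Matrix.smul_apply, Matrix.add_apply,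
    smul_eq_mul, row]
  rw [Fintype.sum_prod_type, Fintype.sum_bool, mul_add, Finset.mul_sum, Finset.mul_sum, add_comm]
  congr 1
  · refine Finset.sum_congr rfl fun x _ => ?_
    show (Real.sqrt 2)⁻¹ * f false i x * ((Real.sqrt 2)⁻¹ * f false j x) =
      1 / 2 * (f false i x * f false j x)
    rw [← h2]; ring
  · refine Finset.sum_congr rfl fun x _ => ?_
    show (Real.sqrt 2)⁻¹ * f true i x * ((Real.sqrt 2)⁻¹ * f true j x) =
      1 / 2 * (f true i x * f true j x)
    rw [← h2]; ring

end TH71
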