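import Pool.Agent.Helper71.TH.Defs

set_option autoImplicit false
set_option linter.unusedVariables false

open Matrix

namespace TH71



theorem ld_comm {m n : Type*} [Fintype m] [Fintype n] [DecidableEq m] [DecidableEq n]
    (A : Matrix m n ℝ) : ld (Aᵀ * A) = ld (A * Aᵀ) := by
  unfold ld
  rw [Matrix.det_one_add_mul_comm]

end TH71
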