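import Pool.Agent.Helper71.TH.Defs
import Pool.Agent.Helper71.TH.P_gram_par
import Pool.Agent.Helper71.TH.P_gram_row
import Pool.Agent.Helper71.TH.P_ld_comm

set_option autoImplicit false
set_option linter.unusedVariables false

open Matrix

namespace TH71



/-- chain rule, rows first -/
theorem Psi_defect {ι : Type*} [Fintype ι] [DecidableEq ι] (f : Bool → Bool → Matrix ι ι ℝ) :
    (1/4) * (∑ a, ∑ b, Psi (f a b)) - Psi (par f) =
      LD ((row (f false))ᵀ * row (f false)) ((row (f true))ᵀ * row (f true)) +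
      (1/2) * ∑ a, LD (f a false * (f a false)ᵀ) (f a true * (f a true)ᵀ) := by
  have htr : ∀ a, ((row (f a))ᵀ * row (f a)).trace =
      (1/2) * (((f a false)ᵀ * f a false).trace + ((f a true)ᵀ * f a true).trace) := by
    intro a
    rw [Matrix.trace_mul_comm, gram_row, Matrix.trace_smul, Matrix.trace_add,
      Matrix.trace_mul_comm (f a false), Matrix.trace_mul_comm (f a true), smul_eq_mul]
  have hld : ∀ a, ld ((row (f a))ᵀ * row (f a)) =
      ld ((1/2 : ℝ) • (f a false * (f a false)ᵀ + f a true * (f a true)ᵀ)) := by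
    intro a
    rw [ld_comm, gram_row]
  have hc : ∀ a b, ld ((f a b)ᵀ * f a b) = ld (f a b * (f a b)ᵀ) := fun a b => ld_comm _
  have hpt : ((par f)ᵀ * par f).trace = (1/2) * (((row (f false))ᵀ * row (f false)).trace
      + ((row (f true))ᵀ * row (f true)).trace) := by
    rw [gram_par, Matrix.trace_smul, Matrix.trace_add, smul_eq_mul]
  have hpl : ld ((par f)ᵀ * par f) = ld ((1/2 : ℝ) • ((row (f false))ᵀ * row (f false)
      + (row (f true))ᵀ * row (f true))) := by
    rw [gram_par]
  simp only [Fintype.sum_bool, Psi, LD]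
  rw [hpt, hpl, htr, htr, hld, hld, hc, hc, hc, hc]
  ring

end TH71
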