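import Pool.Agent.Helper71.TH.Defs
import Pool.Agent.Helper71.TH.P_ld_comm

set_option autoImplicit false
set_option linter.unusedVariables false

open Matrix

namespace TH71



theorem Psi_transpose {m n : Type*} [Fintype m] [Fintype n] [DecidableEq m] [DecidableEq n]
    (A : Matrix m n ℝ) : Psi Aᵀ = Psi A := by
  unfold Psi
  rw [Matrix.transpose_transpose, ld_comm A, Matrix.trace_mul_comm]

end TH71
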