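import Pool.Agent.Helper71.TH.Defs

set_option autoImplicit false
set_option linter.unusedVariables false

open Matrix

namespace TH71



theorem par_transpose {ι : Type*} [Fintype ι] [DecidableEq ι] (f : Bool → Bool → Matrix ι ι ℝ) :
    (par f)ᵀ = par (fun a b => (f b a)ᵀ) ∧ ∀ c, (row (fun b => (f b c)ᵀ)) = (col (fun b => f b c))ᵀ := by
  constructor
  · ext p q
    simp [par, Matrix.transpose_apply]
  · intro c
    ext i q
    simp [row, col, Matrix.transpose_apply]

end TH71
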