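import Pool.Agent.Helper71.TH.Defs
import Pool.Agent.Helper71.TH.P_factor

set_option autoImplicit false
set_option linter.unusedVariables false

open Matrix

namespace TH71



theorem Delta_psd {n : Type*} [Fintype n] [DecidableEq n] (X0 X1 : Matrix n n ℝ)
    (h0 : X0.PosSemidef) (h1 : X1.PosSemidef) :
    ((1/2 : ℝ) • ((1 + X0)⁻¹ + (1 + X1)⁻¹) - (1 + (1/2 : ℝ) • (X0 + X1))⁻¹).PosSemidef := by
  obtain ⟨S, Z, hS, hZ, hp, hm, e0, e1, e2⟩ := factor X0 X1 h0 h1
  rw [e0, e1, e2]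
  have hA := hp.inv.posSemidef
  have hB := hm.inv.posSemidef
  have hpu : IsUnit (1 + Z).det := (Matrix.isUnit_iff_isUnit_det _).mp hp.isUnit
  have hmu : IsUnit (1 - Z).det := (Matrix.isUnit_iff_isUnit_det _).mp hm.isUnit
  set A := (1 + Z)⁻¹ with hAd
  set B := (1 - Z)⁻¹ with hBd
  have a1 : (1 + Z) * A = 1 := Matrix.mul_nonsing_inv _ hpu
  have a2 : A * (1 + Z) = 1 := Matrix.nonsing_inv_mul _ hpu
  have b1 : (1 - Z) * B = 1 := Matrix.mul_nonsing_inv _ hmu
  have b2 : B * (1 - Z) = 1 := Matrix.nonsing_inv_mul _ hmu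
  have hAe : A = 1 - Z + Z * A * Z := by
    have h3 : A = 1 - Z * A := by
      rw [← a1]
      noncomm_ring
    have h4 : A = 1 - A * Z := by
      rw [← a2]
      noncomm_ring
    have h5 : Z * A = Z - Z * A * Z := by
      calc Z * A = Z * (1 - A * Z) := by rw [← h4]
        _ = Z - Z * A * Z := by noncomm_ring
    calc A = 1 - Z * A := h3
      _ = 1 - (Z - Z * A * Z) := by rw [← h5]
      _ = _ := by noncomm_ring
  have hBe : B = 1 + Z + Z * B * Z := by
    have h3 : B = 1 + Z * B := by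
      rw [← b1]
      noncomm_ring
    have h4 : B = 1 + B * Z := by
      rw [← b2]
      noncomm_ring
    have h5 : Z * B = Z + Z * B * Z := by
      calc Z * B = Z * (1 + B * Z) := by rw [← h4]
        _ = Z + Z * B * Z := by noncomm_ring
    calc B = 1 + Z * B := h3
      _ = 1 + (Z + Z * B * Z) := by rw [← h5]
      _ = _ := by noncomm_ring
  have hST : Sᵀ⁻¹ = S⁻¹ᵀ := (Matrix.transpose_nonsing_inv S).symm
  have hfin : (1/2 : ℝ) • ((S * (1 + Z) * Sᵀ)⁻¹ + (S * (1 - Z) * Sᵀ)⁻¹) - (S * Sᵀ)⁻¹ =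
      (S⁻¹)ᴴ * ((1/2 : ℝ) • (Zᴴ * A * Z + Zᴴ * B * Z)) * S⁻¹ := by
    have hZc : Zᴴ = Z := by rw [Matrix.conjTranspose_eq_transpose_of_trivial, hZ]
    rw [hZc, Matrix.conjTranspose_eq_transpose_of_trivial, ← hST, Matrix.mul_inv_rev,
      Matrix.mul_inv_rev, Matrix.mul_inv_rev, Matrix.mul_inv_rev, Matrix.mul_inv_rev, ← hAd, ← hBd]
    have e : Z * A * Z + Z * B * Z = A + B - (2 : ℝ) • (1 : Matrix n n ℝ) := by
      have h6 : Z * A * Z = A - 1 + Z := by
        calc Z * A * Z = (1 - Z + Z * A * Z) - 1 + Z := by noncomm_ring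
          _ = _ := by rw [← hAe]
      have h7 : Z * B * Z = B - 1 - Z := by
        calc Z * B * Z = (1 + Z + Z * B * Z) - 1 - Z := by noncomm_ring
          _ = _ := by rw [← hBe]
      rw [h6, h7, two_smul]
      noncomm_ring
    rw [e]
    simp only [smul_sub, smul_add, Matrix.mul_sub, Matrix.sub_mul, Matrix.mul_add, Matrix.add_mul,
      Matrix.mul_smul, Matrix.smul_mul, Matrix.mul_one, smul_smul, Matrix.mul_assoc]
    norm_num
  rw [hfin]
  refine Matrix.PosSemidef.conjTranspose_mul_mul_same ?_ _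
  exact ((hA.conjTranspose_mul_mul_same Z).add (hB.conjTranspose_mul_mul_same Z)).smul (by norm_num)

end TH71
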