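import Pool.Agent.Helper71.TH.Defs
import Pool.Agent.Helper71.TH.P_trace_mul_nonneg

set_option autoImplicit false
set_option linter.unusedVariables false

open Matrix

namespace TH71



theorem Delta_half {n : Type*} [Fintype n] [DecidableEq n] (X0 S T Z : Matrix n n ℝ)
    (h0 : X0.PosSemidef) (hST : S * T = 1) (hTS : T * S = 1) (hZ : Zᵀ = Z)
    (hp : (1 + Z).PosDef) (e0 : 1 + X0 = S * (1 + Z) * Sᵀ) :
    (1 + X0)⁻¹.trace ≤ (T * Tᵀ).trace - (Z * (T * Tᵀ)).trace + (Z * Z).trace := by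
  have hTt : Sᵀ * Tᵀ = 1 := by rw [← Matrix.transpose_mul, hTS, Matrix.transpose_one]
  have hTt' : Tᵀ * Sᵀ = 1 := by rw [← Matrix.transpose_mul, hST, Matrix.transpose_one]
  set A := (1 + Z)⁻¹ with hA
  have hu : IsUnit (1 + Z).det := (Matrix.isUnit_iff_isUnit_det _).1 hp.isUnit
  have hA1 : A * (1 + Z) = 1 := Matrix.nonsing_inv_mul _ hu
  have hA2 : (1 + Z) * A = 1 := Matrix.mul_nonsing_inv _ hu
  have hApd : A.PosDef := hp.inv
  have hinv : (1 + X0)⁻¹ = Tᵀ * A * T := by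
    apply Matrix.inv_eq_right_inv
    rw [e0]
    calc S * (1 + Z) * Sᵀ * (Tᵀ * A * T) = S * (1 + Z) * (Sᵀ * Tᵀ) * A * T := by noncomm_ring
      _ = S * ((1 + Z) * A) * T := by rw [hTt]; noncomm_ring
      _ = 1 := by rw [hA2, mul_one, hST]
  have hAe : A = 1 - Z + Z * A * Z := by
    have h1 : A * Z = Z * A := by
      have h2 : A * (1 + Z) = (1 + Z) * A := by rw [hA1, hA2]
      have h3 : A * (1 + Z) = A + A * Z := by noncomm_ring
      have h4 : (1 + Z) * A = A + Z * A := by noncomm_ring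
      rw [h3, h4] at h2
      exact add_left_cancel h2
    have h5 : A + A * Z = 1 := by rw [← hA1]; noncomm_ring
    have h6 : A * Z = 1 - A := by rw [← h5]; abel
    have h7 : Z * A * Z = Z - A * Z := by
      rw [mul_assoc, h6, mul_sub, mul_one, ← h1, h6]
    rw [h7, h6]; abel
  have hK : (1 + Z - T * Tᵀ) = T * X0 * Tᵀ := by
    have : X0 = S * (1 + Z) * Sᵀ - 1 := by rw [← e0]; abel
    rw [this]
    calc 1 + Z - T * Tᵀ = (T * S) * (1 + Z) * (Sᵀ * Tᵀ) - T * Tᵀ := by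
          rw [hTS, hTt]; noncomm_ring
      _ = _ := by noncomm_ring
  have hKp : (1 + Z - T * Tᵀ).PosSemidef := by
    rw [hK]
    have := h0.mul_mul_conjTranspose_same T
    simpa [Matrix.conjTranspose_eq_transpose_of_trivial] using this
  have hM : (Z * A * Z).PosSemidef := by
    have := hApd.posSemidef.mul_mul_conjTranspose_same Z
    simpa [Matrix.conjTranspose_eq_transpose_of_trivial, hZ] using this
  have hkey := trace_mul_nonneg _ _ hM hKp
  have e1 : Z * A * Z * (1 + Z - T * Tᵀ) = Z * (A * (1 + Z)) * Z - Z * A * Z * (T * Tᵀ) := by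
    noncomm_ring
  rw [e1, hA1, mul_one, Matrix.trace_sub] at hkey
  have e2 : (1 + X0)⁻¹.trace = (A * (T * Tᵀ)).trace := by
    rw [hinv, mul_assoc, Matrix.trace_mul_comm, mul_assoc]
  have e3 : (A * (T * Tᵀ)).trace = (T * Tᵀ).trace - (Z * (T * Tᵀ)).trace +
      (Z * A * Z * (T * Tᵀ)).trace := by
    conv_lhs => rw [hAe]
    rw [add_mul, sub_mul, one_mul, Matrix.trace_add, Matrix.trace_sub]
  rw [e2, e3]
  linarith

theorem Delta_trace {n : Type*} [Fintype n] [DecidableEq n] (X0 X1 S Z : Matrix n n ℝ)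
    (h0 : X0.PosSemidef) (h1 : X1.PosSemidef)
    (hS : IsUnit S.det) (hZ : Zᵀ = Z) (hp : (1 + Z).PosDef) (hm : (1 - Z).PosDef)
    (e : 1 + (1/2 : ℝ) • (X0 + X1) = S * Sᵀ) (e0 : 1 + X0 = S * (1 + Z) * Sᵀ)
    (e1 : 1 + X1 = S * (1 - Z) * Sᵀ) :
    ((1/2 : ℝ) • ((1 + X0)⁻¹ + (1 + X1)⁻¹) - (1 + (1/2 : ℝ) • (X0 + X1))⁻¹).trace
      ≤ (Z * Z).trace := by
  have hST : S * S⁻¹ = 1 := Matrix.mul_nonsing_inv _ hS
  have hTS : S⁻¹ * S = 1 := Matrix.nonsing_inv_mul _ hS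
  set T := S⁻¹ with hT
  have hTt : Sᵀ * Tᵀ = 1 := by rw [← Matrix.transpose_mul, hTS, Matrix.transpose_one]
  have a0 := Delta_half X0 S T Z h0 hST hTS hZ hp e0
  have a1 := Delta_half X1 S T (-Z) h1 hST hTS (by rw [Matrix.transpose_neg, hZ])
    (by rw [← sub_eq_add_neg]; exact hm) (by rw [e1, sub_eq_add_neg])
  have hinv : (1 + (1/2 : ℝ) • (X0 + X1))⁻¹ = Tᵀ * T := by
    apply Matrix.inv_eq_right_inv
    rw [e]
    calc S * Sᵀ * (Tᵀ * T) = S * (Sᵀ * Tᵀ) * T := by noncomm_ring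
      _ = 1 := by rw [hTt, mul_one, hST]
  rw [Matrix.trace_sub, Matrix.trace_smul, Matrix.trace_add, hinv, Matrix.trace_mul_comm Tᵀ T]
  rw [neg_mul, neg_mul_neg, Matrix.trace_neg] at a1
  rw [smul_eq_mul]
  linarith

end TH71
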