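import Pool.Agent.Helper71.TH.Defs
import Pool.Agent.Helper71.TH.P_factor
import Pool.Agent.Helper71.TH.P_LD_ge
import Pool.Agent.Helper71.TH.P_trace_mul_nonneg
import Pool.Agent.Helper71.TH.P_Delta_psd
import Pool.Agent.Helper71.TH.P_Delta_trace
import Pool.Agent.Helper71.TH.P_P_bounds
import Pool.Agent.Helper71.TH.P_gram_par
import Pool.Agent.Helper71.TH.P_par_transpose

set_option autoImplicit false
set_option linter.unusedVariables false

open Matrix

namespace TH71



theorem h319_defect {n : Type*} [Fintype n] [DecidableEq n] (X0 X1 : Matrix n n ℝ)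
    (h0 : X0.PosSemidef) (h1 : X1.PosSemidef) :
    ∃ D : Matrix n n ℝ, D.PosSemidef ∧ D.trace ≤ 2 * LD X0 X1 ∧
      1 - (1 + (1/2 : ℝ) • (X0 + X1))⁻¹ =
        (1/2 : ℝ) • ((1 - (1 + X0)⁻¹) + (1 - (1 + X1)⁻¹)) + D := by
  obtain ⟨S, Z, hS, hZ, hp, hm, e, e0, e1⟩ := factor X0 X1 h0 h1
  refine ⟨(1/2 : ℝ) • ((1 + X0)⁻¹ + (1 + X1)⁻¹) - (1 + (1/2 : ℝ) • (X0 + X1))⁻¹,
    Delta_psd X0 X1 h0 h1,
    (Delta_trace X0 X1 S Z h0 h1 hS hZ hp hm e e0 e1).trans
      (LD_ge X0 X1 S Z hS hZ hp hm e e0 e1), ?_⟩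
  have h2 : (1 : Matrix n n ℝ) = (1/2 : ℝ) • (1 + 1) := by
    rw [← two_smul ℝ (1 : Matrix n n ℝ), smul_smul]
    norm_num
  have h3 : (1/2 : ℝ) • ((1 - (1 + X0)⁻¹) + (1 - (1 + X1)⁻¹)) =
      1 - (1/2 : ℝ) • ((1 + X0)⁻¹ + (1 + X1)⁻¹) := by
    rw [sub_add_sub_comm, smul_sub, ← h2]
  rw [h3]
  abel

theorem h319_tr_le {n : Type*} [Fintype n] [DecidableEq n] (D q : Matrix n n ℝ)
    (hD : D.PosSemidef) (hq : (1 - q).PosSemidef) : (D * q).trace ≤ D.trace := by
  have h := trace_mul_nonneg D (1 - q) hD hq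
  rw [mul_sub, mul_one, trace_sub] at h
  linarith

theorem h319_tr_le' {n : Type*} [Fintype n] [DecidableEq n] (D q : Matrix n n ℝ)
    (hD : D.PosSemidef) (hq : (1 - q).PosSemidef) : (q * D).trace ≤ D.trace := by
  rw [trace_mul_comm]
  exact h319_tr_le D q hD hq

theorem h319_main {n : Type*} [Fintype n] [DecidableEq n]
    (s p p0 p1 q q0 q1 Df Dg : Matrix n n ℝ) (hs : s * s = 1) (hsT : sᴴ = s)
    (hp : p = (1/2 : ℝ) • (p0 + p1) + Df) (hq : q = (1/2 : ℝ) • (q0 + q1) + Dg)
    (hDf : Df.PosSemidef) (hDg : Dg.PosSemidef) (hq1 : (1 - q).PosSemidef)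
    (hp0 : (1 - p0).PosSemidef) (hp1 : (1 - p1).PosSemidef) :
    (p * q).trace + (1/2) * (p * s * q * s).trace ≤
      (1/4) * (((p1 * q1).trace + (1/2) * (p1 * s * q1 * s).trace +
        ((p1 * q0).trace + (1/2) * (p1 * s * q0 * s).trace)) +
        ((p0 * q1).trace + (1/2) * (p0 * s * q1 * s).trace +
        ((p0 * q0).trace + (1/2) * (p0 * s * q0 * s).trace))) +
      (3/2) * (Df.trace + Dg.trace) := by
  have hpb : (1 - (1/2 : ℝ) • (p0 + p1)).PosSemidef := by
    have h2 : (1 : Matrix n n ℝ) = (1/2 : ℝ) • (1 + 1) := by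
      rw [← two_smul ℝ (1 : Matrix n n ℝ), smul_smul]
      norm_num
    have h3 : 1 - (1/2 : ℝ) • (p0 + p1) = (1/2 : ℝ) • ((1 - p0) + (1 - p1)) := by
      rw [sub_add_sub_comm, smul_sub, ← h2]
    rw [h3]
    exact (hp0.add hp1).smul (by norm_num)
  have hcj : ∀ M : Matrix n n ℝ, M.PosSemidef → (s * M * s).PosSemidef := by
    intro M hM
    have h := hM.mul_mul_conjTranspose_same s
    rwa [hsT] at h
  have hsq : (1 - s * q * s).PosSemidef := by
    have h := hcj _ hq1
    rwa [mul_sub, mul_one, sub_mul, hs] at h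
  have htr : (s * Dg * s).trace = Dg.trace := by
    rw [trace_mul_comm, ← mul_assoc, hs, one_mul]
  set pb := (1/2 : ℝ) • (p0 + p1) with hpbd
  set qb := (1/2 : ℝ) • (q0 + q1) with hqbd
  have e1 : (p * q).trace = (pb * qb).trace + (pb * Dg).trace + (Df * q).trace := by
    rw [← trace_add, ← trace_add]
    congr 1
    rw [← mul_add, ← hq, ← add_mul, ← hp]
  have e2 : (p * s * q * s).trace = (pb * s * qb * s).trace + (pb * (s * Dg * s)).trace +
      (Df * (s * q * s)).trace := by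
    rw [← trace_add, ← trace_add]
    congr 1
    have h5 : pb * s * qb * s + pb * (s * Dg * s) = pb * (s * q * s) := by
      rw [hq]
      noncomm_ring
    rw [h5, ← add_mul, ← hp]
    simp only [mul_assoc]
  have l1 := h319_tr_le' Dg pb hDg hpb
  have l2 := h319_tr_le Df q hDf hq1
  have l3 := h319_tr_le' (s * Dg * s) pb (hcj _ hDg) hpb
  have l4 := h319_tr_le Df (s * q * s) hDf hsq
  have e3 : (pb * qb).trace = (1/4) * ((p1 * q1).trace + (p1 * q0).trace + (p0 * q1).trace +
      (p0 * q0).trace) := by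
    rw [hpbd, hqbd]
    simp only [smul_mul_assoc, mul_smul_comm, mul_add, add_mul, trace_add, trace_smul,
      smul_eq_mul]
    ring
  have e4 : (pb * s * qb * s).trace = (1/4) * ((p1 * s * q1 * s).trace +
      (p1 * s * q0 * s).trace + (p0 * s * q1 * s).trace + (p0 * s * q0 * s).trace) := by
    rw [hpbd, hqbd]
    simp only [smul_mul_assoc, mul_smul_comm, mul_add, add_mul, trace_add, trace_smul,
      smul_eq_mul]
    ring
  rw [htr] at l3
  rw [e1, e2, e3, e4]
  linarith

theorem h319_sg (ι : Type*) [Fintype ι] [DecidableEq ι] : sg ι * sg ι = 1 ∧ (sg ι)ᴴ = sg ι := by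
  constructor
  · unfold sg
    rw [diagonal_mul_diagonal, ← diagonal_one]
    congr 1
    funext p
    split_ifs <;> norm_num
  · unfold sg
    rw [diagonal_conjTranspose]
    congr 1

theorem h319_gram_psd {m n : Type*} [Fintype m] [Fintype n] (A : Matrix m n ℝ) :
    (Aᵀ * A).PosSemidef := by
  have h := posSemidef_conjTranspose_mul_self A
  rwa [conjTranspose_eq_transpose_of_trivial] at h

/-- Step 1: rows of `f`, columns of `g` -/
theorem step1 {ι : Type*} [Fintype ι] [DecidableEq ι] (f g : Bool → Bool → Matrix ι ι ℝ) :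
    (P (par f) * P (par g)ᵀ).trace + (1/2) * E (sg ι) (par f) (par g) ≤
      (1/4) * (∑ a, ∑ c, ((P (row (f a)) * P (col (fun b => g b c))ᵀ).trace +
        (1/2) * (P (row (f a)) * sg ι * P (col (fun b => g b c))ᵀ * sg ι).trace)) +
      3 * LD ((row (f false))ᵀ * row (f false)) ((row (f true))ᵀ * row (f true)) +
      3 * LD (col (fun b => g b false) * (col (fun b => g b false))ᵀ)
             (col (fun b => g b true) * (col (fun b => g b true))ᵀ) := by
  obtain ⟨Df, hDf, tDf, eDf⟩ := h319_defect ((row (f false))ᵀ * row (f false))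
    ((row (f true))ᵀ * row (f true)) (h319_gram_psd _) (h319_gram_psd _)
  have hY : ∀ c, (((col (fun b => g b c))ᵀ)ᵀ * (col (fun b => g b c))ᵀ).PosSemidef :=
    fun c => h319_gram_psd _
  obtain ⟨Dg, hDg, tDg, eDg⟩ := h319_defect (((col (fun b => g b false))ᵀ)ᵀ * (col (fun b => g b false))ᵀ)
    (((col (fun b => g b true))ᵀ)ᵀ * (col (fun b => g b true))ᵀ) (hY false) (hY true)
  obtain ⟨hs, hsT⟩ := h319_sg ι
  have hpf : P (par f) = (1/2 : ℝ) • (P (row (f false)) + P (row (f true))) + Df := by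
    unfold P
    rw [gram_par f]
    exact eDf
  have hqg : P (par g)ᵀ = (1/2 : ℝ) • (P (col (fun b => g b false))ᵀ +
      P (col (fun b => g b true))ᵀ) + Dg := by
    unfold P
    rw [(par_transpose g).1, gram_par]
    have h1 := (par_transpose g).2 false
    have h2 := (par_transpose g).2 true
    rw [h1, h2]
    exact eDg
  have hm := h319_main (sg ι) (P (par f)) (P (row (f false))) (P (row (f true)))
    (P (par g)ᵀ) (P (col (fun b => g b false))ᵀ) (P (col (fun b => g b true))ᵀ) Df Dg hs hsT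
    hpf hqg hDf hDg (P_bounds _).2 (P_bounds _).2 (P_bounds _).2
  rw [transpose_transpose, transpose_transpose] at tDg
  have hE : E (sg ι) (par f) (par g) = (P (par f) * sg ι * P (par g)ᵀ * sg ι).trace := rfl
  rw [hE]
  refine hm.trans ?_
  simp only [Fintype.sum_bool]
  linarith

end TH71
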