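import Pool.Agent.Helper71.TH.Defs
import Pool.Agent.Helper71.TH.P_P_bounds
import Pool.Agent.Helper71.TH.P_P_eq

set_option autoImplicit false
set_option linter.unusedVariables false

open Matrix

namespace TH71



theorem contr_aux {ι κ : Type*} [Fintype ι] [DecidableEq ι] [Fintype κ] [DecidableEq κ]
    (S : Matrix ι ι ℝ) (hS : IsUnit S.det) (R : Matrix ι κ ℝ) (Z : Matrix κ κ ℝ)
    (hZ : (1 - Z).PosSemidef) (e : 1 + R * Rᵀ = S * Sᵀ) :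
    (1 - S⁻¹ * (R * Z * Rᵀ) * (S⁻¹)ᵀ).PosSemidef := by
  have h1 : S⁻¹ * (S * Sᵀ) * (S⁻¹)ᵀ = 1 := by
    rw [← Matrix.mul_assoc, Matrix.nonsing_inv_mul S hS, Matrix.one_mul, ← Matrix.transpose_mul,
      Matrix.nonsing_inv_mul S hS, Matrix.transpose_one]
  have h2 : 1 - S⁻¹ * (R * Z * Rᵀ) * (S⁻¹)ᵀ = S⁻¹ * (1 + R * (1 - Z) * Rᵀ) * (S⁻¹)ᵀ := by
    have h3 : 1 + R * (1 - Z) * Rᵀ = S * Sᵀ - R * Z * Rᵀ := by
      rw [← e, Matrix.mul_sub, Matrix.mul_one, Matrix.sub_mul]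
      abel
    rw [h3, Matrix.mul_sub, Matrix.sub_mul, h1]
  rw [h2]
  have h3 : (R * (1 - Z) * Rᵀ).PosSemidef := by
    have := hZ.mul_mul_conjTranspose_same R
    rwa [Matrix.conjTranspose_eq_transpose_of_trivial] at this
  have h4 := (Matrix.PosSemidef.one.add h3).mul_mul_conjTranspose_same S⁻¹
  rwa [Matrix.conjTranspose_eq_transpose_of_trivial] at h4

/-- contraction property -/
theorem contr {ι κ : Type*} [Fintype ι] [DecidableEq ι] [Fintype κ] [DecidableEq κ]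
    (A : Matrix ι κ ℝ) (B : Matrix κ ι ℝ) (s : Matrix κ κ ℝ) (S T : Matrix ι ι ℝ)
    (hs : sᵀ * s = 1) (hs' : s * sᵀ = 1)
    (hS : IsUnit S.det) (hT : IsUnit T.det)
    (eS : 1 + A * Aᵀ = S * Sᵀ) (eT : 1 + Bᵀ * B = T * Tᵀ) :
    (1 - (S⁻¹ * (A * s * B) * (Tᵀ)⁻¹) * (S⁻¹ * (A * s * B) * (Tᵀ)⁻¹)ᵀ).PosSemidef ∧
    (1 - (S⁻¹ * (A * s * B) * (Tᵀ)⁻¹)ᵀ * (S⁻¹ * (A * s * B) * (Tᵀ)⁻¹)).PosSemidef := by
  have hTT : ((Tᵀ)⁻¹)ᵀ = T⁻¹ := by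
    rw [Matrix.transpose_nonsing_inv, Matrix.transpose_transpose]
  constructor
  · have h1 : (S⁻¹ * (A * s * B) * (Tᵀ)⁻¹) * (S⁻¹ * (A * s * B) * (Tᵀ)⁻¹)ᵀ =
        S⁻¹ * ((A * s) * P Bᵀ * (A * s)ᵀ) * (S⁻¹)ᵀ := by
      rw [P_eq, Matrix.transpose_transpose, eT, Matrix.mul_inv_rev]
      simp only [Matrix.transpose_mul, hTT, Matrix.mul_assoc]
    rw [h1]
    refine contr_aux S hS (A * s) (P Bᵀ) (P_bounds Bᵀ).2 ?_
    rw [Matrix.transpose_mul, Matrix.mul_assoc, ← Matrix.mul_assoc s, hs', Matrix.one_mul, eS]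
  · have h1 : (S⁻¹ * (A * s * B) * (Tᵀ)⁻¹)ᵀ * (S⁻¹ * (A * s * B) * (Tᵀ)⁻¹) =
        T⁻¹ * ((s * B)ᵀ * P A * ((s * B)ᵀ)ᵀ) * (T⁻¹)ᵀ := by
      rw [P_eq, eS, Matrix.mul_inv_rev, Matrix.transpose_transpose]
      simp only [Matrix.transpose_mul, hTT, Matrix.mul_assoc, Matrix.transpose_nonsing_inv]
    rw [h1]
    refine contr_aux T hT (s * B)ᵀ (P A) (P_bounds A).2 ?_
    rw [Matrix.transpose_transpose, Matrix.transpose_mul, Matrix.mul_assoc, ← Matrix.mul_assoc sᵀ,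
      hs, Matrix.one_mul, eT]

end TH71
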