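import Pool.Agent.Helper71.TH.Defs
import Pool.Agent.Helper71.TH.P_trace_mul_nonneg

set_option autoImplicit false
set_option linter.unusedVariables false

open Matrix

namespace TH71



/-- trace inner product -/
noncomputable def cpIp {n : Type*} [Fintype n] (A B : Matrix n n ℝ) : ℝ := (A * Bᵀ).trace

theorem cp_ip_comm {n : Type*} [Fintype n] (A B : Matrix n n ℝ) : cpIp A B = cpIp B A := by
  unfold cpIp
  rw [← Matrix.trace_transpose, Matrix.transpose_mul, Matrix.transpose_transpose]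

theorem cp_ip_self_nonneg {n : Type*} [Fintype n] (A : Matrix n n ℝ) : 0 ≤ cpIp A A := by
  unfold cpIp
  rw [Matrix.trace]
  refine Finset.sum_nonneg fun i _ => ?_
  rw [Matrix.diag_apply, Matrix.mul_apply]
  refine Finset.sum_nonneg fun j _ => ?_
  rw [Matrix.transpose_apply]
  exact mul_self_nonneg _

theorem cp_ip_sub_smul {n : Type*} [Fintype n] (A B : Matrix n n ℝ) (c : ℝ) :
    cpIp (A - c • B) (A - c • B) = cpIp A A - 2 * c * cpIp A B + c ^ 2 * cpIp B B := by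
  have h := cp_ip_comm A B
  unfold cpIp at h ⊢
  rw [Matrix.transpose_sub, Matrix.transpose_smul, Matrix.sub_mul, Matrix.mul_sub, Matrix.mul_sub,
    Matrix.smul_mul, Matrix.smul_mul, Matrix.mul_smul, Matrix.mul_smul]
  simp only [Matrix.trace_sub, Matrix.trace_smul, smul_eq_mul]
  rw [← h]
  ring

theorem cp_ip_sq {n : Type*} [Fintype n] (A B : Matrix n n ℝ) (c : ℝ) :
    0 ≤ cpIp A A - 2 * c * cpIp A B + c ^ 2 * cpIp B B := by
  rw [← cp_ip_sub_smul]
  exact cp_ip_self_nonneg _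

theorem cp_left_le {n : Type*} [Fintype n] [DecidableEq n] (Z m : Matrix n n ℝ) (hZ : Zᵀ = Z)
    (h : (1 - m * mᵀ).PosSemidef) : cpIp (Z * m) (Z * m) ≤ (Z * Z).trace := by
  have hp : (Z * Z).PosSemidef := by
    have h2 := Matrix.posSemidef_self_mul_conjTranspose Z
    rwa [Matrix.conjTranspose_eq_transpose_of_trivial, hZ] at h2
  have h3 := trace_mul_nonneg _ _ h hp
  have e : cpIp (Z * m) (Z * m) = (m * mᵀ * (Z * Z)).trace := by
    unfold cpIp
    rw [Matrix.transpose_mul, hZ, Matrix.mul_assoc, Matrix.trace_mul_comm]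
    simp only [Matrix.mul_assoc]
  rw [Matrix.sub_mul, Matrix.one_mul, Matrix.trace_sub] at h3
  rw [e]
  linarith

theorem cp_right_le {n : Type*} [Fintype n] [DecidableEq n] (Z m : Matrix n n ℝ) (hZ : Zᵀ = Z)
    (h : (1 - mᵀ * m).PosSemidef) : cpIp (m * Z) (m * Z) ≤ (Z * Z).trace := by
  have hp : (Z * Z).PosSemidef := by
    have h2 := Matrix.posSemidef_self_mul_conjTranspose Z
    rwa [Matrix.conjTranspose_eq_transpose_of_trivial, hZ] at h2
  have h3 := trace_mul_nonneg _ _ h hp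
  have e : cpIp (m * Z) (m * Z) = (mᵀ * m * (Z * Z)).trace := by
    unfold cpIp
    rw [Matrix.transpose_mul, hZ, ← Matrix.mul_assoc, Matrix.trace_mul_comm]
    simp only [Matrix.mul_assoc]
  rw [Matrix.sub_mul, Matrix.one_mul, Matrix.trace_sub] at h3
  rw [e]
  linarith

theorem cp_expand {n : Type*} [Fintype n] [DecidableEq n] (Z Z' mb mh : Matrix n n ℝ)
    (hZ : Zᵀ = Z) (hZ' : Z'ᵀ = Z') :
    ((1 - Z) * (mb + mh) * (1 - Z') * (mb + mh)ᵀ).trace +
        ((1 + Z) * (mb - mh) * (1 + Z') * (mb - mh)ᵀ).trace =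
      2 * cpIp mb mb + 2 * cpIp mh mh - 4 * cpIp (Z * mb) mh - 4 * cpIp (mb * Z') mh
        + 2 * cpIp (Z * mb) (mb * Z') + 2 * cpIp (Z * mh) (mh * Z') := by
  have e1 : cpIp (Z * mb) mh = (Z * mh * mbᵀ).trace := by
    unfold cpIp
    rw [← Matrix.trace_transpose, Matrix.transpose_mul, Matrix.transpose_transpose,
      Matrix.transpose_mul, hZ, ← Matrix.mul_assoc, Matrix.trace_mul_comm, ← Matrix.mul_assoc]
  have e2 : cpIp (mb * Z') mh = (mh * Z' * mbᵀ).trace := by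
    unfold cpIp
    rw [← Matrix.trace_transpose, Matrix.transpose_mul, Matrix.transpose_transpose,
      Matrix.transpose_mul, hZ', ← Matrix.mul_assoc]
  have e3 : cpIp (Z * mb) (mb * Z') = (Z * mb * Z' * mbᵀ).trace := by
    unfold cpIp
    rw [Matrix.transpose_mul, hZ', ← Matrix.mul_assoc]
  have e4 : cpIp (Z * mh) (mh * Z') = (Z * mh * Z' * mhᵀ).trace := by
    unfold cpIp
    rw [Matrix.transpose_mul, hZ', ← Matrix.mul_assoc]
  have hM : (1 - Z) * (mb + mh) * (1 - Z') * (mb + mh)ᵀ +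
      (1 + Z) * (mb - mh) * (1 + Z') * (mb - mh)ᵀ =
      (mb * mbᵀ + mb * mbᵀ) + (mh * mhᵀ + mh * mhᵀ)
        - (Z * mb * mhᵀ + Z * mb * mhᵀ) - (Z * mh * mbᵀ + Z * mh * mbᵀ)
        - (mb * Z' * mhᵀ + mb * Z' * mhᵀ) - (mh * Z' * mbᵀ + mh * Z' * mbᵀ)
        + (Z * mb * Z' * mbᵀ + Z * mb * Z' * mbᵀ) + (Z * mh * Z' * mhᵀ + Z * mh * Z' * mhᵀ) := by
    rw [Matrix.transpose_add, Matrix.transpose_sub]
    noncomm_ring
  rw [← Matrix.trace_add, hM]
  simp only [Matrix.trace_add, Matrix.trace_sub]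
  rw [← e1, ← e2, ← e3, ← e4]
  unfold cpIp
  ring

theorem core_poly {n : Type*} [Fintype n] [DecidableEq n] (Z Z' mb mh : Matrix n n ℝ)
    (hZ : Zᵀ = Z) (hZ' : Z'ᵀ = Z')
    (h1 : (1 - mb * mbᵀ).PosSemidef) (h2 : (1 - mbᵀ * mb).PosSemidef)
    (h3 : (1 - mh * mhᵀ).PosSemidef) (h4 : (1 - mhᵀ * mh).PosSemidef) :
    (mb * mbᵀ).trace + (1/2) * (mh * mhᵀ).trace ≤
      (1/2) * (((1 - Z) * (mb + mh) * (1 - Z') * (mb + mh)ᵀ).trace +
        ((1 + Z) * (mb - mh) * (1 + Z') * (mb - mh)ᵀ).trace) +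
      5 * (Z * Z).trace + 5 * (Z' * Z').trace := by
  rw [cp_expand Z Z' mb mh hZ hZ']
  have a1 := cp_left_le Z mb hZ h1
  have a2 := cp_right_le Z' mb hZ' h2
  have a3 := cp_left_le Z mh hZ h3
  have a4 := cp_right_le Z' mh hZ' h4
  have s1 := cp_ip_sq mh (Z * mb) 4
  have s2 := cp_ip_sq mh (mb * Z') 4
  have s3 := cp_ip_sq (Z * mb) (mb * Z') (-1)
  have s4 := cp_ip_sq (Z * mh) (mh * Z') (-1)
  rw [cp_ip_comm mh (Z * mb)] at s1
  rw [cp_ip_comm mh (mb * Z')] at s2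
  have b0 : (mb * mbᵀ).trace = cpIp mb mb := rfl
  have b1 : (mh * mhᵀ).trace = cpIp mh mh := rfl
  rw [b0, b1]
  linarith

end TH71
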