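import Pool.Agent.Helper71.TH.Defs
import Pool.Agent.Helper71.TH.P_trace_mul_nonneg

set_option autoImplicit false
set_option linter.unusedVariables false

open Matrix

namespace TH71



theorem inv_ge_aux {n : Type*} [Fintype n] [DecidableEq n] (Z : Matrix n n ℝ)
    (hZ : Zᵀ = Z) (hp : (1 + Z).PosDef) : ((1 + Z)⁻¹ - (1 - Z)).PosSemidef := by
  have hU : IsUnit (1 + Z) := hp.isUnit
  have hdet : IsUnit (1 + Z).det := (Matrix.isUnit_iff_isUnit_det _).mp hU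
  have h1 : (1 + Z)⁻¹ * (1 + Z) = 1 := Matrix.nonsing_inv_mul _ hdet
  have h2 : (1 + Z) * (1 + Z)⁻¹ = 1 := Matrix.mul_nonsing_inv _ hdet
  have h3 : (1 + Z)⁻¹ - (1 - Z) = Z * (1 + Z)⁻¹ * Zᴴ := by
    rw [Matrix.conjTranspose_eq_transpose_of_trivial, hZ]
    have e1 : Z * (1 + Z)⁻¹ = 1 - (1 + Z)⁻¹ := by
      have : (1 + Z) * (1 + Z)⁻¹ = (1 + Z)⁻¹ + Z * (1 + Z)⁻¹ := by rw [add_mul, one_mul]
      rw [h2] at this
      exact (sub_eq_of_eq_add' this).symm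
    have e2 : (1 + Z)⁻¹ * Z = 1 - (1 + Z)⁻¹ := by
      have : (1 + Z)⁻¹ * (1 + Z) = (1 + Z)⁻¹ + (1 + Z)⁻¹ * Z := by rw [mul_add, mul_one]
      rw [h1] at this
      exact (sub_eq_of_eq_add' this).symm
    rw [e1, sub_mul, one_mul, e2]
    abel
  rw [h3]
  exact (hp.inv.posSemidef).mul_mul_conjTranspose_same Z

theorem inv_ge {n : Type*} [Fintype n] [DecidableEq n] (Z Z' μ : Matrix n n ℝ)
    (hZ : Zᵀ = Z) (hp : (1 + Z).PosDef) (hm : (1 - Z).PosDef)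
    (hZ' : Z'ᵀ = Z') (hp' : (1 + Z').PosDef) (hm' : (1 - Z').PosDef) :
    ((1 - Z) * μ * (1 - Z') * μᵀ).trace ≤ ((1 + Z)⁻¹ * μ * (1 + Z')⁻¹ * μᵀ).trace := by
  have hA := inv_ge_aux Z hZ hp
  have hB := inv_ge_aux Z' hZ' hp'
  have h1 : 0 ≤ (((1 + Z)⁻¹ - (1 - Z)) * (μ * (1 + Z')⁻¹ * μᴴ)).trace :=
    trace_mul_nonneg _ _ hA ((hp'.inv.posSemidef).mul_mul_conjTranspose_same μ)
  have h2 : 0 ≤ ((1 - Z) * (μ * ((1 + Z')⁻¹ - (1 - Z')) * μᴴ)).trace :=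
    trace_mul_nonneg _ _ hm.posSemidef (hB.mul_mul_conjTranspose_same μ)
  rw [Matrix.conjTranspose_eq_transpose_of_trivial] at h1 h2
  have h3 : ((1 + Z)⁻¹ * μ * (1 + Z')⁻¹ * μᵀ).trace - ((1 - Z) * μ * (1 - Z') * μᵀ).trace =
      (((1 + Z)⁻¹ - (1 - Z)) * (μ * (1 + Z')⁻¹ * μᵀ)).trace +
      ((1 - Z) * (μ * ((1 + Z')⁻¹ - (1 - Z')) * μᵀ)).trace := by
    rw [← Matrix.trace_sub, ← Matrix.trace_add]
    congr 1
    generalize (1 + Z)⁻¹ = a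
    generalize (1 + Z')⁻¹ = b
    generalize (1 - Z) = c
    generalize (1 - Z') = e
    noncomm_ring
  linarith

end TH71
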