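import Pool.Agent.Helper71.TH.Defs
import Pool.Agent.Helper71.TH.P_inv_ge
import Pool.Agent.Helper71.TH.P_core_poly

set_option autoImplicit false
set_option linter.unusedVariables false

open Matrix

namespace TH71

theorem core2 {n : Type*} [Fintype n] [DecidableEq n] (Z Z' mb mh : Matrix n n ℝ)
    (hZ : Zᵀ = Z) (hp : (1 + Z).PosDef) (hm : (1 - Z).PosDef)
    (hZ' : Z'ᵀ = Z') (hp' : (1 + Z').PosDef) (hm' : (1 - Z').PosDef)
    (h1 : (1 - mb * mbᵀ).PosSemidef) (h2 : (1 - mbᵀ * mb).PosSemidef)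
    (h3 : (1 - mh * mhᵀ).PosSemidef) (h4 : (1 - mhᵀ * mh).PosSemidef) :
    (mb * mbᵀ).trace + (1/2) * (mh * mhᵀ).trace ≤
      (1/2) * (((1 + Z)⁻¹ * (mb + mh) * (1 + Z')⁻¹ * (mb + mh)ᵀ).trace +
        ((1 - Z)⁻¹ * (mb - mh) * (1 - Z')⁻¹ * (mb - mh)ᵀ).trace) +
      5 * (Z * Z).trace + 5 * (Z' * Z').trace := by
  have a := inv_ge Z Z' (mb + mh) hZ hp hm hZ' hp' hm'
  have b := inv_ge (-Z) (-Z') (mb - mh) (by rw [transpose_neg, hZ]) (by rwa [← sub_eq_add_neg])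
    (by rwa [sub_neg_eq_add]) (by rw [transpose_neg, hZ']) (by rwa [← sub_eq_add_neg])
    (by rwa [sub_neg_eq_add])
  rw [sub_neg_eq_add, sub_neg_eq_add, ← sub_eq_add_neg, ← sub_eq_add_neg] at b
  have c := core_poly Z Z' mb mh hZ hZ' h1 h2 h3 h4
  linarith

end TH71
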