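import Pool.Agent.Helper71.TH.Defs

set_option autoImplicit false
set_option linter.unusedVariables false

open Matrix

namespace TH71



theorem row_col {ι : Type*} [Fintype ι] [DecidableEq ι] (f g : Bool → Matrix ι ι ℝ) :
    row f * (1 : Matrix (Bool × ι) (Bool × ι) ℝ) * col g = (1/2 : ℝ) • (f false * g false + f true * g true) ∧
    row f * sg ι * col g = (1/2 : ℝ) • (f false * g false - f true * g true) ∧
    row f * (row f)ᵀ = (1/2 : ℝ) • (f false * (f false)ᵀ + f true * (f true)ᵀ) ∧
    (col g)ᵀ * col g = (1/2 : ℝ) • ((g false)ᵀ * g false + (g true)ᵀ * g true) ∧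
    sg ι * sg ι = 1 ∧ (sg ι)ᵀ = sg ι := by
  have hs : (Real.sqrt 2)⁻¹ * (Real.sqrt 2)⁻¹ = (1/2 : ℝ) := by
    rw [← mul_inv, Real.mul_self_sqrt (by norm_num)]; norm_num
  have key : ∀ a b : ℝ, (Real.sqrt 2)⁻¹ * a * ((Real.sqrt 2)⁻¹ * b) = (1/2) * (a * b) := by
    intro a b
    rw [← hs]; ring
  have hs1 : ∀ (A : Matrix ι (Bool × ι) ℝ) (i x : ι), (A * sg ι) i (true, x) = - A i (true, x) := by
    intro A i x
    simp [sg, Matrix.mul_diagonal]
  have hs0 : ∀ (A : Matrix ι (Bool × ι) ℝ) (i x : ι), (A * sg ι) i (false, x) = A i (false, x) := by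
    intro A i x
    simp [sg, Matrix.mul_diagonal]
  refine ⟨?_, ?_, ?_, ?_, ?_, ?_⟩
  · ext i j
    rw [Matrix.mul_one]
    simp only [Matrix.mul_apply, Matrix.smul_apply, Matrix.add_apply, smul_eq_mul,
      Fintype.sum_prod_type, Fintype.sum_bool, row, col, key, ← Finset.mul_sum]
    ring
  · ext i j
    rw [Matrix.mul_apply]
    simp only [Fintype.sum_prod_type, Fintype.sum_bool, hs1, hs0]
    simp only [Matrix.mul_apply, Matrix.smul_apply, Matrix.sub_apply, smul_eq_mul, row, col,
      neg_mul, key, Finset.sum_neg_distrib, ← Finset.mul_sum]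
    ring
  · ext i j
    simp only [Matrix.mul_apply, Matrix.smul_apply, Matrix.add_apply, smul_eq_mul,
      Matrix.transpose_apply,
      Fintype.sum_prod_type, Fintype.sum_bool, row, key, ← Finset.mul_sum]
    ring
  · ext i j
    simp only [Matrix.mul_apply, Matrix.smul_apply, Matrix.add_apply, smul_eq_mul,
      Matrix.transpose_apply,
      Fintype.sum_prod_type, Fintype.sum_bool, col, key, ← Finset.mul_sum]
    ring
  · rw [sg, Matrix.diagonal_mul_diagonal]
    ext p q
    by_cases h : p = q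
    · subst h
      rw [Matrix.diagonal_apply_eq, Matrix.one_apply_eq]
      cases p.1 <;> simp
    · rw [Matrix.diagonal_apply_ne _ h, Matrix.one_apply_ne h]
  · rw [sg, Matrix.diagonal_transpose]

end TH71
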