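import Pool.Agent.Helper71.TH.Defs
import Pool.Agent.Helper71.TH.P_P_eq

set_option autoImplicit false
set_option linter.unusedVariables false

open Matrix

namespace TH71



/-- trace of `P(A) s Q(B) s` through the small side -/
theorem trPQ {ι κ : Type*} [Fintype ι] [DecidableEq ι] [Fintype κ] [DecidableEq κ]
    (A : Matrix ι κ ℝ) (B : Matrix κ ι ℝ) (s : Matrix κ κ ℝ) (S T : Matrix ι ι ℝ)
    (hs : sᵀ = s)
    (hS : IsUnit S.det) (hT : IsUnit T.det)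
    (eS : 1 + A * Aᵀ = S * Sᵀ) (eT : 1 + Bᵀ * B = T * Tᵀ) :
    (P A * s * P Bᵀ * s).trace =
      ((S⁻¹ * (A * s * B) * (Tᵀ)⁻¹) * (S⁻¹ * (A * s * B) * (Tᵀ)⁻¹)ᵀ).trace := by
  have h1 : P A = Aᵀ * ((Sᵀ)⁻¹ * S⁻¹) * A := by
    rw [P_eq, eS, Matrix.mul_inv_rev]
  have h2 : P Bᵀ = B * ((Tᵀ)⁻¹ * T⁻¹) * Bᵀ := by
    rw [P_eq, Matrix.transpose_transpose, eT, Matrix.mul_inv_rev]
  have h3 : (S⁻¹ * (A * s * B) * (Tᵀ)⁻¹)ᵀ = T⁻¹ * Bᵀ * s * Aᵀ * (Sᵀ)⁻¹ := by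
    rw [Matrix.transpose_mul, Matrix.transpose_mul, Matrix.transpose_mul, Matrix.transpose_mul,
      Matrix.transpose_nonsing_inv, Matrix.transpose_nonsing_inv, Matrix.transpose_transpose, hs]
    simp only [Matrix.mul_assoc]
  rw [h3, h1, h2]
  have e1 : Aᵀ * ((Sᵀ)⁻¹ * S⁻¹) * A * s * (B * ((Tᵀ)⁻¹ * T⁻¹) * Bᵀ) * s =
      (Aᵀ * (Sᵀ)⁻¹) * (S⁻¹ * (A * s * B) * (Tᵀ)⁻¹ * (T⁻¹ * Bᵀ * s)) := by
    simp only [Matrix.mul_assoc]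
  rw [e1, Matrix.trace_mul_comm]
  congr 1
  simp only [Matrix.mul_assoc]

end TH71
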