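import Pool.Agent.Helper71.TH.Defs
import Pool.Agent.Helper71.TH.P_P_eq

set_option autoImplicit false
set_option linter.unusedVariables false

open Matrix

namespace TH71



theorem trPQb {ι : Type*} [Fintype ι] [DecidableEq ι]
    (F G S T Z Z' : Matrix ι ι ℝ)
    (hS : IsUnit S.det) (hT : IsUnit T.det)
    (hZ : IsUnit (1 + Z).det) (hZ' : IsUnit (1 + Z').det)
    (eS : 1 + F * Fᵀ = S * (1 + Z) * Sᵀ) (eT : 1 + Gᵀ * G = T * (1 + Z') * Tᵀ) :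
    (P F * P Gᵀ).trace =
      ((1 + Z)⁻¹ * (S⁻¹ * (F * G) * (Tᵀ)⁻¹) * (1 + Z')⁻¹ * (S⁻¹ * (F * G) * (Tᵀ)⁻¹)ᵀ).trace := by
  rw [P_eq F, P_eq Gᵀ, Matrix.transpose_transpose, eS, eT]
  simp only [Matrix.mul_inv_rev, Matrix.transpose_mul, Matrix.transpose_nonsing_inv,
    Matrix.transpose_transpose]
  have e1 : Fᵀ * (Sᵀ⁻¹ * ((1 + Z)⁻¹ * S⁻¹)) * F * (G * (Tᵀ⁻¹ * ((1 + Z')⁻¹ * T⁻¹)) * Gᵀ) =
      (Fᵀ * Sᵀ⁻¹) * ((1 + Z)⁻¹ * S⁻¹ * F * G * Tᵀ⁻¹ * (1 + Z')⁻¹ * T⁻¹ * Gᵀ) := by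
    simp only [Matrix.mul_assoc]
  rw [e1, Matrix.trace_mul_comm]
  congr 1
  simp only [Matrix.mul_assoc]

end TH71
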