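import Pool.Agent.Helper71.TH.Defs
import Pool.Agent.Helper71.TH.P_factor
import Pool.Agent.Helper71.TH.P_LD_ge
import Pool.Agent.Helper71.TH.P_core2
import Pool.Agent.Helper71.TH.P_contr
import Pool.Agent.Helper71.TH.P_trPQ
import Pool.Agent.Helper71.TH.P_trPQb
import Pool.Agent.Helper71.TH.P_row_col

set_option autoImplicit false
set_option linter.unusedVariables false

open Matrix

namespace TH71



/-- Step 2: fixed row `f_b` and column `g_b` -/
theorem step2 {ι : Type*} [Fintype ι] [DecidableEq ι] (f g : Bool → Matrix ι ι ℝ) :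
    (P (row f) * P (col g)ᵀ).trace + (1/2) * (P (row f) * sg ι * P (col g)ᵀ * sg ι).trace ≤
      (1/2) * (∑ b, (P (f b) * P (g b)ᵀ).trace) +
      20 * LD (f false * (f false)ᵀ) (f true * (f true)ᵀ) +
      20 * LD ((g false)ᵀ * g false) ((g true)ᵀ * g true) := by
  have psd1 : ∀ A : Matrix ι ι ℝ, (A * Aᵀ).PosSemidef := fun A => by
    have := Matrix.posSemidef_self_mul_conjTranspose A
    rwa [Matrix.conjTranspose_eq_transpose_of_trivial] at this
  have psd2 : ∀ A : Matrix ι ι ℝ, (Aᵀ * A).PosSemidef := fun A => by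
    have := Matrix.posSemidef_conjTranspose_mul_self A
    rwa [Matrix.conjTranspose_eq_transpose_of_trivial] at this
  obtain ⟨S, Z, hS, hZ, hp, hm, e, e0, e1⟩ :=
    factor (f false * (f false)ᵀ) (f true * (f true)ᵀ) (psd1 _) (psd1 _)
  obtain ⟨T, Z', hT, hZ', hp', hm', e', e0', e1'⟩ :=
    factor ((g false)ᵀ * g false) ((g true)ᵀ * g true) (psd2 _) (psd2 _)
  obtain ⟨r1, r2, r3, r4, s1, s2⟩ := row_col f g
  have eS : 1 + row f * (row f)ᵀ = S * Sᵀ := by rw [r3, e]
  have eT : 1 + (col g)ᵀ * col g = T * Tᵀ := by rw [r4, e']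
  obtain ⟨h1, h2⟩ := contr (row f) (col g) 1 S T (by simp) (by simp) hS hT eS eT
  obtain ⟨h3, h4⟩ := contr (row f) (col g) (sg ι) S T (by rw [s2, s1]) (by rw [s2, s1]) hS hT eS eT
  have t1 := trPQ (row f) (col g) 1 S T (by simp) hS hT eS eT
  have t2 := trPQ (row f) (col g) (sg ι) S T s2 hS hT eS eT
  have u0 := trPQb (f false) (g false) S T Z Z' hS hT
    ((Matrix.isUnit_iff_isUnit_det _).mp hp.isUnit) ((Matrix.isUnit_iff_isUnit_det _).mp hp'.isUnit) e0 e0'
  have u1 := trPQb (f true) (g true) S T (-Z) (-Z') hS hT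
    (by rw [← sub_eq_add_neg]; exact (Matrix.isUnit_iff_isUnit_det _).mp hm.isUnit)
    (by rw [← sub_eq_add_neg]; exact (Matrix.isUnit_iff_isUnit_det _).mp hm'.isUnit)
    (by rw [← sub_eq_add_neg]; exact e1) (by rw [← sub_eq_add_neg]; exact e1')
  rw [← sub_eq_add_neg, ← sub_eq_add_neg] at u1
  have c := core2 Z Z' _ _ hZ hp hm hZ' hp' hm' h1 h2 h3 h4
  rw [← t1, ← t2] at c
  have sum1 : S⁻¹ * (row f * (1 : Matrix (Bool × ι) (Bool × ι) ℝ) * col g) * (Tᵀ)⁻¹ +
      S⁻¹ * (row f * sg ι * col g) * (Tᵀ)⁻¹ = S⁻¹ * (f false * g false) * (Tᵀ)⁻¹ := by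
    rw [r1, r2, ← Matrix.add_mul, ← Matrix.mul_add, ← smul_add]
    congr 2
    have : f false * g false + f true * g true + (f false * g false - f true * g true) =
        (2:ℝ) • (f false * g false) := by
      rw [two_smul]; abel
    rw [this, smul_smul]; norm_num
  have sum2 : S⁻¹ * (row f * (1 : Matrix (Bool × ι) (Bool × ι) ℝ) * col g) * (Tᵀ)⁻¹ -
      S⁻¹ * (row f * sg ι * col g) * (Tᵀ)⁻¹ = S⁻¹ * (f true * g true) * (Tᵀ)⁻¹ := by
    rw [r1, r2, ← Matrix.sub_mul, ← Matrix.mul_sub, ← smul_sub]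
    congr 2
    have : f false * g false + f true * g true - (f false * g false - f true * g true) =
        (2:ℝ) • (f true * g true) := by
      rw [two_smul]; abel
    rw [this, smul_smul]; norm_num
  rw [sum1, sum2, ← u0, ← u1] at c
  rw [Fintype.sum_bool]
  have l1 := LD_ge _ _ S Z hS hZ hp hm e e0 e1
  have l2 := LD_ge _ _ T Z' hT hZ' hp' hm' e' e0' e1'
  have z1 : 0 ≤ (Z * Z).trace := by
    have := (psd1 Z).trace_nonneg
    rwa [hZ] at this
  have z2 : 0 ≤ (Z' * Z').trace := by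
    have := (psd1 Z').trace_nonneg
    rwa [hZ'] at this
  rw [Matrix.mul_one, Matrix.mul_one] at c
  linarith

end TH71
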