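import Pool.Agent.Helper71.TH.Defs
import Pool.Agent.Helper71.TH.P_trace_mul_nonneg

set_option autoImplicit false
set_option linter.unusedVariables false

open Matrix

namespace TH71



theorem one_sub_inv_psd' {n : Type*} [Fintype n] [DecidableEq n] (X : Matrix n n ℝ)
    (h : X.PosSemidef) : (1 - (1 + X)⁻¹).PosSemidef := by
  have hA : (1 + X).PosDef := Matrix.PosDef.one.add_posSemidef h
  have hd : IsUnit (1 + X).det := hA.det_pos.ne'.isUnit
  obtain ⟨U, hU⟩ : ∃ U, U = (1 + X)⁻¹ := ⟨_, rfl⟩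
  have h1 : U * (1 + X) = 1 := by rw [hU]; exact Matrix.nonsing_inv_mul _ hd
  have hUh : Uᴴ = U := by rw [hU]; exact hA.inv.isHermitian
  rw [← hU]
  have hUX : U * X = 1 - U := by
    rw [mul_add, mul_one] at h1
    rw [← h1]; abel
  have e : 1 - U = (1 - U)ᴴ * (1 - U) + Uᴴ * X * U := by
    rw [Matrix.conjTranspose_sub, Matrix.conjTranspose_one, hUh, hUX]
    noncomm_ring
  rw [e]
  exact (Matrix.posSemidef_conjTranspose_mul_self _).add (h.conjTranspose_mul_mul_same U)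

theorem Yhat_le {n : Type*} [Fintype n] [DecidableEq n] (X0 X1 : Matrix n n ℝ)
    (h0 : X0.PosSemidef) (h1 : X1.PosSemidef) :
    (1/4) * (((1 + X0)⁻¹ - (1 + X1)⁻¹) * ((1 + X0)⁻¹ - (1 + X1)⁻¹)).trace ≤
    ((1/2 : ℝ) • ((1 + X0)⁻¹ + (1 + X1)⁻¹) - (1 + (1/2 : ℝ) • (X0 + X1))⁻¹).trace := by
  have hA : (1 + X0).PosDef := Matrix.PosDef.one.add_posSemidef h0
  have hB : (1 + X1).PosDef := Matrix.PosDef.one.add_posSemidef h1
  have hdA : IsUnit (1 + X0).det := hA.det_pos.ne'.isUnit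
  have hdB : IsUnit (1 + X1).det := hB.det_pos.ne'.isUnit
  have hpU := one_sub_inv_psd' X0 h0
  have hpV := one_sub_inv_psd' X1 h1
  obtain ⟨U, hU⟩ : ∃ U, U = (1 + X0)⁻¹ := ⟨_, rfl⟩
  obtain ⟨V, hV⟩ : ∃ V, V = (1 + X1)⁻¹ := ⟨_, rfl⟩
  have hUpd : U.PosDef := by rw [hU]; exact hA.inv
  have hVpd : V.PosDef := by rw [hV]; exact hB.inv
  have hAU : (1 + X0) * U = 1 := by rw [hU]; exact Matrix.mul_nonsing_inv _ hdA
  have hBV : (1 + X1) * V = 1 := by rw [hV]; exact Matrix.mul_nonsing_inv _ hdB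
  rw [← hU, ← hV]
  rw [← hU] at hpU
  rw [← hV] at hpV
  obtain ⟨Y, hY⟩ : ∃ Y, Y = (1/2 : ℝ) • (U + V) := ⟨_, rfl⟩
  obtain ⟨Z, hZ⟩ : ∃ Z, Z = (1/2 : ℝ) • (U - V) := ⟨_, rfl⟩
  have hYpd : Y.PosDef := by rw [hY]; exact (hUpd.add hVpd).smul (by norm_num)
  have hdY : IsUnit Y.det := hYpd.det_pos.ne'.isUnit
  obtain ⟨W, hW⟩ : ∃ W, W = Y⁻¹ := ⟨_, rfl⟩
  have hYW : Y * W = 1 := by rw [hW]; exact Matrix.mul_nonsing_inv _ hdY
  have hWY : W * Y = 1 := by rw [hW]; exact Matrix.nonsing_inv_mul _ hdY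
  have hWh : Wᴴ = W := by rw [hW]; exact hYpd.inv.isHermitian
  have hZh : Zᴴ = Z := by
    rw [hZ, Matrix.conjTranspose_smul, Matrix.conjTranspose_sub, hUpd.isHermitian, hVpd.isHermitian]
    simp
  have hUYZ : U = Y + Z := by
    rw [hY, hZ, ← smul_add]
    have : U + V + (U - V) = (2:ℝ) • U := by rw [two_smul]; abel
    rw [this, smul_smul]; norm_num
  have hVYZ : V = Y - Z := by
    rw [hY, hZ, ← smul_sub]
    have : U + V - (U - V) = (2:ℝ) • V := by rw [two_smul]; abel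
    rw [this, smul_smul]; norm_num
  -- the inverse of the mean
  have hSU : (1 + (1/2 : ℝ) • (X0 + X1)) * U = (1 + X1) * Y := by
    have e1 : (1 + (1/2 : ℝ) • (X0 + X1)) = (1/2 : ℝ) • ((1 + X0) + (1 + X1)) := by
      have : (1 + X0) + (1 + X1) = (2:ℝ) • (1 : Matrix n n ℝ) + (X0 + X1) := by
        rw [two_smul]; abel
      rw [this, smul_add (1/2:ℝ) ((2:ℝ) • (1 : Matrix n n ℝ)) (X0+X1), smul_smul (1/2:ℝ) (2:ℝ)]; norm_num
    rw [e1, hY, Matrix.smul_mul, Matrix.mul_smul, add_mul, mul_add, hAU, hBV, add_comm]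
  have hR : (1 + (1/2 : ℝ) • (X0 + X1))⁻¹ = U * W * V := by
    apply Matrix.inv_eq_right_inv
    rw [← mul_assoc, ← mul_assoc, hSU, mul_assoc (1 + X1) Y W, hYW, mul_one, hBV]
  have hdiff : Y - (1 + (1/2 : ℝ) • (X0 + X1))⁻¹ = Z * W * Z := by
    rw [hR, hUYZ, hVYZ]
    have e1 : (Y + Z) * W * (Y - Z) = Y * W * Y - Y * W * Z + Z * (W * Y) - Z * W * Z := by
      noncomm_ring
    rw [e1, hYW, hWY]
    noncomm_ring
  have hone : (1 - Y).PosSemidef := by
    have e1 : 1 - Y = (1/2 : ℝ) • ((1 - U) + (1 - V)) := by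
      have : (1 - U) + (1 - V) = (2:ℝ) • (1 : Matrix n n ℝ) - (U + V) := by
        rw [two_smul]; abel
      rw [this, smul_sub, smul_smul, ← hY]; norm_num
    rw [e1]
    exact (hpU.add hpV).smul (by norm_num)
  have hW1 : (W - 1).PosSemidef := by
    have e1 : W - 1 = (W - 1)ᴴ * Y * (W - 1) + (1 - Y) := by
      rw [Matrix.conjTranspose_sub, Matrix.conjTranspose_one, hWh]
      have e2 : (W - 1) * Y * (W - 1) = W * Y * W - W * Y - Y * W + Y := by noncomm_ring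
      rw [e2, hWY, hYW]
      noncomm_ring
    rw [e1]
    exact (hYpd.posSemidef.conjTranspose_mul_mul_same _).add hone
  have hfin : 0 ≤ (Zᴴ * (W - 1) * Z).trace := (hW1.conjTranspose_mul_mul_same Z).trace_nonneg
  rw [hZh] at hfin
  have e3 : Z * (W - 1) * Z = Z * W * Z - Z * Z := by noncomm_ring
  rw [e3, Matrix.trace_sub] at hfin
  have e4 : (Z * Z).trace = (1/4) * ((U - V) * (U - V)).trace := by
    rw [hZ, Matrix.smul_mul, Matrix.mul_smul, smul_smul, Matrix.trace_smul, smul_eq_mul]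
    norm_num
  rw [← hY, hdiff]
  linarith

end TH71
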