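import Pool.Agent.Helper71.TH.Defs
import Pool.Agent.Helper71.TH.P_factor
import Pool.Agent.Helper71.TH.P_LD_ge
import Pool.Agent.Helper71.TH.P_Delta_trace
import Pool.Agent.Helper71.TH.P_Yhat_le
import Pool.Agent.Helper71.TH.P_P_bounds

set_option autoImplicit false
set_option linter.unusedVariables false

open Matrix

namespace TH71



theorem h445_tr_nonneg {n : Type*} [Fintype n] [DecidableEq n] (M : Matrix n n ℝ) (hM : Mᵀ = M) :
    0 ≤ (M * M).trace := by
  rw [Matrix.trace]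
  simp only [diag_apply, mul_apply]
  apply Finset.sum_nonneg
  intro i _
  apply Finset.sum_nonneg
  intro j _
  have h1 : M j i = M i j := by
    have := congrFun (congrFun hM i) j
    rwa [transpose_apply] at this
  rw [h1]
  exact mul_self_nonneg _

theorem h445_P_symm {m n : Type*} [Fintype m] [Fintype n] [DecidableEq n] (A : Matrix m n ℝ) :
    (P A)ᵀ = P A := by
  have h := (P_bounds A).1.1
  rwa [Matrix.IsHermitian, conjTranspose_eq_transpose_of_trivial] at h

theorem h445_aux {ι : Type*} [Fintype ι] [DecidableEq ι] (A0 A1 : Matrix ι ι ℝ) :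
    ((P A0 - P A1) * (P A0 - P A1)).trace ≤ 8 * LD (A0ᵀ * A0) (A1ᵀ * A1) ∧
      0 ≤ LD (A0ᵀ * A0) (A1ᵀ * A1) := by
  have h0 : (A0ᵀ * A0).PosSemidef := by
    have := Matrix.posSemidef_conjTranspose_mul_self A0
    rwa [conjTranspose_eq_transpose_of_trivial] at this
  have h1 : (A1ᵀ * A1).PosSemidef := by
    have := Matrix.posSemidef_conjTranspose_mul_self A1
    rwa [conjTranspose_eq_transpose_of_trivial] at this
  obtain ⟨S, Z, hS, hZ, hp, hm, e, e0, e1⟩ := factor _ _ h0 h1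
  have k1 := LD_ge _ _ S Z hS hZ hp hm e e0 e1
  have k2 := Delta_trace _ _ S Z h0 h1 hS hZ hp hm e e0 e1
  have k3 := Yhat_le _ _ h0 h1
  have k4 := h445_tr_nonneg Z hZ
  have k5 : P A0 - P A1 = -((1 + A0ᵀ * A0)⁻¹ - (1 + A1ᵀ * A1)⁻¹) := by
    unfold P
    abel
  refine ⟨?_, by linarith⟩
  rw [k5, neg_mul_neg]
  linarith

theorem h445_pair {ι : Type*} [Fintype ι] [DecidableEq ι] (P0 P1 Q0 Q1 : Matrix ι ι ℝ)
    (hP0 : P0ᵀ = P0) (hP1 : P1ᵀ = P1) (hQ0 : Q0ᵀ = Q0) (hQ1 : Q1ᵀ = Q1) :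
    |(P0 * Q0).trace - (P0 * Q1).trace - (P1 * Q0).trace + (P1 * Q1).trace| ≤
      (1 / 2) * (((P0 - P1) * (P0 - P1)).trace + ((Q0 - Q1) * (Q0 - Q1)).trace) := by
  have e1 : (P0 * Q0).trace - (P0 * Q1).trace - (P1 * Q0).trace + (P1 * Q1).trace =
      ((P0 - P1) * (Q0 - Q1)).trace := by
    simp only [sub_mul, mul_sub, trace_sub]
    ring
  rw [e1]
  have hM : (P0 - P1)ᵀ = P0 - P1 := by rw [transpose_sub, hP0, hP1]
  have hN : (Q0 - Q1)ᵀ = Q0 - Q1 := by rw [transpose_sub, hQ0, hQ1]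
  generalize P0 - P1 = M at hM ⊢
  generalize Q0 - Q1 = N at hN ⊢
  have a1 := h445_tr_nonneg (M + N) (by rw [transpose_add, hM, hN])
  have a2 := h445_tr_nonneg (M - N) (by rw [transpose_sub, hM, hN])
  simp only [add_mul, mul_add, trace_add, sub_mul, mul_sub, trace_sub] at a1 a2
  have a3 : (N * M).trace = (M * N).trace := Matrix.trace_mul_comm N M
  rw [abs_le]
  constructor <;> linarith

/-- Step 3: all pairs against even pairs -/
theorem step3 {ι : Type*} [Fintype ι] [DecidableEq ι] (f g : Bool → Bool → Matrix ι ι ℝ) :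
    (1/8) * (∑ a, ∑ b, ∑ c, (P (f a b) * P (g b c)ᵀ).trace) ≤
      (1/4) * (∑ a, ∑ b, (P (f a b) * P (g b (xor a b))ᵀ).trace) +
      ∑ b, LD ((f false b)ᵀ * f false b) ((f true b)ᵀ * f true b) +
      ∑ b, LD (g b false * (g b false)ᵀ) (g b true * (g b true)ᵀ) := by
  have p0 := h445_pair (P (f false false)) (P (f true false)) (P (g false false)ᵀ)
    (P (g false true)ᵀ) (h445_P_symm _) (h445_P_symm _) (h445_P_symm _) (h445_P_symm _)
  have p1 := h445_pair (P (f false true)) (P (f true true)) (P (g true false)ᵀ)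
    (P (g true true)ᵀ) (h445_P_symm _) (h445_P_symm _) (h445_P_symm _) (h445_P_symm _)
  have a0 := h445_aux (f false false) (f true false)
  have a1 := h445_aux (f false true) (f true true)
  have b0 := h445_aux (g false false)ᵀ (g false true)ᵀ
  have b1 := h445_aux (g true false)ᵀ (g true true)ᵀ
  simp only [transpose_transpose] at b0 b1
  simp only [Fintype.sum_bool, Bool.xor_false, Bool.xor_true, Bool.not_true, Bool.not_false]
  have q0 := abs_le.1 p0
  have q1 := abs_le.1 p1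
  linarith [q0.1, q0.2, q1.1, q1.2, a0.1, a0.2, a1.1, a1.2, b0.1, b0.2, b1.1, b1.2]

end TH71
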