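import Pool.Agent.Helper71.TH.Defs
import Pool.Agent.Helper71.TH.P_par_transpose
import Pool.Agent.Helper71.TH.P_LD_nonneg
import Pool.Agent.Helper71.TH.P_Psi_defect
import Pool.Agent.Helper71.TH.P_Psi_transpose
import Pool.Agent.Helper71.TH.P_step1
import Pool.Agent.Helper71.TH.P_step2
import Pool.Agent.Helper71.TH.P_step3

set_option autoImplicit false
set_option linter.unusedVariables false

open Matrix

namespace TH71



theorem PL_psd1 {m n : Type*} [Fintype m] [Fintype n] [DecidableEq m] [DecidableEq n]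
    (A : Matrix m n ℝ) : (Aᵀ * A).PosSemidef := by
  have h := Matrix.posSemidef_conjTranspose_mul_self A
  rwa [Matrix.conjTranspose_eq_transpose_of_trivial] at h

theorem PL_psd2 {m n : Type*} [Fintype m] [Fintype n] [DecidableEq m] [DecidableEq n]
    (A : Matrix m n ℝ) : (A * Aᵀ).PosSemidef := by
  have h := Matrix.posSemidef_self_mul_conjTranspose A
  rwa [Matrix.conjTranspose_eq_transpose_of_trivial] at h

theorem PL_defect2 {ι : Type*} [Fintype ι] [DecidableEq ι] (f : Bool → Bool → Matrix ι ι ℝ) :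
    (1/4) * (∑ a, ∑ b, Psi (f a b)) - Psi (par f) =
      LD (col (fun b => f b false) * (col (fun b => f b false))ᵀ)
         (col (fun b => f b true) * (col (fun b => f b true))ᵀ) +
      (1/2) * ∑ b, LD ((f false b)ᵀ * f false b) ((f true b)ᵀ * f true b) := by
  have h := Psi_defect (fun a b => (f b a)ᵀ)
  obtain ⟨h1, h2⟩ := par_transpose f
  have h3 : (row (fun b => (f b false)ᵀ)) = (col (fun b => f b false))ᵀ := h2 false
  have h4 : (row (fun b => (f b true)ᵀ)) = (col (fun b => f b true))ᵀ := h2 true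
  rw [← h1, Psi_transpose, h3, h4] at h
  simp only [Psi_transpose, Matrix.transpose_transpose] at h
  rw [← h]
  congr 2
  exact Finset.sum_comm

/-- the local inequality -/
theorem PL {ι : Type*} [Fintype ι] [DecidableEq ι] (f g : Bool → Bool → Matrix ι ι ℝ) :
    (P (par f) * P (par g)ᵀ).trace + (1/2) * E (sg ι) (par f) (par g) ≤
      (1/4) * (∑ a, ∑ b, (P (f a b) * P (g b (xor a b))ᵀ).trace) +
      100 * ((1/4) * (∑ a, ∑ b, Psi (f a b)) - Psi (par f)) +
      100 * ((1/4) * (∑ a, ∑ b, Psi (g a b)) - Psi (par g)) := by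
  have s1 := step1 f g
  have s2 : ∀ a c, (P (row (f a)) * P (col (fun b => g b c))ᵀ).trace +
      (1/2) * (P (row (f a)) * sg ι * P (col (fun b => g b c))ᵀ * sg ι).trace ≤
      (1/2) * (∑ b, (P (f a b) * P (g b c)ᵀ).trace) +
      20 * LD (f a false * (f a false)ᵀ) (f a true * (f a true)ᵀ) +
      20 * LD ((g false c)ᵀ * g false c) ((g true c)ᵀ * g true c) :=
    fun a c => step2 (f a) (fun b => g b c)
  have s3 := step3 f g
  have df1 := Psi_defect f
  have df2 := PL_defect2 f
  have dg1 := Psi_defect g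
  have dg2 := PL_defect2 g
  generalize (1/4) * (∑ a, ∑ b, Psi (f a b)) - Psi (par f) = Df at *
  generalize (1/4) * (∑ a, ∑ b, Psi (g a b)) - Psi (par g) = Dg at *
  have n1 := LD_nonneg _ _ (PL_psd1 (row (f false))) (PL_psd1 (row (f true)))
  have n2 := LD_nonneg _ _ (PL_psd1 (row (g false))) (PL_psd1 (row (g true)))
  have n3 := LD_nonneg _ _ (PL_psd2 (col (fun b => f b false))) (PL_psd2 (col (fun b => f b true)))
  have n4 := LD_nonneg _ _ (PL_psd2 (col (fun b => g b false))) (PL_psd2 (col (fun b => g b true)))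
  have n5 : ∀ a, 0 ≤ LD (f a false * (f a false)ᵀ) (f a true * (f a true)ᵀ) :=
    fun a => LD_nonneg _ _ (PL_psd2 _) (PL_psd2 _)
  have n6 : ∀ a, 0 ≤ LD (g a false * (g a false)ᵀ) (g a true * (g a true)ᵀ) :=
    fun a => LD_nonneg _ _ (PL_psd2 _) (PL_psd2 _)
  have n7 : ∀ b, 0 ≤ LD ((f false b)ᵀ * f false b) ((f true b)ᵀ * f true b) :=
    fun a => LD_nonneg _ _ (PL_psd1 _) (PL_psd1 _)
  have n8 : ∀ b, 0 ≤ LD ((g false b)ᵀ * g false b) ((g true b)ᵀ * g true b) :=
    fun a => LD_nonneg _ _ (PL_psd1 _) (PL_psd1 _)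
  have s200 := s2 true true
  have s201 := s2 true false
  have s210 := s2 false true
  have s211 := s2 false false
  have n50 := n5 true
  have n51 := n5 false
  have n60 := n6 true
  have n61 := n6 false
  have n70 := n7 true
  have n71 := n7 false
  have n80 := n8 true
  have n81 := n8 false
  clear s2 n5 n6 n7 n8
  simp only [Fintype.sum_bool] at s1 s200 s201 s210 s211 s3 df1 df2 dg1 dg2 ⊢
  linarith

end TH71
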