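import Pool.Agent.Helper71.TH.Defs
import Pool.Agent.Helper71.TH.P_PL

set_option autoImplicit false
set_option linter.unusedVariables false

open Matrix

namespace TH71



theorem node1 {ι : Type*} [Fintype ι] [DecidableEq ι] (f g h : Bool → Bool → Matrix ι ι ℝ) :
    (1/2) * (E (sg ι) (par f) (par g) + E (sg ι) (par g) (par h) + E (sg ι) (par h) (par f)) ≤
      (1/4) * (∑ a, ∑ b, phi (f a b) (g b (xor a b)) (h (xor a b) a)) -
        phi (par f) (par g) (par h) := by
  have h1 := PL f g
  have h2 := PL g h
  have h3 := PL h f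
  simp only [Fintype.sum_bool, phi, Bool.xor_true, Bool.xor_false, Bool.not_true, Bool.not_false]
    at h1 h2 h3 ⊢
  linarith

end TH71
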