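import Pool.Agent.Helper71.TH.Defs
import Pool.Agent.Helper71.TH.P_db_final
import Pool.Agent.Helper71.TH.P_node1

set_option autoImplicit false
set_option linter.unusedVariables false

open Matrix

namespace TH71



theorem nodeK_sg1 {ι : Type*} [Fintype ι] [DecidableEq ι] : (sg ι)ᵀ = sg ι := by
  unfold sg
  exact Matrix.diagonal_transpose _

theorem nodeK_sg2 {ι : Type*} [Fintype ι] [DecidableEq ι] : sg ι * sg ι = 1 := by
  unfold sg
  rw [Matrix.diagonal_mul_diagonal, ← Matrix.diagonal_one]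
  congr 1
  funext p
  by_cases h : p.1
  · simp [h]
  · simp [h]

theorem nodeK_smul {ι : Type*} (l : ℝ) (f : Bool → Bool → Matrix ι ι ℝ) :
    l • par f = par (fun a b => l • f a b) := by
  ext p q
  simp only [par, Matrix.smul_apply, smul_eq_mul]
  ring

theorem nodeK {ι : Type*} [Fintype ι] [DecidableEq ι] (f g h : Bool → Bool → Matrix ι ι ℝ)
    (ε : ℝ) (hε : 0 < ε) :
    ∃ K0 : ℕ, ∀ K : ℕ, K0 ≤ K →
      |(sg ι * par f * sg ι * par g * sg ι * par h).trace| ≤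
      24 * ((1/4) * (∑ a, ∑ b, PhiK K (f a b) (g b (xor a b)) (h (xor a b) a)) -
        PhiK K (par f) (par g) (par h)) + ε := by
  obtain ⟨K0, hK0⟩ := db_final (sg ι) (par f) (par g) (par h) nodeK_sg1 nodeK_sg2 ε hε
  refine ⟨K0, fun K hK => (hK0 K hK).trans ?_⟩
  have hkey : ∀ k ∈ Finset.Ico (-(K : ℤ)) (K : ℤ), (lam k) ^ 3 *
        (E (sg ι) ((lam k)⁻¹ • par f) ((lam k)⁻¹ • par g) +
          E (sg ι) ((lam k)⁻¹ • par g) ((lam k)⁻¹ • par h)
        + E (sg ι) ((lam k)⁻¹ • par h) ((lam k)⁻¹ • par f)) ≤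
      2 * ((1 / 4) * (∑ a, ∑ b, (lam k) ^ 3 * phi ((lam k)⁻¹ • f a b)
          ((lam k)⁻¹ • g b (xor a b)) ((lam k)⁻¹ • h (xor a b) a)) -
        (lam k) ^ 3 * phi ((lam k)⁻¹ • par f) ((lam k)⁻¹ • par g) ((lam k)⁻¹ • par h)) := by
    intro k _
    have hl : 0 ≤ (lam k) ^ 3 := by
      unfold lam
      positivity
    have h1 := node1 (fun a b => (lam k)⁻¹ • f a b) (fun a b => (lam k)⁻¹ • g a b)
      (fun a b => (lam k)⁻¹ • h a b)
    rw [← nodeK_smul, ← nodeK_smul, ← nodeK_smul] at h1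
    have h2 := mul_le_mul_of_nonneg_left h1 hl
    simp only [Fintype.sum_bool] at h2 ⊢
    linarith
  have hsum := Finset.sum_le_sum hkey
  have hre : ∑ k ∈ Finset.Ico (-(K : ℤ)) (K : ℤ),
      2 * ((1 / 4) * (∑ a, ∑ b, (lam k) ^ 3 * phi ((lam k)⁻¹ • f a b)
          ((lam k)⁻¹ • g b (xor a b)) ((lam k)⁻¹ • h (xor a b) a)) -
        (lam k) ^ 3 * phi ((lam k)⁻¹ • par f) ((lam k)⁻¹ • par g) ((lam k)⁻¹ • par h)) =
      2 * ((1/4) * (∑ a, ∑ b, PhiK K (f a b) (g b (xor a b)) (h (xor a b) a)) -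
        PhiK K (par f) (par g) (par h)) := by
    simp only [Fintype.sum_bool]
    rw [← Finset.mul_sum, Finset.sum_sub_distrib, ← Finset.mul_sum, Finset.sum_add_distrib,
      Finset.sum_add_distrib, Finset.sum_add_distrib]
    rfl
  rw [hre] at hsum
  linarith

end TH71
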