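import Pool.Agent.Helper71.TH.Defs
import Pool.Agent.Helper71.TH.P_nodeK

set_option autoImplicit false
set_option linter.unusedVariables false

open Matrix

namespace TH71



theorem tree (n : ℕ) (f g h : ℕ → ℕ → ℝ) (ε : ℝ) (hε : 0 < ε) :
    ∃ K0 : ℕ, ∀ K : ℕ, K0 ≤ K →
      Ssum n f g h ≤ 24 * (Leaf K n f g h - PhiK K (Mx n f) (Mx n g) (Mx n h)) + ε := by
  induction n generalizing f g h ε with
  | zero =>
      refine ⟨0, fun K _ => ?_⟩
      have h1 : Ssum 0 f g h = 0 := rfl
      have h2 : Leaf K 0 f g h = PhiK K (Mx 0 f) (Mx 0 g) (Mx 0 h) := rfl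
      rw [h1, h2]; linarith
  | succ n ih =>
      have hε2 : 0 < ε / 2 := by linarith
      obtain ⟨N0, hN0⟩ := nodeK (fun a b => Mx n (sub n a b f)) (fun a b => Mx n (sub n a b g))
        (fun a b => Mx n (sub n a b h)) (ε / 2) hε2
      choose K1 hK1 using fun (a b : Bool) => ih (sub n a b f) (sub n b (xor a b) g)
        (sub n (xor a b) a h) (ε / 2) hε2
      refine ⟨N0 + (K1 false false + K1 false true + K1 true false + K1 true true),
        fun K hK => ?_⟩
      have hn := hN0 K (by omega)
      have c00 := hK1 false false K (by omega)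
      have c01 := hK1 false true K (by omega)
      have c10 := hK1 true false K (by omega)
      have c11 := hK1 true true K (by omega)
      have e1 : Ssum (n + 1) f g h = |Dn n f g h| + (1/4) * ∑ a : Bool, ∑ b : Bool,
        Ssum n (sub n a b f) (sub n b (xor a b) g) (sub n (xor a b) a h) := rfl
      have e2 : Leaf K (n + 1) f g h = (1/4) * ∑ a : Bool, ∑ b : Bool,
        Leaf K n (sub n a b f) (sub n b (xor a b) g) (sub n (xor a b) a h) := rfl
      have e3 : PhiK K (Mx (n+1) f) (Mx (n+1) g) (Mx (n+1) h) =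
        PhiK K (par (fun a b => Mx n (sub n a b f))) (par (fun a b => Mx n (sub n a b g)))
          (par (fun a b => Mx n (sub n a b h))) := rfl
      have e4 : |Dn n f g h| ≤ 24 * ((1/4) * (∑ a : Bool, ∑ b : Bool,
          PhiK K (Mx n (sub n a b f)) (Mx n (sub n b (xor a b) g)) (Mx n (sub n (xor a b) a h))) -
        PhiK K (par (fun a b => Mx n (sub n a b f))) (par (fun a b => Mx n (sub n a b g)))
          (par (fun a b => Mx n (sub n a b h)))) + ε / 2 := hn
      rw [e1, e2, e3]
      simp only [Fintype.sum_bool] at e4 ⊢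
      linarith

end TH71
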