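import Pool.Agent.Helper71.TH.Defs
import Pool.Agent.Helper71.TH.P_phi_nonneg
import Pool.Agent.Helper71.TH.P_tree
import Pool.Agent.Helper71.TH.P_leaf_bound
import Pool.Agent.Helper71.TH.P_flat

set_option autoImplicit false
set_option linter.unusedVariables false

open Matrix

namespace TH71



theorem FSflat : ∃ C : ℝ, ∀ (n : ℕ) (f g h : ℕ → ℕ → ℝ),
    ∑ s ∈ Finset.range n, |Lam n s f g h| ≤ C * (a3 n f + a3 n g + a3 n h) := by
  refine ⟨240000, fun n f g h => ?_⟩
  refine le_of_forall_pos_le_add fun ε hε => ?_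
  obtain ⟨K0, hK0⟩ := tree n f g h ε hε
  have h1 := hK0 K0 le_rfl
  have h2 : 0 ≤ PhiK K0 (Mx n f) (Mx n g) (Mx n h) := by
    unfold PhiK
    refine Finset.sum_nonneg fun k _ => mul_nonneg ?_ (phi_nonneg _ _ _)
    unfold lam
    positivity
  have h3 := leaf_bound K0 n f g h
  have h4 := flat n f g h
  linarith

end TH71
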