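import Pool.Agent.Helper321.TH.Fin
import Pool.Agent.Helper71.TH.P_FSflat

set_option autoImplicit false

namespace TH71

/-- the combinatorial side in the form used by the analytic reduction -/
theorem glue (h : ∃ C : ℝ, ∀ (n : ℕ) (f g h : ℕ → ℕ → ℝ),
    ∑ s ∈ Finset.range n, |Lam n s f g h| ≤ C * (a3 n f + a3 n g + a3 n h)) :
    Pool.Agent.Helper321.TH.FSflat := by
  obtain ⟨C, hC⟩ := h
  refine ⟨C, fun n f g h => ?_⟩
  have e1 : ∀ s, Pool.Agent.Helper321.TH.Lam n s f g h = Lam n s f g h := fun s => by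
    unfold Pool.Agent.Helper321.TH.Lam Lam Pool.Agent.Helper321.TH.sg sgn
    rw [one_div_pow, one_div_pow]
  have e2 : ∀ f, Pool.Agent.Helper321.TH.a3 n f = a3 n f := fun f => by
    unfold Pool.Agent.Helper321.TH.a3 a3
    rw [one_div_pow]
  simp_rw [e1, e2]
  exact hC n f g h

theorem FS321 : Pool.Agent.Helper321.TH.FSflat := glue FSflat

end TH71
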